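import Pool.Agent.R323.NF.F
import Pool.Agent.R323.Core

/-!
# The core theorem over number fields
-/

set_option autoImplicit false

namespace Pool.Agent.R323

open Filter MvPolynomial Pool.Agent.Y902.GN

section

variable {Y : ℕ → ℕ} {N e : ℕ} {Om : ℕ → Finset (Fin N → ℤ)} {th : ℕ → (Fin N → ℤ) → Qb}

theorem notMem_int' (hb : Big Y Om) (P : MvPolynomial (Option (Fin N)) ℤ)
    (h : ∀ᶠ ν in (Uf : Filter ℕ), ∀ t ∈ Om ν, aeval (pq t (th ν t)) P ≠ 0) :
    MvPolynomial.map (Int.castRingHom (OO Y)) P ∉ JT Y Om th := by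
  rw [mem_JT (Re_int P)]
  intro h1
  obtain ⟨ν, h2, h3, t, ht⟩ := (h1.and (h.and hb.nonempty)).exists
  exact h3 t ht (h2 t ht)

/-- the transcendence degree is positive -/
theorem FF_pos (hY : ∀ m : ℕ, ∀ᶠ ν in (Uf : Filter ℕ), m ≤ Y ν) (hG : Gen Y Om) (F : FF Y Om)
    (hb : Bd Y Om) : 0 < F.d := by
  classical
  rcases Nat.eq_zero_or_pos F.d with hF0 | hFpos
  swap
  · exact hFpos
  exfalso
  have hprime := hG.isPrime hY
  obtain ⟨D, hD⟩ := relation hY hG F hb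
  have hemp : IsEmpty (Fin F.d) := by rw [hF0]; infer_instance
  have hR : ∀ j : Fin N, ∀ᶠ ν in (Uf : Filter ℕ), ∃ R : Finset ℚ, R.card ≤ D ∧
      ∀ t ∈ Om ν, (eval t (X j : MvPolynomial (Fin N) ℤ) : ℚ) /
        (eval t (1 : MvPolynomial (Fin N) ℤ) : ℚ) ∈ R := by
    intro j
    obtain ⟨c, hc0, hc⟩ := hD (X j) 1 (by
      intro h
      exact hprime.ne_top ((Ideal.eq_top_iff_one _).2 h)) (by
      filter_upwards [hb, hY 1, (Re.sq (X j : MvPolynomial (Fin N) (OO Y))).eq (Re.X j),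
        (Re.sq (1 : MvPolynomial (Fin N) (OO Y))).eq Re.one] with ν h1 h2 h3 h4 t ht
      refine ⟨t j, 1, isCoprime_one_right, h1 t ht j, ?_, ?_⟩
      · rw [abs_one]
        exact_mod_cast h2
      · rw [h3, h4, eval_X, map_one]
        ring)
    let c' : Fin (D + 1) → OO Y := fun i => c (fun b => hemp.elim b, i)
    have hmem : he ((pc c').map C) D ![(X j : MvPolynomial (Fin N) (OO Y)), 1] ∈
        JI Y Om := by
      have e1 := he_pc (fun _ : Fin 2 => fun i => (C (c' i) : MvPolynomial (Fin N) (OO Y)))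
        ![(X j : MvPolynomial (Fin N) (OO Y)), 1] 0
      rw [pc_map, e1]
      convert hc using 1
      rw [Fintype.sum_prod_type]
      have huq : Unique (Fin F.d → Fin (D + 1)) := Pi.uniqueOfIsEmpty _
      rw [Fintype.sum_unique]
      unfold ac
      refine Finset.sum_congr rfl fun i _ => ?_
      have e2 : ∀ q : Fin F.d → Fin (D + 1), c (q, i) = c' i := fun q => by
        show c (q, i) = c (fun b => hemp.elim b, i)
        congr 2
        exact Subsingleton.elim _ _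
      rw [e2]
      simp only [Matrix.cons_val_zero, Matrix.cons_val_one, one_pow, mul_one,
        Finset.univ_eq_empty, Finset.prod_empty, one_mul]
    have hc'0 : pc c' ≠ 0 := by
      obtain ⟨⟨e1, i⟩, hei⟩ := Function.ne_iff.1 hc0
      intro h0
      have h1 := pc_coeff c' (i : ℕ)
      rw [h0, Polynomial.coeff_zero, dif_pos i.2] at h1
      apply hei
      have e3 : e1 = fun b => hemp.elim b := Subsingleton.elim _ _
      rw [e3]
      exact h1.symm
    have hfv := few_vals hc'0 (pc_natDegree c') hmem (Re.X j) Re.one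
    filter_upwards [hfv] with ν h1
    obtain ⟨R, hR1, hR2⟩ := h1
    exact ⟨R, hR1, fun t ht => hR2 t ht (by rw [map_one]; exact one_ne_zero)⟩
  obtain ⟨ν, t, -, t', -, hne, hall⟩ := (two_points hY hG.1 _ _ D hR).exists
  apply hne
  funext j
  have h1 := hall j
  simp only [eval_X, map_one, Int.cast_one, div_one] at h1
  exact_mod_cast h1

/-- coordinates of small height -/
def Co (Y : ℕ) {e : ℕ} (θ : Qb) (w : Fin 2 → Qb) : Prop :=
  w 1 ≠ 0 → ∃ (q : ℤ) (a : Fin (e + 1) → ℤ), q ≠ 0 ∧ |q| ≤ (Y : ℤ) ∧ (∀ l, |a l| ≤ (Y : ℤ)) ∧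
    (q : Qb) * w 0 = w 1 * ∑ l, ((a l : ℤ) : Qb) * θ ^ (l : ℕ)

theorem lt_of_co (hY : ∀ m : ℕ, ∀ᶠ ν in (Uf : Filter ℕ), m ≤ Y ν) {μ : Fin (e + 1) → Fin N}
    (hT : TH Om th μ) (w : Fin 2 → MvPolynomial (Option (Fin N)) ℤ)
    (hw : ∀ᶠ ν in (Uf : Filter ℕ), ∀ t ∈ Om ν, (fun i => aeval (pq t (th ν t)) (w i)) ≠ 0 ∧
      Co (Y ν) (e := e) (th ν t) (fun i => aeval (pq t (th ν t)) (w i)))
    {V : MvPolynomial (Fin N) (OO Y)} {U : Fin (e + 1) → MvPolynomial (Fin N) (OO Y)}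
    (hVU : rename some V * MvPolynomial.map (Int.castRingHom (OO Y)) (w 0) -
      MvPolynomial.map (Int.castRingHom (OO Y)) (w 1) * lp U ∈ JT Y Om th) (l : Fin (e + 1)) :
    LT Y Om (U l) V := by
  rw [mem_JT ((((Re.sq V).rename some).mul (Re_int (w 0))).sub
    ((Re_int (w 1)).mul (Re_lp fun l => Re.sq (U l))))] at hVU
  filter_upwards [hVU, hw, hT.lin, hY 1] with ν h1 h2 h3 h4 t ht
  have k1 := h1 t ht
  obtain ⟨k2, k3⟩ := h2 t ht
  rw [map_sub, map_mul, map_mul, aeval_ren, aeval_lp] at k1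
  by_cases hV : eval t (sq V ν) = 0
  · refine ⟨1, 0, isCoprime_one_left, by rw [abs_one]; exact_mod_cast h4,
      by rw [abs_zero]; positivity, ?_⟩
    rw [hV]
    ring
  · have hV' : ((eval t (sq V ν) : ℤ) : Qb) ≠ 0 := by exact_mod_cast hV
    have hw1 : aeval (pq t (th ν t)) (w 1) ≠ 0 := by
      intro h0
      apply k2
      rw [h0, zero_mul, sub_zero] at k1
      have h5 := (mul_eq_zero.1 k1).resolve_left hV'
      funext i
      fin_cases i
      · exact h5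
      · exact h0
    obtain ⟨q, a, hq, hqY, haY, hqa⟩ := k3 hw1
    -- comparison of the coordinates
    have h5 : ∑ l, ((q * eval t (sq (U l) ν) - eval t (sq V ν) * a l : ℤ) : Qb) *
        (th ν t) ^ (l : ℕ) = 0 := by
      have h6 : aeval (pq t (th ν t)) (w 1) *
          ∑ l, ((q * eval t (sq (U l) ν) - eval t (sq V ν) * a l : ℤ) : Qb) *
          (th ν t) ^ (l : ℕ) = 0 := by
        have e1 : ∑ l, ((q * eval t (sq (U l) ν) - eval t (sq V ν) * a l : ℤ) : Qb) *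
            (th ν t) ^ (l : ℕ) = (q : Qb) * ∑ l, ((eval t (sq (U l) ν) : ℤ) : Qb) *
            (th ν t) ^ (l : ℕ) - ((eval t (sq V ν) : ℤ) : Qb) *
            ∑ l, ((a l : ℤ) : Qb) * (th ν t) ^ (l : ℕ) := by
          rw [Finset.mul_sum, Finset.mul_sum, ← Finset.sum_sub_distrib]
          refine Finset.sum_congr rfl fun l _ => ?_
          push_cast
          ring
        rw [e1]
        linear_combination (-(q : Qb)) * k1 + ((eval t (sq V ν) : ℤ) : Qb) * hqa
      exact (mul_eq_zero.1 h6).resolve_left hw1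
    have h6 : q * eval t (sq (U l) ν) = eval t (sq V ν) * a l := by
      have := congrFun (h3 t ht _ h5) l
      simp only [Pi.zero_apply] at this
      omega
    -- lowest terms
    have hg : Int.gcd (a l) q ≠ 0 := by
      intro h
      rw [Int.gcd_eq_zero_iff] at h
      exact hq h.2
    obtain ⟨g, hgd⟩ : ∃ g : ℤ, g = (Int.gcd (a l) q : ℤ) := ⟨_, rfl⟩
    have hg0 : g ≠ 0 := by rw [hgd]; exact_mod_cast hg
    have hg1 : 1 ≤ |g| := Int.one_le_abs hg0
    obtain ⟨a', ha'⟩ : g ∣ a l := by rw [hgd]; exact Int.gcd_dvd_left ..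
    obtain ⟨b', hb'⟩ : g ∣ q := by rw [hgd]; exact Int.gcd_dvd_right ..
    have hco : IsCoprime a' b' := by
      rw [Int.isCoprime_iff_gcd_eq_one]
      have h1 : Int.gcd (a l) q = g.natAbs * Int.gcd a' b' := by
        rw [ha', hb', Int.gcd_mul_left]
      have h2 : g.natAbs = Int.gcd (a l) q := by rw [hgd, Int.natAbs_natCast]
      rw [h2] at h1
      exact Nat.eq_of_mul_eq_mul_left (Nat.pos_of_ne_zero hg) (by omega)
    refine ⟨a', b', hco, ?_, ?_, ?_⟩
    · refine le_trans ?_ (haY l)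
      rw [ha', abs_mul]
      exact le_mul_of_one_le_left (abs_nonneg _) hg1
    · refine le_trans ?_ hqY
      rw [hb', abs_mul]
      exact le_mul_of_one_le_left (abs_nonneg _) hg1
    · refine mul_left_cancel₀ hg0 ?_
      rw [ha', hb'] at h6
      linear_combination -h6

/-- **Few values.** -/
theorem few_vals' {P Q : MvPolynomial (Option (Fin N)) ℤ} {p : Polynomial (OO Y)} (hp : p ≠ 0)
    {m : ℕ} (hm : p.natDegree ≤ m) (h : he (p.map C) m
      ![MvPolynomial.map (Int.castRingHom (OO Y)) P, MvPolynomial.map (Int.castRingHom (OO Y)) Q] ∈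
      JT Y Om th) :
    ∀ᶠ ν in (Uf : Filter ℕ), ∃ R : Finset Qb, R.card ≤ m ∧ ∀ t ∈ Om ν,
      aeval (pq t (th ν t)) Q ≠ 0 →
      aeval (pq t (th ν t)) P / aeval (pq t (th ν t)) Q ∈ R := by
  classical
  choose f hf using fun i => rep_exists (p.coeff i)
  have hre : Re (he (p.map C) m ![MvPolynomial.map (Int.castRingHom (OO Y)) P,
      MvPolynomial.map (Int.castRingHom (OO Y)) Q]) (fun ν => ∑ i ∈ Finset.range (m + 1),
      C (f i ν) * P ^ i * Q ^ (m - i)) := by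
    unfold he
    refine Re.sum _ fun i _ => ?_
    rw [Polynomial.coeff_map]
    exact ((Re.C (hf i)).mul (Re_pow (Re_int P) i)).mul (Re_pow (Re_int Q) (m - i))
  rw [mem_JT hre] at h
  have hne : ∀ᶠ ν in (Uf : Filter ℕ), f p.natDegree ν ≠ 0 := by
    refine ev_ne_zero (c := p.coeff p.natDegree) ?_ (hf _)
    exact Polynomial.leadingCoeff_ne_zero.2 hp
  filter_upwards [h, hne] with ν h1 h2
  let q : Polynomial Qb := ∑ i ∈ Finset.range (m + 1), Polynomial.C (f i ν : Qb) * Polynomial.X ^ i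
  have hqc : ∀ j, q.coeff j = if j < m + 1 then (f j ν : Qb) else 0 := by
    intro j
    show (∑ i ∈ Finset.range (m + 1), Polynomial.C (f i ν : Qb) * Polynomial.X ^ i).coeff j = _
    rw [Polynomial.finsetSum_coeff]
    simp only [Polynomial.coeff_C_mul, Polynomial.coeff_X_pow, mul_ite, mul_one, mul_zero]
    rw [Finset.sum_ite_eq]
    simp
  have hqdeg : q.natDegree ≤ m := by
    refine Polynomial.natDegree_sum_le_of_forall_le _ _ fun i hi => ?_
    rw [Finset.mem_range] at hi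
    exact (Polynomial.natDegree_C_mul_X_pow_le _ _).trans (by omega)
  have hq0 : q ≠ 0 := by
    intro h0
    have h3 := hqc p.natDegree
    rw [h0, Polynomial.coeff_zero, if_pos (by omega)] at h3
    exact h2 (by exact_mod_cast h3.symm)
  refine ⟨q.roots.toFinset, ?_, fun t ht hQt => ?_⟩
  · exact (Multiset.toFinset_card_le _).trans ((Polynomial.card_roots' _).trans hqdeg)
  · rw [Multiset.mem_toFinset, Polynomial.mem_roots hq0, Polynomial.IsRoot.def]
    have h3 := h1 t ht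
    rw [map_sum] at h3
    simp only [map_mul, map_pow] at h3
    have h4 : q.eval (aeval (pq t (th ν t)) P / aeval (pq t (th ν t)) Q) *
        (aeval (pq t (th ν t)) Q) ^ m = 0 := by
      rw [← h3]
      show (∑ i ∈ Finset.range (m + 1), Polynomial.C (f i ν : Qb) * Polynomial.X ^ i).eval _ * _ = _
      rw [Polynomial.eval_finsetSum, Finset.sum_mul]
      refine Finset.sum_congr rfl fun i hi => ?_
      rw [Finset.mem_range] at hi
      rw [Polynomial.eval_mul, Polynomial.eval_C, Polynomial.eval_pow, Polynomial.eval_X, div_pow]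
      have e1 : (aeval (pq t (th ν t)) Q) ^ m = (aeval (pq t (th ν t)) Q) ^ i *
          (aeval (pq t (th ν t)) Q) ^ (m - i) := by
        rw [← pow_add]
        congr 1
        omega
      have e2 : aeval (pq t (th ν t)) (C (f i ν) : MvPolynomial (Option (Fin N)) ℤ) =
          ((f i ν : ℤ) : Qb) := by
        rw [aeval_C]
        simp
      rw [e1, e2]
      field_simp
    exact (mul_eq_zero.1 h4).resolve_right (pow_ne_zero _ hQt)

/-- **Pigeonhole.** -/
theorem two_points' (hY : ∀ m : ℕ, ∀ᶠ ν in (Uf : Filter ℕ), m ≤ Y ν) (hb : Big Y Om) {ι : Type}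
    [Fintype ι] (f : ι → ℕ → (Fin N → ℤ) → Qb) (m : ℕ)
    (hR : ∀ i, ∀ᶠ ν in (Uf : Filter ℕ), ∃ R : Finset Qb, R.card ≤ m ∧ ∀ t ∈ Om ν,
      f i ν t ∈ R) :
    ∀ᶠ ν in (Uf : Filter ℕ), ∃ t ∈ Om ν, ∃ t' ∈ Om ν, t ≠ t' ∧ ∀ i, f i ν t = f i ν t' := by
  classical
  filter_upwards [Big.card_large hY hb (m ^ Fintype.card ι), Filter.eventually_all.2 hR]
    with ν h1 h2
  choose R hR1 hR2 using h2
  have h3 : (Fintype.piFinset R).card ≤ m ^ Fintype.card ι := by
    rw [Fintype.card_piFinset]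
    calc ∏ i, (R i).card ≤ ∏ _i : ι, m := Finset.prod_le_prod (fun _ _ => Nat.zero_le _)
          fun i _ => hR1 i
      _ = _ := by rw [Finset.prod_const, Finset.card_univ]
  obtain ⟨t, ht, t', ht', hne, he⟩ := Finset.exists_ne_map_eq_of_card_lt_of_maps_to
    (s := Om ν) (t := Fintype.piFinset R)
    (f := fun t i => f i ν t) (lt_of_le_of_lt h3 h1)
    (fun t ht => Fintype.mem_piFinset.2 fun i => hR2 i t ht)
  exact ⟨t, ht, t', ht', hne, fun i => congrFun he i⟩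

/-- **The core theorem over number fields.** -/
theorem core' {d : ℕ} (hd : 2 ≤ d) (hY : ∀ m : ℕ, ∀ᶠ ν in (Uf : Filter ℕ), m ≤ Y ν)
    {Om₀ : ℕ → Finset (Fin N → ℤ)} (hbig : Big Y Om₀) (hb₀ : Bd Y Om₀) {μ : Fin (e + 1) → Fin N}
    (hTH₀ : TH Om₀ th μ) (gc : Fin 2 → Fin (d + 1) → MvPolynomial (Option (Fin N)) ℤ)
    (gz : Fin 2 → MvPolynomial (Option (Fin N)) ℤ)
    (cf : ℕ → (Fin N → ℤ) → Fin 2 → Fin (d + 1) → Qb) (zf : ℕ → (Fin N → ℤ) → Fin 2 → Qb)
    (hcf : ∀ ν t i j, cf ν t i j = aeval (pq t (th ν t)) (gc i j))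
    (hzf : ∀ ν t i, zf ν t i = aeval (pq t (th ν t)) (gz i))
    (hNZ₀ : ∀ᶠ ν in (Uf : Filter ℕ), ∀ t ∈ Om₀ ν, rsZ (cf ν t) ≠ 0)
    (hlong₀ : ∀ L, ∀ᶠ ν in (Uf : Filter ℕ), ∀ t ∈ Om₀ ν, ∀ i j, i < j → j ≤ L →
      wg ((ac (cf ν t))^[i] (zf ν t)) ((ac (cf ν t))^[j] (zf ν t)) ≠ 0)
    (horb₀ : ∀ k, ∀ᶠ ν in (Uf : Filter ℕ), ∀ t ∈ Om₀ ν,
      Co (Y ν) (e := e) (th ν t) ((ac (cf ν t))^[k] (zf ν t))) :
    ∃ s : ℕ, ∀ᶠ ν in (Uf : Filter ℕ), ∃ t ∈ Om₀ ν, ∃ t' ∈ Om₀ ν, t ≠ t' ∧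
      ∀ n, 3 ≤ n → n ≤ 2 * d + 2 →
      wg ((ac (cf ν t))^[n + s] (zf ν t)) ((ac (cf ν t))^[1 + s] (zf ν t)) *
        wg ((ac (cf ν t))^[0 + s] (zf ν t)) ((ac (cf ν t))^[2 + s] (zf ν t)) *
        (wg ((ac (cf ν t'))^[0 + s] (zf ν t')) ((ac (cf ν t'))^[n + s] (zf ν t')) *
          wg ((ac (cf ν t'))^[2 + s] (zf ν t')) ((ac (cf ν t'))^[1 + s] (zf ν t'))) =
      wg ((ac (cf ν t'))^[n + s] (zf ν t')) ((ac (cf ν t'))^[1 + s] (zf ν t')) *
        wg ((ac (cf ν t'))^[0 + s] (zf ν t')) ((ac (cf ν t'))^[2 + s] (zf ν t')) *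
        (wg ((ac (cf ν t))^[0 + s] (zf ν t)) ((ac (cf ν t))^[n + s] (zf ν t)) *
          wg ((ac (cf ν t))^[2 + s] (zf ν t)) ((ac (cf ν t))^[1 + s] (zf ν t))) := by
  classical
  obtain ⟨Om, hsub, hG⟩ := Gen.ex hbig
  obtain ⟨F⟩ := FF.ex Pool.Agent.Y394.GN.t hY hG
  have hT := hTH₀.mono hsub
  have hprime := hT.isPrime hY hG
  have hb : Bd Y Om := by
    filter_upwards [hb₀, hsub] with ν h1 h2 t ht
    exact h1 t (h2 ht)
  have hNZ : ∀ᶠ ν in (Uf : Filter ℕ), ∀ t ∈ Om ν, rsZ (cf ν t) ≠ 0 := by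
    filter_upwards [hNZ₀, hsub] with ν h1 h2 t ht
    exact h1 t (h2 ht)
  have hlong : ∀ L, ∀ᶠ ν in (Uf : Filter ℕ), ∀ t ∈ Om ν, ∀ i j, i < j → j ≤ L →
      wg ((ac (cf ν t))^[i] (zf ν t)) ((ac (cf ν t))^[j] (zf ν t)) ≠ 0 := by
    intro L
    filter_upwards [hlong₀ L, hsub] with ν h1 h2 t ht
    exact h1 t (h2 ht)
  have horb : ∀ k, ∀ᶠ ν in (Uf : Filter ℕ), ∀ t ∈ Om ν,
      Co (Y ν) (e := e) (th ν t) ((ac (cf ν t))^[k] (zf ν t)) := by
    intro k
    filter_upwards [horb₀ k, hsub] with ν h1 h2 t ht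
    exact h1 t (h2 ht)
  obtain ⟨D, hD⟩ := relation hY hG F hb
  -- the generic objects
  let wZ : ℕ → Fin 2 → MvPolynomial (Option (Fin N)) ℤ := fun n => (ac gc)^[n] gz
  have wZ_succ : ∀ n, wZ (n + 1) = ac gc (wZ n) := fun n => Function.iterate_succ_apply' _ _ _
  have haw : ∀ ν t n, (fun i => aeval (pq t (th ν t)) (wZ n i)) =
      (ac (cf ν t))^[n] (zf ν t) := by
    intro ν t n
    have h := ac_iter_map (aeval (pq t (th ν t)) : MvPolynomial (Option (Fin N)) ℤ →ₐ[ℤ] Qb).toRingHom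
      gc gz n
    have e1 : (fun i j => aeval (pq t (th ν t)) (gc i j)) = cf ν t := by
      funext i j
      rw [hcf]
    have e2 : (fun i => aeval (pq t (th ν t)) (gz i)) = zf ν t := by
      funext i
      rw [hzf]
    rw [← e1, ← e2]
    exact h
  have haw' : ∀ ν t n i, aeval (pq t (th ν t)) (wZ n i) = (ac (cf ν t))^[n] (zf ν t) i :=
    fun ν t n i => congrFun (haw ν t n) i
  have hawg : ∀ ν t m n, aeval (pq t (th ν t)) (wg (wZ m) (wZ n)) =
      wg ((ac (cf ν t))^[m] (zf ν t)) ((ac (cf ν t))^[n] (zf ν t)) := by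
    intro ν t m n
    rw [← haw, ← haw]
    exact wg_map (aeval (pq t (th ν t)) : MvPolynomial (Option (Fin N)) ℤ →ₐ[ℤ] Qb).toRingHom _ _
  let φ : MvPolynomial (Option (Fin N)) ℤ →+* MvPolynomial (Option (Fin N)) (OO Y) :=
    MvPolynomial.map (Int.castRingHom (OO Y))
  have hwne : ∀ m n, m ≠ n → φ (wg (wZ m) (wZ n)) ∉ JT Y Om th := by
    intro m n hmn
    refine notMem_int' hG.1 _ ?_
    filter_upwards [hlong (max m n)] with ν h1 t ht
    rw [hawg]
    rcases Nat.lt_or_gt_of_ne hmn with h | h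
    · exact h1 t ht m n h (le_max_right _ _)
    · rw [wg_comm]
      exact neg_ne_zero.2 (h1 t ht n m h (le_max_left _ _))
  obtain ⟨s, hs⟩ : ∃ s, ∀ n, φ (wZ (n + s) 1) ∉ JT Y Om th := by
    by_cases h : ∃ s₀, φ (wZ s₀ 1) ∈ JT Y Om th
    · obtain ⟨s₀, hs₀⟩ := h
      refine ⟨s₀ + 1, fun n hn => ?_⟩
      apply hwne s₀ (n + (s₀ + 1)) (by omega)
      rw [wg_map]
      unfold wg
      exact sub_mem (Ideal.mul_mem_left _ _ hn) (Ideal.mul_mem_right _ _ hs₀)
    · push Not at h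
      exact ⟨0, fun n => h _⟩
  refine ⟨s, ?_⟩
  have hFpos := FF_pos hY hG F hb
  have hgen : ∀ i : Fin (2 * d), ∃ p : Polynomial (OO Y), p ≠ 0 ∧
      he (p.map C) p.natDegree
        ![φ (wg (wZ ((i : ℕ) + 3 + s)) (wZ (1 + s)) * wg (wZ (0 + s)) (wZ (2 + s))),
          φ (wg (wZ (0 + s)) (wZ ((i : ℕ) + 3 + s)) * wg (wZ (2 + s)) (wZ (1 + s)))] ∈
        JT Y Om th := by
    intro i
    have h := gen_alg' (JT Y Om th) hprime (fun c hc h => by
        have h1 : rename some (C c : MvPolynomial (Fin N) (OO Y)) ∈ JT Y Om th := by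
          rw [rename_C]
          exact h
        rw [ren_JT] at h1
        exact C_notMem hG.1 hc h1) hFpos F.ι F.A F.H F.B₀ F.B
      (fun P hP => F.ind P (ren_JT.1 hP)) (ren_JT.2 F.H0) (fun h => F.HT (ren_JT.1 h)) F.B00
      (fun i => ren_JT.2 (F.BX i)) μ hT.mpl_mem hd (fun i j => φ (gc i j))
      (fun n i => φ (wZ (n + s) i))
      (by
        intro n
        have h1 := ac_map φ gc (wZ (n + s))
        rw [← h1]
        funext i
        rw [← wZ_succ]
        congr 2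
        omega)
      (by
        rw [← rsZ_map]
        refine notMem_int' hG.1 _ ?_
        filter_upwards [hNZ] with ν h1 t ht
        have h2 := rsZ_map (aeval (pq t (th ν t)) :
          MvPolynomial (Option (Fin N)) ℤ →ₐ[ℤ] Qb).toRingHom gc
        have e1 : (fun i j => aeval (pq t (th ν t)) (gc i j)) = cf ν t := by
          funext i j
          rw [hcf]
        intro h3
        apply h1 t ht
        rw [← e1]
        exact h2.symm.trans h3)
      (by
        intro m n hmn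
        have h1 := wg_map φ (wZ (m + s)) (wZ (n + s))
        rw [← h1]
        exact hwne _ _ (by omega))
      (fun n => hs n) D
      (by
        intro n
        obtain ⟨V, U, hV, hVU⟩ := exists_coord μ (JT Y Om th) hprime hT.mpl_mem
          (φ (wZ (n + s) 0)) (φ (wZ (n + s) 1)) (hs n)
        refine ⟨V, U, hV, hVU, fun l => ?_⟩
        have hV' : V ∉ JI Y Om := fun h => hV (ren_JT.2 h)
        obtain ⟨c, hc0, hc⟩ := hD (U l) V hV' (lt_of_co hY hT (wZ (n + s)) (by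
          filter_upwards [horb (n + s), hlong (n + s + 1)] with ν h1 h2 t ht
          rw [haw]
          refine ⟨?_, h1 t ht⟩
          intro h0
          apply h2 t ht (n + s) (n + s + 1) (by omega) le_rfl
          rw [h0]
          simp [wg]) hVU l)
        exact ⟨c, hc0, ren_JT.2 hc⟩)
      (a := (i : ℕ) + 3) (b := 1) (c := 0) (e := 2) (by omega) (by omega) (by omega) (by omega)
    obtain ⟨p, hp0, hp⟩ := h
    refine ⟨p, hp0, ?_⟩
    rw [map_mul, map_mul, wg_map φ, wg_map φ, wg_map φ, wg_map φ]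
    exact hp
  choose p hp0 hp using hgen
  obtain ⟨m, hm⟩ : ∃ m, m = ∑ i, (p i).natDegree := ⟨_, rfl⟩
  have hQne : ∀ᶠ ν in (Uf : Filter ℕ), ∀ t ∈ Om ν, ∀ i j, i < j → j ≤ 2 * d + 2 →
      wg ((ac (cf ν t))^[i + s] (zf ν t)) ((ac (cf ν t))^[j + s] (zf ν t)) ≠ 0 := by
    filter_upwards [hlong (2 * d + 2 + s)] with ν h1 t ht i j hij hj
    exact h1 t ht _ _ (by omega) (by omega)
  have hQne' : ∀ᶠ ν in (Uf : Filter ℕ), ∀ t ∈ Om ν, ∀ i : Fin (2 * d),
      aeval (pq t (th ν t)) (wg (wZ (0 + s)) (wZ ((i : ℕ) + 3 + s)) *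
        wg (wZ (2 + s)) (wZ (1 + s))) ≠ 0 := by
    filter_upwards [hQne] with ν h1 t ht i
    rw [map_mul, hawg, hawg]
    refine mul_ne_zero (h1 t ht 0 ((i : ℕ) + 3) (by omega) (by have := i.2; omega)) ?_
    rw [wg_comm]
    exact neg_ne_zero.2 (h1 t ht 1 2 (by omega) (by omega))
  have hR : ∀ i : Fin (2 * d), ∀ᶠ ν in (Uf : Filter ℕ), ∃ R : Finset Qb, R.card ≤ m ∧
      ∀ t ∈ Om ν,
      aeval (pq t (th ν t)) (wg (wZ ((i : ℕ) + 3 + s)) (wZ (1 + s)) *
        wg (wZ (0 + s)) (wZ (2 + s))) /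
      aeval (pq t (th ν t)) (wg (wZ (0 + s)) (wZ ((i : ℕ) + 3 + s)) *
        wg (wZ (2 + s)) (wZ (1 + s))) ∈ R := by
    intro i
    have h1 := few_vals' (hp0 i) le_rfl (hp i)
    filter_upwards [h1, hQne'] with ν h2 h3
    obtain ⟨R, hR1, hR2⟩ := h2
    refine ⟨R, hR1.trans ?_, fun t ht => hR2 t ht (h3 t ht i)⟩
    rw [hm]
    exact Finset.single_le_sum (f := fun i => (p i).natDegree) (fun _ _ => Nat.zero_le _)
      (Finset.mem_univ i)
  filter_upwards [two_points' hY hG.1 (fun (i : Fin (2 * d)) ν t =>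
    aeval (pq t (th ν t)) (wg (wZ ((i : ℕ) + 3 + s)) (wZ (1 + s)) *
        wg (wZ (0 + s)) (wZ (2 + s))) /
      aeval (pq t (th ν t)) (wg (wZ (0 + s)) (wZ ((i : ℕ) + 3 + s)) *
        wg (wZ (2 + s)) (wZ (1 + s)))) m hR, hQne', hsub] with ν h1 h3 h5
  obtain ⟨t, ht, t', ht', hne, hall⟩ := h1
  refine ⟨t, h5 ht, t', h5 ht', hne, fun n hn3 hn => ?_⟩
  have e := hall ⟨n - 3, by omega⟩
  have q1 := h3 t ht ⟨n - 3, by omega⟩
  have q2 := h3 t' ht' ⟨n - 3, by omega⟩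
  simp only [show n - 3 + 3 = n by omega] at e q1 q2
  rw [div_eq_div_iff q1 q2] at e
  simp only [map_mul, hawg] at e
  exact e

end

end Pool.Agent.R323
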