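import Pool.Agent.R323.NF.Cj2

/-!
# The main theorem over number fields
-/

set_option autoImplicit false

namespace Pool.Agent.R323

open Filter MvPolynomial Pool.Agent.Y902.GN Height

/-- the index type of the parameters -/
abbrev Jx (d e : ℕ) : Type :=
  Fin (e + 1) ⊕ ((Fin 2 × Fin (d + 1) × Fin (e + 1)) ⊕ (Fin 2 × Fin (e + 1)))

/-- the number of parameters -/
abbrev Jn (d e : ℕ) : ℕ := Fintype.card (Jx d e)

/-- the numbering -/
noncomputable def je (d e : ℕ) : Jx d e ≃ Fin (Jn d e) := Fintype.equivFin (Jx d e)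

/-- the coefficients of the minimal polynomial -/
noncomputable def jm (d e : ℕ) (l : Fin (e + 1)) : Fin (Jn d e) := je d e (Sum.inl l)

/-- the coefficients of the map -/
noncomputable def jc (d e : ℕ) (i : Fin 2) (j : Fin (d + 1)) (l : Fin (e + 1)) : Fin (Jn d e) :=
  je d e (Sum.inr (Sum.inl (i, j, l)))

/-- the coordinates of the point -/
noncomputable def jz (d e : ℕ) (i : Fin 2) (l : Fin (e + 1)) : Fin (Jn d e) :=
  je d e (Sum.inr (Sum.inr (i, l)))

/-- the generic map -/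
noncomputable def gcp (d e : ℕ) : Fin 2 → Fin (d + 1) → MvPolynomial (Option (Fin (Jn d e))) ℤ :=
  fun i j => lp (fun l => X (jc d e i j l))

/-- the generic point -/
noncomputable def gzp (d e : ℕ) : Fin 2 → MvPolynomial (Option (Fin (Jn d e))) ℤ :=
  fun i => lp (fun l => X (jz d e i l))

/-- the integral data -/
structure Dt (d e Y L : ℕ) (K : IntermediateField ℚ Qb) (F : Fin 2 → Fin (d + 1) → K)
    (t : Fin (Jn d e) → ℤ) (θ : Qb) (s : K) (z : Fin 2 → K) : Prop where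
  sne : s ≠ 0
  bd : ∀ q, |t q| ≤ (Y : ℤ)
  root : θ ^ (e + 1) + ∑ l, ((t (jm d e l) : ℤ) : Qb) * θ ^ (l : ℕ) = 0
  lin : ∀ a : Fin (e + 1) → ℤ, ∑ l, ((a l : ℤ) : Qb) * θ ^ (l : ℕ) = 0 → a = 0
  cf : ∀ i j, aeval (pq t θ) (gcp d e i j) = ((s * F i j : K) : Qb)
  zf : ∀ i, aeval (pq t θ) (gzp d e i) = (z i : Qb)
  rs : rsZ (fun i j => s * F i j) ≠ 0
  long : ∀ i j, i < j → j ≤ L → wg ((ac fun i j => s * F i j)^[i] z)
    ((ac fun i j => s * F i j)^[j] z) ≠ 0
  co : ∀ k, Co Y (e := e) θ (fun i => (((ac fun i j => s * F i j)^[k] z i : K) : Qb))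

/-- the hypotheses for one map -/
def Hyp (d D M X : ℕ) (K : IntermediateField ℚ Qb) [NumberField K]
    (F : Fin 2 → Fin (d + 1) → K) : Prop :=
  Module.finrank ℚ K ≤ D ∧ (∀ v : Fin 2 → Qb, ac (fun i j => (F i j : Qb)) v = 0 → v = 0) ∧
    mulHeight (fun p : Fin 2 × Fin (d + 1) => F p.1 p.2) ≤ X ∧
    ∃ P : Finset (Fin 2 → K), M < P.card ∧
      (∀ z ∈ P, z ≠ 0 ∧ ∃ m n, m < n ∧ wg ((ac F)^[m] z) ((ac F)^[n] z) = 0) ∧
      (∀ z ∈ P, ∀ z' ∈ P, z ≠ z' → wg z z' ≠ 0)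

theorem Dt.ex (d D : ℕ) (hd : 2 ≤ d) : ∃ Y : ℕ → ℕ, PB Y ∧ (∀ X, 1 ≤ X → 1 ≤ Y X) ∧
    ∀ (X : ℕ), 1 ≤ X → ∀ (L : ℕ) (K : IntermediateField ℚ Qb) [NumberField K]
      (F : Fin 2 → Fin (d + 1) → K), Hyp d D ((L + 1) * ((L + 1) * (2 * d ^ L)) + 1) X K F →
    ∃ (e : ℕ), e < D ∧ ∃ (t : Fin (Jn d e) → ℤ) (θ : Qb) (s : K) (z : Fin 2 → K),
      Dt d e (Y X) L K F t θ s z := by
  obtain ⟨Y, hY1, hY2, H⟩ := data d D hd
  refine ⟨Y, hY1, hY2, fun X hX L K _ F hF => ?_⟩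
  obtain ⟨h1, h2, h3, P, h4, h5, h6⟩ := hF
  obtain ⟨e, θ, μ, cc, zz, s, z, he, hs, b1, b2, b3, hr, hl, hc, hz, hrs, hlong, hco⟩ :=
    H X hX L K h1 F h2 h3 P h5 h6 h4
  obtain ⟨t, ht⟩ : ∃ t : Fin (Jn d e) → ℤ, t = fun q => Sum.elim μ
      (Sum.elim (fun k => cc k.1 k.2.1 k.2.2) (fun k => zz k.1 k.2)) ((je d e).symm q) := ⟨_, rfl⟩
  have t1 : ∀ l, t (jm d e l) = μ l := by
    intro l
    rw [ht]
    simp [jm]
  have t2 : ∀ i j l, t (jc d e i j l) = cc i j l := by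
    intro i j l
    rw [ht]
    simp [jc]
  have t3 : ∀ i l, t (jz d e i l) = zz i l := by
    intro i l
    rw [ht]
    simp [jz]
  refine ⟨e, he, t, θ, s, z, hs, ?_, ?_, hl, ?_, ?_, hrs, hlong, hco⟩
  · intro q
    obtain ⟨q', rfl⟩ := (je d e).surjective q
    rcases q' with l | ⟨i, j, l⟩ | ⟨i, l⟩
    · exact (congrArg abs (t1 l)).le.trans (b1 l)
    · exact (congrArg abs (t2 i j l)).le.trans (b2 i j l)
    · exact (congrArg abs (t3 i l)).le.trans (b3 i l)
  · simp only [t1]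
    exact hr
  · intro i j
    unfold gcp
    rw [aeval_lp]
    simp only [eval_X, t2]
    exact hc i j
  · intro i
    unfold gzp
    rw [aeval_lp]
    simp only [eval_X, t3]
    exact hz i

/-- conjugacy over a field -/
def CjL {d : ℕ} (L : IntermediateField ℚ Qb) (c c' : Fin 2 → Fin (d + 1) → Qb) : Prop :=
  ∃ A : Matrix (Fin 2) (Fin 2) Qb, (∀ i j, A i j ∈ L) ∧ A.det ≠ 0 ∧
    ∀ v : Fin 2 → Qb, v ≠ 0 → ∃ s : Qb, s ≠ 0 ∧ ac c' (A.mulVec v) = s • A.mulVec (ac c v)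

/-- conjugacy of the scaled maps -/
theorem CjL.of_scale {d : ℕ} {L : IntermediateField ℚ Qb} {c c' : Fin 2 → Fin (d + 1) → Qb}
    {s s' : Qb} (hs : s ≠ 0) (hs' : s' ≠ 0)
    (h : CjL L (fun i j => s * c i j) (fun i j => s' * c' i j)) : CjL L c c' := by
  obtain ⟨A, h1, h2, h3⟩ := h
  refine ⟨A, h1, h2, fun v hv => ?_⟩
  obtain ⟨u, hu, h4⟩ := h3 v hv
  rw [ac_scale, ac_scale, Matrix.mulVec_smul, smul_smul] at h4
  refine ⟨s'⁻¹ * (u * s), mul_ne_zero (inv_ne_zero hs') (mul_ne_zero hu hs), ?_⟩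
  rw [mul_smul, ← h4, smul_smul, inv_mul_cancel₀ hs', one_smul]

/-- equal maps are conjugate -/
theorem CjL.refl' {d : ℕ} (L : IntermediateField ℚ Qb) {c c' : Fin 2 → Fin (d + 1) → Qb}
    (h : c = c') : CjL L c c' := by
  subst h
  refine ⟨1, fun i j => ?_, by rw [Matrix.det_one]; exact one_ne_zero, fun v _ => ⟨1, one_ne_zero, ?_⟩⟩
  · rw [Matrix.one_apply]
    split_ifs
    · exact one_mem _
    · exact zero_mem _
  · rw [Matrix.one_mulVec, Matrix.one_mulVec, one_smul]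

/-- **The main theorem over number fields.** -/
theorem main' (d D : ℕ) (hd : 2 ≤ d) (ε : ℝ) (hε : 0 < ε) : ∃ (M : ℕ) (C : ℝ), ∀ X : ℕ, 1 ≤ X →
    ∀ (ι : Type) [Fintype ι] (K : ι → IntermediateField ℚ Qb) [∀ a, NumberField (K a)]
      (F : ∀ a, Fin 2 → Fin (d + 1) → K a), (∀ a, Hyp d D M X (K a) (F a)) →
      (∀ a b, a ≠ b → ¬ CjL (K a ⊔ K b) (fun i j => (F a i j : Qb)) (fun i j => (F b i j : Qb))) →
      (Fintype.card ι : ℝ) ≤ C * (X : ℝ) ^ ε := by
  classical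
  by_contra hcon
  push Not at hcon
  obtain ⟨Y0, ⟨C0, A0, hC0, hCA⟩, hY01, HD⟩ := Dt.ex d D hd
  choose X hX1 ι instι K instK F hH hcj hcard using fun ν : ℕ =>
    hcon ((ν + 1) * ((ν + 1) * (2 * d ^ ν)) + 1) (ν : ℝ)
  -- the data
  have hdat : ∀ ν, ∀ a : ι ν, ∃ (e : ℕ), e < D ∧ ∃ (t : Fin (Jn d e) → ℤ) (θ : Qb) (s : K ν a)
      (z : Fin 2 → K ν a), Dt d e (Y0 (X ν)) ν (K ν a) (F ν a) t θ s z :=
    fun ν a => HD (X ν) (hX1 ν) ν (K ν a) (F ν a) (hH ν a)
  choose ef hef hdat using hdat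
  have hpos : ∀ ν, 0 < Fintype.card (ι ν) := by
    intro ν
    have h1 := hcard ν
    have h2 : (0 : ℝ) ≤ (ν : ℝ) * (X ν : ℝ) ^ ε := by positivity
    have h3 : (0 : ℝ) < Fintype.card (ι ν) := lt_of_le_of_lt h2 h1
    exact_mod_cast h3
  -- the degree
  have hpig : ∀ ν : ℕ, ∃ e : Fin D, Fintype.card (ι ν) ≤
      D * (Finset.univ.filter fun a : ι ν => ef ν a = (e : ℕ)).card := by
    intro ν
    by_contra hc
    push Not at hc
    obtain ⟨a₀⟩ := Fintype.card_pos_iff.1 (hpos ν)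
    have hD : 0 < D := by have := hef ν a₀; omega
    have h1 : ∀ e ∈ (Finset.univ : Finset (ι ν)).image (ef ν),
        (Finset.univ.filter fun a : ι ν => ef ν a = e).card ≤ (Fintype.card (ι ν) - 1) / D := by
      intro e he
      obtain ⟨a, -, rfl⟩ := Finset.mem_image.1 he
      have h2 := hc ⟨ef ν a, hef ν a⟩
      rw [Nat.le_div_iff_mul_le hD, mul_comm]
      simp only at h2
      omega
    have h2 := Finset.card_le_mul_card_image _ _ h1
    have h3 : ((Finset.univ : Finset (ι ν)).image (ef ν)).card ≤ D := by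
      have : (Finset.univ : Finset (ι ν)).image (ef ν) ⊆ Finset.range D := by
        intro e he
        obtain ⟨a, -, rfl⟩ := Finset.mem_image.1 he
        exact Finset.mem_range.2 (hef ν a)
      exact (Finset.card_le_card this).trans (by rw [Finset.card_range])
    have h4 : (Fintype.card (ι ν) - 1) / D * D ≤ Fintype.card (ι ν) - 1 := Nat.div_mul_le_self _ _
    have h5 := Nat.mul_le_mul_left ((Fintype.card (ι ν) - 1) / D) h3
    have h6 := hpos ν
    rw [Finset.card_univ] at h2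
    omega
  obtain ⟨⟨e, heD⟩, he⟩ := ev_exists (Filter.Eventually.of_forall (f := (Uf : Filter ℕ)) hpig)
  simp only at he
  -- the parameters
  have hdat' : ∀ ν, ∀ a : ι ν, ∃ (t : Fin (Jn d e) → ℤ) (θ : Qb) (s : K ν a)
      (z : Fin 2 → K ν a), ef ν a = e → Dt d e (Y0 (X ν)) ν (K ν a) (F ν a) t θ s z := by
    intro ν a
    by_cases h : ef ν a = e
    · have h1 := hdat ν a
      rw [h] at h1
      obtain ⟨t, θ, s, z, h2⟩ := h1
      exact ⟨t, θ, s, z, fun _ => h2⟩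
    · exact ⟨0, 0, 0, 0, fun h' => absurd h' h⟩
  choose tt θθ ss zz hdt using hdat'
  let T : (ν : ℕ) → Finset (ι ν) := fun ν => Finset.univ.filter fun a => ef ν a = e
  have hT : ∀ ν a, a ∈ T ν ↔ ef ν a = e := fun ν a => by simp [T]
  let Om : ℕ → Finset (Fin (Jn d e) → ℤ) := fun ν => (T ν).image (tt ν)
  have har : ∀ ν (t : Fin (Jn d e) → ℤ), ∃ a : ι ν, t ∈ Om ν → a ∈ T ν ∧ tt ν a = t := by
    intro ν t
    by_cases h : t ∈ Om ν
    · obtain ⟨a, ha, hat⟩ := Finset.mem_image.1 h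
      exact ⟨a, fun _ => ⟨ha, hat⟩⟩
    · obtain ⟨a₀⟩ := Fintype.card_pos_iff.1 (hpos ν)
      exact ⟨a₀, fun h' => absurd h' h⟩
  choose ar har using har
  let th : ℕ → (Fin (Jn d e) → ℤ) → Qb := fun ν t => θθ ν (ar ν t)
  let Y : ℕ → ℕ := fun ν => C0 * (X ν) ^ (A0 + 1)
  have hY0Y : ∀ ν, Y0 (X ν) ≤ Y ν := by
    intro ν
    refine (hCA (X ν) (hX1 ν)).trans (Nat.mul_le_mul_left _ ?_)
    exact Nat.pow_le_pow_right (hX1 ν) (by omega)
  have hXY : ∀ ν, X ν ≤ Y ν := by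
    intro ν
    calc X ν = 1 * (X ν) ^ 1 := by ring
      _ ≤ C0 * (X ν) ^ (A0 + 1) := Nat.mul_le_mul hC0 (Nat.pow_le_pow_right (hX1 ν) (by omega))
  have hDt : ∀ ν t, t ∈ Om ν → Dt d e (Y0 (X ν)) ν (K ν (ar ν t)) (F ν (ar ν t)) t (th ν t)
      (ss ν (ar ν t)) (zz ν (ar ν t)) := by
    intro ν t ht
    obtain ⟨h1, h2⟩ := har ν t ht
    have h3 := hdt ν (ar ν t) ((hT ν _).1 h1)
    rw [h2] at h3
    exact h3
  -- the number of parameters
  have hfib : ∀ ν, (T ν).card ≤ D * (Om ν).card := by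
    intro ν
    refine Finset.card_le_mul_card_image _ _ fun t _ => ?_
    let g : Polynomial Qb := Polynomial.X ^ (e + 1) + ∑ l : Fin (e + 1),
      Polynomial.C ((t (jm d e l) : ℤ) : Qb) * Polynomial.X ^ (l : ℕ)
    have hg : g.Monic := by
      refine Polynomial.monic_X_pow_add ?_
      refine lt_of_le_of_lt (Polynomial.degree_sum_le _ _) ?_
      rw [Finset.sup_lt_iff (by exact WithBot.bot_lt_coe _)]
      intro l _
      refine lt_of_le_of_lt (Polynomial.degree_C_mul_X_pow_le _ _) ?_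
      exact_mod_cast l.2
    have hgd : g.natDegree ≤ e + 1 := by
      refine (Polynomial.natDegree_add_le _ _).trans (max_le ?_ ?_)
      · exact Polynomial.natDegree_X_pow_le _
      · refine Polynomial.natDegree_sum_le_of_forall_le _ _ fun l _ => ?_
        exact (Polynomial.natDegree_C_mul_X_pow_le _ _).trans (by have := l.2; omega)
    have hinj : Set.InjOn (θθ ν) ((T ν).filter fun a => tt ν a = t : Finset (ι ν)) := by
      intro a ha b hb hab
      rw [Finset.mem_coe, Finset.mem_filter, hT] at ha hb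
      by_contra hne
      apply hcj ν a b hne
      have d1 := hdt ν a ha.1
      have d2 := hdt ν b hb.1
      have hsa : ((ss ν a : K ν a) : Qb) ≠ 0 := by
        intro h
        exact d1.sne (by exact_mod_cast h)
      have hsb : ((ss ν b : K ν b) : Qb) ≠ 0 := by
        intro h
        exact d2.sne (by exact_mod_cast h)
      refine CjL.of_scale hsa hsb (CjL.refl' _ ?_)
      funext i j
      have e1 := d1.cf i j
      have e2 := d2.cf i j
      rw [ha.2] at e1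
      rw [hb.2, ← hab] at e2
      rw [e1] at e2
      push_cast at e2
      exact e2
    calc ((T ν).filter fun a => tt ν a = t).card =
          (((T ν).filter fun a => tt ν a = t).image (θθ ν)).card :=
          (Finset.card_image_of_injOn hinj).symm
      _ ≤ g.roots.toFinset.card := by
          refine Finset.card_le_card fun y hy => ?_
          obtain ⟨a, ha, rfl⟩ := Finset.mem_image.1 hy
          rw [Finset.mem_filter, hT] at ha
          have d1 := (hdt ν a ha.1).root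
          rw [ha.2] at d1
          rw [Multiset.mem_toFinset, Polynomial.mem_roots hg.ne_zero, Polynomial.IsRoot.def,
            ← d1]
          show (Polynomial.X ^ (e + 1) + ∑ l : Fin (e + 1),
            Polynomial.C ((t (jm d e l) : ℤ) : Qb) * Polynomial.X ^ (l : ℕ)).eval _ = _
          rw [Polynomial.eval_add, Polynomial.eval_finsetSum]
          simp only [Polynomial.eval_pow, Polynomial.eval_X, Polynomial.eval_mul,
            Polynomial.eval_C]
      _ ≤ Multiset.card g.roots := Multiset.toFinset_card_le _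
      _ ≤ g.natDegree := Polynomial.card_roots' _
      _ ≤ e + 1 := hgd
      _ ≤ D := heD
  have hnum : ∀ᶠ ν in (Uf : Filter ℕ), Fintype.card (ι ν) ≤ D * (D * (Om ν).card) := by
    filter_upwards [he] with ν h1
    exact h1.trans (Nat.mul_le_mul_left _ (hfib ν))
  have hbox : ∀ ν, (Om ν).card ≤ (2 * Y ν + 1) ^ (Jn d e) := by
    intro ν
    have h1 : Om ν ⊆ Fintype.piFinset fun _ : Fin (Jn d e) =>
        Finset.Icc (-(Y ν : ℤ)) (Y ν : ℤ) := by
      intro t ht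
      rw [Fintype.mem_piFinset]
      intro q
      rw [Finset.mem_Icc]
      refine abs_le.1 (((hDt ν t ht).bd q).trans ?_)
      exact_mod_cast hY0Y ν
    refine (Finset.card_le_card h1).trans (le_of_eq ?_)
    rw [Fintype.card_piFinset]
    simp only [Int.card_Icc, Finset.prod_const, Finset.card_univ, Fintype.card_fin]
    congr 1
    omega
  have hνc : ∀ ν : ℕ, (ν : ℝ) < (Fintype.card (ι ν) : ℝ) := by
    intro ν
    refine lt_of_le_of_lt ?_ (hcard ν)
    have : (1 : ℝ) ≤ (X ν : ℝ) ^ ε := Real.one_le_rpow (by exact_mod_cast hX1 ν) hε.le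
    nlinarith [(Nat.cast_nonneg ν : (0 : ℝ) ≤ (ν : ℝ))]
  have hXbig : ∀ m : ℕ, ∀ᶠ ν in (Uf : Filter ℕ), m ≤ X ν := by
    intro m
    filter_upwards [hnum, ev_ge (D * (D * (2 * (C0 * m ^ (A0 + 1)) + 1) ^ (Jn d e)))] with ν h1 h2
    by_contra hlt
    push Not at hlt
    have h3 : Y ν ≤ C0 * m ^ (A0 + 1) := Nat.mul_le_mul_left _ (Nat.pow_le_pow_left hlt.le _)
    have h4 : (Om ν).card ≤ (2 * (C0 * m ^ (A0 + 1)) + 1) ^ (Jn d e) :=
      (hbox ν).trans (Nat.pow_le_pow_left (by omega) _)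
    have h5 : D * (D * (Om ν).card) ≤ D * (D * (2 * (C0 * m ^ (A0 + 1)) + 1) ^ (Jn d e)) :=
      Nat.mul_le_mul_left _ (Nat.mul_le_mul_left _ h4)
    have h6 : ν < Fintype.card (ι ν) := by exact_mod_cast hνc ν
    omega
  have hY : ∀ m : ℕ, ∀ᶠ ν in (Uf : Filter ℕ), m ≤ Y ν := by
    intro m
    filter_upwards [hXbig m] with ν hν
    exact hν.trans (hXY ν)
  have hDpos : 0 < D := by omega
  have hbig : Big Y Om := by
    refine big_of_card (ε := ε / (A0 + 1)) (by positivity) (hY 2) ?_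
    obtain ⟨m, hm⟩ := exists_nat_gt ((D : ℝ) * D * (C0 : ℝ) ^ (ε / (A0 + 1)))
    filter_upwards [ev_ge m, hnum] with ν hν h1
    have hX0 : (0 : ℝ) ≤ (X ν : ℝ) := Nat.cast_nonneg _
    have e2 : ((Y ν : ℕ) : ℝ) ^ (ε / (A0 + 1)) = (C0 : ℝ) ^ (ε / (A0 + 1)) * (X ν : ℝ) ^ ε := by
      show ((C0 * (X ν) ^ (A0 + 1) : ℕ) : ℝ) ^ (ε / (A0 + 1)) = _
      push_cast
      rw [Real.mul_rpow (by positivity) (by positivity), ← Real.rpow_natCast (X ν : ℝ),
        ← Real.rpow_mul hX0]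
      congr 2
      push_cast
      field_simp
    rw [e2]
    have hDD : (0 : ℝ) < (D : ℝ) * D := by positivity
    have h2 : (Fintype.card (ι ν) : ℝ) ≤ (D : ℝ) * D * (Om ν).card := by
      have : ((Fintype.card (ι ν) : ℕ) : ℝ) ≤ ((D * (D * (Om ν).card) : ℕ) : ℝ) := by
        exact_mod_cast h1
      refine this.trans (le_of_eq ?_)
      push_cast
      ring
    have h3 : (D : ℝ) * D * ((C0 : ℝ) ^ (ε / (A0 + 1)) * (X ν : ℝ) ^ ε) <
        (D : ℝ) * D * (Om ν).card := by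
      refine lt_of_le_of_lt ?_ (lt_of_lt_of_le (hcard ν) h2)
      rw [← mul_assoc]
      refine mul_le_mul_of_nonneg_right ?_ (by positivity)
      have : (m : ℝ) ≤ (ν : ℝ) := by exact_mod_cast hν
      linarith
    exact lt_of_mul_lt_mul_left h3 hDD.le
  have hb : Bd Y Om := by
    refine Filter.Eventually.of_forall fun ν t ht j => ?_
    refine ((hDt ν t ht).bd j).trans ?_
    exact_mod_cast hY0Y ν
  have hTH : TH Om th (jm d e) :=
    ⟨Filter.Eventually.of_forall fun ν t ht => (hDt ν t ht).root,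
      Filter.Eventually.of_forall fun ν t ht => (hDt ν t ht).lin⟩
  -- the maps
  let cf : ℕ → (Fin (Jn d e) → ℤ) → Fin 2 → Fin (d + 1) → Qb :=
    fun ν t i j => aeval (pq t (th ν t)) (gcp d e i j)
  let zf : ℕ → (Fin (Jn d e) → ℤ) → Fin 2 → Qb := fun ν t i => aeval (pq t (th ν t)) (gzp d e i)
  have hcf : ∀ ν t, t ∈ Om ν → cf ν t = fun i j =>
      ((ss ν (ar ν t) * F ν (ar ν t) i j : K ν (ar ν t)) : Qb) := by
    intro ν t ht
    funext i j
    exact (hDt ν t ht).cf i j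
  have hzf : ∀ ν t, t ∈ Om ν → zf ν t = fun i => ((zz ν (ar ν t) i : K ν (ar ν t)) : Qb) := by
    intro ν t ht
    funext i
    exact (hDt ν t ht).zf i
  have hitr : ∀ ν t, t ∈ Om ν → ∀ k, (ac (cf ν t))^[k] (zf ν t) = fun i =>
      (((ac fun i j => ss ν (ar ν t) * F ν (ar ν t) i j)^[k] (zz ν (ar ν t)) i :
        K ν (ar ν t)) : Qb) := by
    intro ν t ht k
    rw [hcf ν t ht, hzf ν t ht]
    exact (ac_iter_map (algebraMap (K ν (ar ν t)) Qb)
      (fun i j => ss ν (ar ν t) * F ν (ar ν t) i j) (zz ν (ar ν t)) k).symm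
  have hwgc : ∀ ν t, t ∈ Om ν → ∀ i j, wg ((ac (cf ν t))^[i] (zf ν t))
      ((ac (cf ν t))^[j] (zf ν t)) =
      ((wg ((ac fun i j => ss ν (ar ν t) * F ν (ar ν t) i j)^[i] (zz ν (ar ν t)))
        ((ac fun i j => ss ν (ar ν t) * F ν (ar ν t) i j)^[j] (zz ν (ar ν t))) :
          K ν (ar ν t)) : Qb) := by
    intro ν t ht i j
    rw [hitr ν t ht, hitr ν t ht]
    exact (wg_map (algebraMap (K ν (ar ν t)) Qb) _ _).symm
  have hlong : ∀ ν t, t ∈ Om ν → ∀ i j, i < j → j ≤ ν →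
      wg ((ac (cf ν t))^[i] (zf ν t)) ((ac (cf ν t))^[j] (zf ν t)) ≠ 0 := by
    intro ν t ht i j hij hj h0
    rw [hwgc ν t ht] at h0
    exact (hDt ν t ht).long i j hij hj (by exact_mod_cast h0)
  obtain ⟨s₀, hs₀⟩ := core' (e := e) (th := th) hd hY hbig hb hTH (gcp d e) (gzp d e) cf zf
    (fun ν t i j => rfl) (fun ν t i => rfl)
    (Filter.Eventually.of_forall fun ν t ht => by
      rw [hcf ν t ht]
      have h1 := rsZ_map (algebraMap (K ν (ar ν t)) Qb)
        (fun i j => ss ν (ar ν t) * F ν (ar ν t) i j)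
      intro h0
      have h2 : algebraMap (K ν (ar ν t)) Qb
          (rsZ fun i j => ss ν (ar ν t) * F ν (ar ν t) i j) = 0 := h1.trans h0
      exact (hDt ν t ht).rs ((map_eq_zero _).1 h2))
    (fun L => by
      filter_upwards [ev_ge L] with ν hν t ht i j hij hj
      exact hlong ν t ht i j hij (by omega))
    (fun k => Filter.Eventually.of_forall fun ν t ht => by
      rw [hitr ν t ht]
      intro hw1
      obtain ⟨q, a, h1, h2, h3, h4⟩ := (hDt ν t ht).co k hw1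
      have h5 : ((Y0 (X ν) : ℕ) : ℤ) ≤ (Y ν : ℤ) := by exact_mod_cast hY0Y ν
      exact ⟨q, a, h1, h2.trans h5, fun l => (h3 l).trans h5, h4⟩)
  obtain ⟨ν, ⟨t, ht, t', ht', hne, hχ⟩, hν⟩ := (hs₀.and (ev_ge (2 * d + 2 + s₀))).exists
  have hab : ar ν t ≠ ar ν t' := by
    intro h
    apply hne
    rw [← (har ν t ht).2, ← (har ν t' ht').2, h]
  have hnz : ∀ t, t ∈ Om ν → ((ss ν (ar ν t) : K ν (ar ν t)) : Qb) ≠ 0 ∧
      ∀ v : Fin 2 → Qb, v ≠ 0 → ac (cf ν t) v ≠ 0 := by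
    intro t ht
    have hs : ((ss ν (ar ν t) : K ν (ar ν t)) : Qb) ≠ 0 := by
      intro h
      exact (hDt ν t ht).sne (by exact_mod_cast h)
    refine ⟨hs, fun v hv h0 => hv ?_⟩
    have h1 := ac_scale ((ss ν (ar ν t) : K ν (ar ν t)) : Qb)
      (fun i j => ((F ν (ar ν t) i j : K ν (ar ν t)) : Qb)) v
    have h2 : cf ν t = fun i j => ((ss ν (ar ν t) : K ν (ar ν t)) : Qb) *
        ((F ν (ar ν t) i j : K ν (ar ν t)) : Qb) := by
      rw [hcf ν t ht]
      funext i j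
      push_cast
      rfl
    rw [h2, h1] at h0
    exact (hH ν (ar ν t)).2.1 v ((smul_eq_zero.1 h0).resolve_left hs)
  obtain ⟨A, hA1, hA2, hA3⟩ := conj_of_cross' (K := Qb) (d := d) (cf ν t) (cf ν t')
    (hnz t ht).2 (hnz t' ht').2
    (fun n => (ac (cf ν t))^[n + s₀] (zf ν t)) (fun n => (ac (cf ν t'))^[n + s₀] (zf ν t'))
    (fun n => by
      show (ac (cf ν t))^[n + 1 + s₀] (zf ν t) = _
      rw [show n + 1 + s₀ = (n + s₀) + 1 by omega, Function.iterate_succ_apply'])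
    (fun n => by
      show (ac (cf ν t'))^[n + 1 + s₀] (zf ν t') = _
      rw [show n + 1 + s₀ = (n + s₀) + 1 by omega, Function.iterate_succ_apply'])
    (fun i j hij hj => hlong ν t ht _ _ (by omega) (by omega))
    (fun i j hij hj => hlong ν t' ht' _ _ (by omega) (by omega))
    (fun n hn3 hn => hχ n hn3 hn)
  apply hcj ν (ar ν t) (ar ν t') hab
  have h2 : ∀ t, t ∈ Om ν → cf ν t = fun i j => ((ss ν (ar ν t) : K ν (ar ν t)) : Qb) *
      ((F ν (ar ν t) i j : K ν (ar ν t)) : Qb) := by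
    intro t ht
    rw [hcf ν t ht]
    funext i j
    push_cast
    rfl
  refine CjL.of_scale (hnz t ht).1 (hnz t' ht').1 ?_
  rw [← h2 t ht, ← h2 t' ht']
  refine ⟨A, ?_, hA1, hA2⟩
  refine hA3 (K ν (ar ν t) ⊔ K ν (ar ν t')).toSubalgebra.toSubring ?_ ?_
  · intro n i
    show (ac (cf ν t))^[n + s₀] (zf ν t) i ∈ _
    rw [hitr ν t ht]
    exact (le_sup_left : K ν (ar ν t) ≤ K ν (ar ν t) ⊔ K ν (ar ν t')) (SetLike.coe_mem _)
  · intro n i
    show (ac (cf ν t'))^[n + s₀] (zf ν t') i ∈ _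
    rw [hitr ν t' ht']
    exact (le_sup_right : K ν (ar ν t') ≤ K ν (ar ν t) ⊔ K ν (ar ν t')) (SetLike.coe_mem _)

end Pool.Agent.R323
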