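import Pool.Agent.R323.NF.J

/-!
# Orbits whose coordinates satisfy relations of bounded degree
-/

set_option autoImplicit false

namespace Pool.Agent.R323

open Pool.Agent.H951R3.PB Pool.Agent.TH450.PC Pool.Agent.TH450.FG Real Finset Filter Topology

universe u v w

section ht

variable {k : Type v} {K : Type u} [Field k] [Field K] [Algebra k K]

/-- the height of a combination -/
theorem ht_comb (Q : PF.{u, v, w} k K) {e : ℕ} (θ : K) (B : ℝ) : ∃ B' : ℝ,
    ∀ ζ : Fin (e + 1) → K, (∀ l, ∃ T : Finset Q.Pl, ∀ S, T ⊆ S →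
      ∑ v ∈ S, Q.wt v * log (max 1 (Q.V v (ζ l))) ≤ B) →
    ∃ T : Finset Q.Pl, ∀ S, T ⊆ S →
      ∑ v ∈ S, Q.wt v * log (max 1 (Q.V v (∑ l, ζ l * θ ^ (l : ℕ)))) ≤ B' := by
  classical
  obtain ⟨Sy, hSy⟩ : ∃ Sy : Finset Q.Pl, ∀ v, v ∉ Sy → log (max 1 (Q.V v θ)) = 0 := by
    by_cases hy : θ = 0
    · exact ⟨∅, fun v _ => by simp [hy]⟩
    · refine ⟨(Q.fin θ hy).toFinset, fun v hv => ?_⟩
      have : Q.V v θ = 1 := by
        by_contra hne
        exact hv (by simpa using hne)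
      simp [this]
  have hl0 : ∀ v (z : K), 0 ≤ log (max 1 (Q.V v z)) := fun v z => log_nonneg (le_max_left _ _)
  refine ⟨(e + 1) * B + e * ∑ v ∈ Sy, Q.wt v * log (max 1 (Q.V v θ)), fun ζ hζ => ?_⟩
  choose T hT using hζ
  refine ⟨Finset.univ.biUnion T ∪ Sy, fun S hS => ?_⟩
  have hloc : ∀ v, log (max 1 (Q.V v (∑ l, ζ l * θ ^ (l : ℕ)))) ≤
      ∑ l, log (max 1 (Q.V v (ζ l))) + e * log (max 1 (Q.V v θ)) := by
    intro v
    have hM1 : (1 : ℝ) ≤ max 1 (Q.V v θ) := le_max_left _ _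
    have hM0 : (0 : ℝ) < max 1 (Q.V v θ) := lt_of_lt_of_le one_pos hM1
    have hz1 : ∀ l, (1 : ℝ) ≤ max 1 (Q.V v (ζ l)) := fun l => le_max_left _ _
    have hP1 : (1 : ℝ) ≤ ∏ l, max 1 (Q.V v (ζ l)) := Finset.one_le_prod fun l _ => hz1 l
    have e1 : ∑ l, log (max 1 (Q.V v (ζ l))) + e * log (max 1 (Q.V v θ)) =
        log ((∏ l, max 1 (Q.V v (ζ l))) * (max 1 (Q.V v θ)) ^ e) := by
      rw [log_mul (by positivity) (by positivity), log_pow,
        log_prod (fun l _ => (lt_of_lt_of_le one_pos (hz1 l)).ne')]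
    rw [e1]
    refine log_le_log (lt_of_lt_of_le one_pos (le_max_left _ _)) (max_le ?_ ?_)
    · exact one_le_mul_of_one_le_of_one_le hP1 (one_le_pow₀ hM1)
    · refine na_sum_le (Q.na v) _ _ (by positivity) fun l _ => ?_
      rw [map_mul, map_pow]
      refine mul_le_mul ?_ ?_ (by positivity) (by positivity)
      · refine (le_max_right 1 _).trans ?_
        have := Finset.prod_le_prod_of_subset_of_one_le (s := {l}) (t := Finset.univ)
          (f := fun l => max 1 (Q.V v (ζ l))) (Finset.subset_univ _)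
          (fun i _ => by positivity) (fun i _ _ => hz1 i)
        rwa [Finset.prod_singleton] at this
      · calc Q.V v θ ^ (l : ℕ) ≤ (max 1 (Q.V v θ)) ^ (l : ℕ) :=
              pow_le_pow_left₀ ((Q.V v).nonneg _) (le_max_right _ _) _
          _ ≤ _ := pow_le_pow_right₀ hM1 (by have := l.2; omega)
  calc ∑ v ∈ S, Q.wt v * log (max 1 (Q.V v (∑ l, ζ l * θ ^ (l : ℕ)))) ≤
        ∑ v ∈ S, Q.wt v * (∑ l, log (max 1 (Q.V v (ζ l))) + e * log (max 1 (Q.V v θ))) :=
        Finset.sum_le_sum fun v _ => mul_le_mul_of_nonneg_left (hloc v) (Q.wt_pos v).le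
    _ = ∑ l, ∑ v ∈ S, Q.wt v * log (max 1 (Q.V v (ζ l))) +
        e * ∑ v ∈ S, Q.wt v * log (max 1 (Q.V v θ)) := by
        rw [Finset.sum_comm, Finset.mul_sum, ← Finset.sum_add_distrib]
        refine Finset.sum_congr rfl fun v _ => ?_
        rw [mul_add, Finset.mul_sum]
        ring
    _ ≤ (e + 1) * B + e * ∑ v ∈ Sy, Q.wt v * log (max 1 (Q.V v θ)) := by
        refine add_le_add ?_ ?_
        · calc _ ≤ ∑ _l : Fin (e + 1), B := Finset.sum_le_sum fun l _ => hT l S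
                ((Finset.subset_biUnion_of_mem T (Finset.mem_univ l)).trans
                  (Finset.subset_union_left.trans hS))
            _ = _ := by
                rw [Finset.sum_const, Finset.card_univ, Fintype.card_fin, nsmul_eq_mul]
                push_cast
                ring
        · refine mul_le_mul_of_nonneg_left (le_of_eq ?_) (Nat.cast_nonneg _)
          symm
          refine Finset.sum_subset (Finset.subset_union_right.trans hS) fun v _ hv => ?_
          rw [hSy v hv, mul_zero]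

end ht

section alg

variable {K₀ : Type v} {K : Type u} [Field K₀] [Field K] [Algebra K₀ K]

/-- **Cross ratios are algebraic.** -/
theorem cross_alg' {N r D e' : ℕ} (x : Fin N → K) (θ : K) (ι : Fin r → Fin N) (hr : 0 < r)
    (hind : AlgebraicIndependent K₀ (fun b => x (ι b)))
    (htop : IntermediateField.adjoin K₀ (insert θ (Set.range x)) = ⊤)
    (halg : ∀ j, IsAlgebraic (IntermediateField.adjoin K₀ (Set.range fun b => x (ι b))) (x j))
    (hθ : IsAlgebraic (IntermediateField.adjoin K₀ (Set.range fun b => x (ι b))) θ)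
    {d : ℕ} (hd : 2 ≤ d) {f : Fin 2 → MvPolynomial (Fin 2) K} (hf : ∀ i, (f i).IsHomogeneous d)
    (h0 : rs f d ≠ 0) (X : ℕ → Fin 2 → K) (hX : ∀ n, X (n + 1) = ev f (X n))
    (hXX : ∀ m n, m ≠ n → wd (X m) (X n) ≠ 0) (hX1 : ∀ n, X n 1 ≠ 0)
    (hrel : ∀ n, ∃ ζ : Fin (e' + 1) → K, X n 0 / X n 1 = ∑ l, ζ l * θ ^ (l : ℕ) ∧
      ∀ l, ∃ c : (Fin r → Fin (D + 1)) × Fin (D + 1) → K₀, c ≠ 0 ∧
      ∑ e, algebraMap K₀ K (c e) * ((∏ b, x (ι b) ^ (e.1 b : ℕ)) * ζ l ^ (e.2 : ℕ)) = 0)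
    {a b c e : ℕ} (h1 : a ≠ b) (h2 : c ≠ e) (h3 : c ≠ a) (h4 : e ≠ b) :
    IsAlgebraic K₀ ((wd (X a) (X b) * wd (X c) (X e)) / (wd (X c) (X a) * wd (X e) (X b))) := by
  classical
  set Bs : Set K := Set.range fun b => x (ι b) with hBs
  have hinj : Function.Injective fun b => x (ι b) := hind.injective
  have hB : AlgebraicIndependent K₀ ((↑) : Bs → K) := hind.coe_range
  have hne : Bs.Nonempty := ⟨_, ⟨⟨0, hr⟩, rfl⟩⟩
  refine Pool.Agent.Z864.UB.alg_of_all hB hne ?_
  rintro _ ⟨b₀, rfl⟩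
  obtain ⟨g1, g2, -⟩ := Pool.Agent.Z864.UB.sub_data (k := K₀) (K := K) (B := Bs)
    (S := insert θ (Set.range x))
    (T := ∅) (b := x (ι b₀)) hB ⟨b₀, rfl⟩ ((Set.finite_range x).insert θ) (by
      rw [eq_top_iff, ← htop]
      exact IntermediateField.adjoin.mono _ _ _ Set.subset_union_right) (by
      rintro z hz
      rw [Pool.Agent.Z864.UB.mem_cl]
      rcases hz with rfl | ⟨j, rfl⟩
      · exact hθ
      · exact halg j) (Set.empty_subset _)
  set kb := IntermediateField.adjoin K₀ ((Bs \ {x (ι b₀)}) ∪ ∅) with hkb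
  obtain ⟨Q⟩ := exists_PF kb K g1 g2
  obtain ⟨B, hB'⟩ := ht_le Q (x (ι b₀)) D
  obtain ⟨B1, hB1⟩ := ht_comb Q (e := e') θ B
  have key : IsAlgebraic kb
      ((wd (X a) (X b) * wd (X c) (X e)) / (wd (X c) (X a) * wd (X e) (X b))) := by
    refine orbit_const' Q hd hf h0 X hX hXX hX1 B1 (fun n => ?_) h1 h2 h3 h4
    obtain ⟨ζ, hζ, hζ'⟩ := hrel n
    rw [hζ]
    refine hB1 ζ fun l => ?_
    obtain ⟨cc, hc0, hc1⟩ := hζ' l
    refine hB' (ζ l) (fun i => ∑ e1 : Fin r → Fin (D + 1),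
      algebraMap K₀ K (cc (e1, i)) * ∏ b, x (ι b) ^ (e1 b : ℕ)) ?_ ?_ ?_
    · obtain ⟨⟨e1, i⟩, hei⟩ := Function.ne_iff.1 hc0
      refine ⟨i, rel_ne (fun b => x (ι b)) hind (fun e1 => cc (e1, i)) ?_⟩
      intro h
      exact hei (congrFun h e1)
    · rw [← hc1, Fintype.sum_prod_type_right]
      refine Finset.sum_congr rfl fun i _ => ?_
      rw [Finset.sum_mul]
      refine Finset.sum_congr rfl fun e1 _ => ?_
      ring
    · intro v i
      have hM1 : (1 : ℝ) ≤ max 1 (Q.V v (x (ι b₀))) := le_max_left _ _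
      refine na_sum_le (Q.na v) _ _ (by positivity) fun e1 _ => ?_
      have ht : ∀ z : kb, Q.V v (algebraMap kb K z) ≤ 1 := by
        intro z
        by_cases hz : z = 0
        · rw [hz]; simp
        · exact (Q.triv v z hz).le
      rw [map_mul, map_prod]
      have j1 : Q.V v (algebraMap K₀ K (cc (e1, i))) ≤ 1 :=
        ht (algebraMap K₀ kb (cc (e1, i)))
      have j2 : ∏ b, Q.V v (x (ι b) ^ (e1 b : ℕ)) ≤ (max 1 (Q.V v (x (ι b₀)))) ^ D := by
        rw [← Finset.mul_prod_erase _ _ (Finset.mem_univ b₀)]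
        have j3 : ∏ b ∈ Finset.univ.erase b₀, Q.V v (x (ι b) ^ (e1 b : ℕ)) ≤ 1 := by
          refine Finset.prod_le_one (fun _ _ => (Q.V v).nonneg _) fun b hb => ?_
          rw [map_pow]
          refine pow_le_one₀ ((Q.V v).nonneg _) ?_
          have hmem : x (ι b) ∈ kb := by
            apply IntermediateField.subset_adjoin
            left
            refine ⟨⟨b, rfl⟩, ?_⟩
            intro h
            exact Finset.ne_of_mem_erase hb (hinj h)
          exact ht ⟨_, hmem⟩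
        have j4 : Q.V v (x (ι b₀) ^ (e1 b₀ : ℕ)) ≤ (max 1 (Q.V v (x (ι b₀)))) ^ D := by
          rw [map_pow]
          calc Q.V v (x (ι b₀)) ^ (e1 b₀ : ℕ) ≤ (max 1 (Q.V v (x (ι b₀)))) ^ (e1 b₀ : ℕ) :=
                pow_le_pow_left₀ ((Q.V v).nonneg _) (le_max_right _ _) _
            _ ≤ _ := pow_le_pow_right₀ hM1 (by have := (e1 b₀).2; omega)
        calc _ ≤ (max 1 (Q.V v (x (ι b₀)))) ^ D * 1 :=
              mul_le_mul j4 j3 (Finset.prod_nonneg fun _ _ => (Q.V v).nonneg _) (by positivity)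
          _ = _ := mul_one _
      calc _ ≤ 1 * (max 1 (Q.V v (x (ι b₀)))) ^ D :=
            mul_le_mul j1 j2 (Finset.prod_nonneg fun _ _ => (Q.V v).nonneg _) zero_le_one
        _ = _ := one_mul _
  have h5 := Pool.Agent.Z864.UB.mem_cl.2 key
  rwa [Set.union_empty] at h5

end alg

end Pool.Agent.R323
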