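import Pool.Agent.R323.NF.D

/-!
# Conjugacy from cross ratios: the field of definition
-/

set_option autoImplicit false

namespace Pool.Agent.R323

open Polynomial

section

variable {K : Type*} [Field K] {d : ℕ}

/-- **Conjugacy from cross ratios.** -/
theorem conj_of_cross' (c c' : Fin 2 → Fin (d + 1) → K) (hc : ∀ v, v ≠ 0 → ac c v ≠ 0)
    (hc' : ∀ v, v ≠ 0 → ac c' v ≠ 0) (x x' : ℕ → Fin 2 → K) (hx : ∀ n, x (n + 1) = ac c (x n))
    (hx' : ∀ n, x' (n + 1) = ac c' (x' n))
    (hxx : ∀ i j, i < j → j ≤ 2 * d + 2 → wg (x i) (x j) ≠ 0)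
    (hxx' : ∀ i j, i < j → j ≤ 2 * d + 2 → wg (x' i) (x' j) ≠ 0)
    (hχ : ∀ n, 3 ≤ n → n ≤ 2 * d + 2 →
      wg (x n) (x 1) * wg (x 0) (x 2) * (wg (x' 0) (x' n) * wg (x' 2) (x' 1)) =
      wg (x' n) (x' 1) * wg (x' 0) (x' 2) * (wg (x 0) (x n) * wg (x 2) (x 1))) :
    ∃ A : Matrix (Fin 2) (Fin 2) K, A.det ≠ 0 ∧
      (∀ v, v ≠ 0 → ∃ s : K, s ≠ 0 ∧ ac c' (A.mulVec v) = s • A.mulVec (ac c v)) ∧
      ∀ S : Subring K, (∀ n i, x n i ∈ S) → (∀ n i, x' n i ∈ S) → ∀ i j, A i j ∈ S := by
  have h01 := hxx 0 1 (by omega) (by omega)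
  have h02 := hxx 0 2 (by omega) (by omega)
  have h12 := hxx 1 2 (by omega) (by omega)
  have h21 : wg (x 2) (x 1) ≠ 0 := by
    rw [wg_comm]
    exact neg_ne_zero.2 h12
  have h01' := hxx' 0 1 (by omega) (by omega)
  have h02' := hxx' 0 2 (by omega) (by omega)
  have h12' := hxx' 1 2 (by omega) (by omega)
  have h21' : wg (x' 2) (x' 1) ≠ 0 := by
    rw [wg_comm]
    exact neg_ne_zero.2 h12'
  set a := wg (x 2) (x 1) • x 0 with ha
  set b := wg (x 0) (x 2) • x 1 with hb
  set a' := wg (x' 2) (x' 1) • x' 0 with ha'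
  set b' := wg (x' 0) (x' 2) • x' 1 with hb'
  set A : Matrix (Fin 2) (Fin 2) K := Matrix.of ![![b 1 * a' 0 - a 1 * b' 0, a 0 * b' 0 - b 0 * a' 0],
    ![b 1 * a' 1 - a 1 * b' 1, a 0 * b' 1 - b 0 * a' 1]] with hA
  have hAv : ∀ v, A.mulVec v = wg v b • a' + wg a v • b' := by
    intro v
    funext i
    rw [mulVec_two]
    fin_cases i
    · simp only [hA, Matrix.of_apply, Fin.zero_eta, Matrix.cons_val_zero, Matrix.cons_val_one,
        Pi.add_apply, Pi.smul_apply, smul_eq_mul, wg]
      ring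
    · simp only [hA, Matrix.of_apply, Fin.mk_one, Matrix.cons_val_zero, Matrix.cons_val_one,
        Pi.add_apply, Pi.smul_apply, smul_eq_mul, wg]
      ring
  have hWab : wg a b ≠ 0 := by
    rw [ha, hb, wg_smul]
    exact mul_ne_zero (mul_ne_zero h21 h02) h01
  have hWab' : wg a' b' ≠ 0 := by
    rw [ha', hb', wg_smul]
    exact mul_ne_zero (mul_ne_zero h21' h02') h01'
  have hdet : A.det = wg a b * wg a' b' := by
    rw [Matrix.det_fin_two]
    simp only [hA, Matrix.of_apply, Matrix.cons_val_zero, Matrix.cons_val_one, wg]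
    ring
  have hdet0 : A.det ≠ 0 := by
    rw [hdet]
    exact mul_ne_zero hWab hWab'
  have hA0 : ∀ v, v ≠ 0 → A.mulVec v ≠ 0 := by
    intro v hv h
    apply hv
    exact Matrix.eq_zero_of_mulVec_eq_zero hdet0 h
  -- the images of the points
  have hpar : ∀ n, n ≤ 2 * d + 2 → wg (x' n) (A.mulVec (x n)) = 0 := by
    intro n hn
    have e1 : wg (x' n) (A.mulVec (x n)) =
        -(wg (x n) b * wg a' (x' n) - wg a (x n) * wg (x' n) b') := by
      rw [hAv]
      simp only [wg, Pi.add_apply, Pi.smul_apply, smul_eq_mul]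
      ring
    have e2 : wg (x n) b = wg (x 0) (x 2) * wg (x n) (x 1) := by
      rw [hb]
      simp only [wg, Pi.smul_apply, smul_eq_mul]
      ring
    have e3 : wg a (x n) = wg (x 2) (x 1) * wg (x 0) (x n) := by
      rw [ha]
      simp only [wg, Pi.smul_apply, smul_eq_mul]
      ring
    have e4 : wg (x' n) b' = wg (x' 0) (x' 2) * wg (x' n) (x' 1) := by
      rw [hb']
      simp only [wg, Pi.smul_apply, smul_eq_mul]
      ring
    have e5 : wg a' (x' n) = wg (x' 2) (x' 1) * wg (x' 0) (x' n) := by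
      rw [ha']
      simp only [wg, Pi.smul_apply, smul_eq_mul]
      ring
    rw [e1, e2, e3, e4, e5, neg_eq_zero]
    rcases Nat.lt_or_ge n 3 with h | h
    · interval_cases n
      · rw [wg_self, wg_self]
        ring
      · rw [wg_self, wg_self]
        ring
      · ring
    · have := hχ n h hn
      linear_combination this
  have hxne : ∀ n, n ≤ 2 * d + 1 → x n ≠ 0 := by
    intro n hn h
    apply hxx n (n + 1) (by omega) (by omega)
    rw [h]
    simp [wg]
  have hxne' : ∀ n, n ≤ 2 * d + 1 → x' n ≠ 0 := by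
    intro n hn h
    apply hxx' n (n + 1) (by omega) (by omega)
    rw [h]
    simp [wg]
  have hxne2 : x' (2 * d + 2) ≠ 0 := by
    intro h
    apply hxx' (2 * d + 1) (2 * d + 2) (by omega) (by omega)
    rw [h]
    simp [wg]
  have hPsi : ∀ i, i < 2 * d + 2 → Psi A c c' (x i) = 0 := by
    intro i hi
    have hn1 : x' i ≠ 0 := hxne' i (by omega)
    have hn2 : x' (i + 1) ≠ 0 := by
      rcases Nat.lt_or_ge (i + 1) (2 * d + 2) with h | h
      · exact hxne' (i + 1) (by omega)
      · rw [show i + 1 = 2 * d + 2 by omega]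
        exact hxne2
    obtain ⟨s, hs⟩ := par_field hn1 (hpar i (by omega))
    obtain ⟨s', hs'⟩ := par_field hn2 (hpar (i + 1) (by omega))
    unfold Psi
    rw [hs, ac_smul, ← hx', ← hx, hs', wg_smul, wg_self, mul_zero]
  have hPsi0 : ∀ v, v ≠ 0 → Psi A c c' v = 0 := by
    intro v hv
    by_cases h1 : v 1 = 0
    · have h0 : v 0 ≠ 0 := by
        intro h0
        apply hv
        funext i
        fin_cases i
        · exact h0
        · exact h1
      refine chart A c c' ![1, X] ?_ (fun v => v 0) (fun v => v 1 / v 0) ?_ ?_ x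
        (fun i j hij hj => hxx i j hij (by omega)) hPsi v h0
      · intro i
        fin_cases i <;> simp
      · intro v hv
        funext i
        fin_cases i
        · simp
        · simp [mul_div_cancel₀, hv]
      · intro v v' h h'
        simp [wg, h, h']
    · refine chart A c c' ![X, 1] ?_ (fun v => v 1) (fun v => v 0 / v 1) ?_ ?_ x
        (fun i j hij hj => hxx i j hij (by omega)) hPsi v h1
      · intro i
        fin_cases i <;> simp
      · intro v hv
        funext i
        fin_cases i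
        · simp [mul_div_cancel₀, hv]
        · simp
      · intro v v' h h'
        simp [wg, h, h']
  refine ⟨A, hdet0, fun v hv => ?_, fun S hS hS' i j => ?_⟩
  swap
  · have k1 : ∀ i, a i ∈ S := fun i => by
      rw [ha]
      exact mul_mem (sub_mem (mul_mem (hS _ _) (hS _ _)) (mul_mem (hS _ _) (hS _ _))) (hS _ _)
    have k2 : ∀ i, b i ∈ S := fun i => by
      rw [hb]
      exact mul_mem (sub_mem (mul_mem (hS _ _) (hS _ _)) (mul_mem (hS _ _) (hS _ _))) (hS _ _)
    have k1' : ∀ i, a' i ∈ S := fun i => by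
      rw [ha']
      exact mul_mem (sub_mem (mul_mem (hS' _ _) (hS' _ _)) (mul_mem (hS' _ _) (hS' _ _)))
        (hS' _ _)
    have k2' : ∀ i, b' i ∈ S := fun i => by
      rw [hb']
      exact mul_mem (sub_mem (mul_mem (hS' _ _) (hS' _ _)) (mul_mem (hS' _ _) (hS' _ _)))
        (hS' _ _)
    rw [hA]
    fin_cases i <;> fin_cases j
    · exact sub_mem (mul_mem (k2 _) (k1' _)) (mul_mem (k1 _) (k2' _))
    · exact sub_mem (mul_mem (k1 _) (k2' _)) (mul_mem (k2 _) (k1' _))
    · exact sub_mem (mul_mem (k2 _) (k1' _)) (mul_mem (k1 _) (k2' _))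
    · exact sub_mem (mul_mem (k1 _) (k2' _)) (mul_mem (k2 _) (k1' _))
  have h1 := hPsi0 v hv
  unfold Psi at h1
  rw [wg_comm, neg_eq_zero] at h1
  obtain ⟨s, hs⟩ := par_field (hA0 _ (hc v hv)) h1
  refine ⟨s, ?_, hs⟩
  rintro rfl
  rw [zero_smul] at hs
  exact hc' _ (hA0 v hv) hs

end

end Pool.Agent.R323
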