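import Pool.Agent.R323.NF.T

/-!
# Integral data of a rational map with many preperiodic points
-/

set_option autoImplicit false

namespace Pool.Agent.R323

open IntermediateField Height

section scale

variable (K : IntermediateField ℚ Qb) [NumberField K]

theorem int_coe {x : K} : IsIntegral ℤ (x : Qb) ↔ IsIntegral ℤ x := by
  have h : IsIntegral ℤ (algebraMap K Qb x) ↔ IsIntegral ℤ x :=
    isIntegral_algebraMap_iff (algebraMap K Qb).injective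
  exact h

/-- scaling of the coefficients -/
theorem norm1 {d X : ℕ} {F : Fin 2 → Fin (d + 1) → K} (hF : ∃ i j, F i j ≠ 0)
    (hX : mulHeight (fun p : Fin 2 × Fin (d + 1) => F p.1 p.2) ≤ X) :
    ∃ s : K, s ≠ 0 ∧ ∀ i j, Ib (X ^ (2 * (d + 1) + 1)) ((s * F i j : K) : Qb) := by
  classical
  obtain ⟨i₀, j₀, h0⟩ := hF
  have hht : ∀ p : Fin 2 × Fin (d + 1), mulHeight₁ (F p.1 p.2 / F i₀ j₀) ≤ X := by
    intro p
    rw [mulHeight₁_div_eq_mulHeight]
    refine le_trans ?_ hX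
    have h1 := mulHeight_comp_le (fun i : Fin 2 => if i = 0 then p else (i₀, j₀))
      (fun p : Fin 2 × Fin (d + 1) => F p.1 p.2)
    refine le_trans (le_of_eq ?_) h1
    congr 1
    funext i
    fin_cases i <;> simp
  choose n hn0 hnX hni hnb using fun p => ht_ib K (hht p)
  obtain ⟨m, hm⟩ : ∃ m : ℕ, m = ∏ p, n p := ⟨_, rfl⟩
  have hm0 : m ≠ 0 := by
    rw [hm]
    exact Finset.prod_ne_zero_iff.2 fun p _ => hn0 p
  have hmX : m ≤ X ^ (2 * (d + 1)) := by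
    rw [hm]
    calc ∏ p, n p ≤ ∏ _p : Fin 2 × Fin (d + 1), X := Finset.prod_le_prod (fun _ _ => Nat.zero_le _)
          fun p _ => hnX p
      _ = _ := by
          rw [Finset.prod_const, Finset.card_univ, Fintype.card_prod, Fintype.card_fin,
            Fintype.card_fin]
  refine ⟨(m : K) / F i₀ j₀, div_ne_zero (by exact_mod_cast hm0) h0, fun i j => ?_⟩
  have e1 : (m : K) / F i₀ j₀ * F i j = (m : K) * (F i j / F i₀ j₀) := by ring
  rw [e1]
  constructor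
  · rw [int_coe]
    have e2 : (m : K) = (∏ p ∈ Finset.univ.erase (i, j), (n p : K)) * (n (i, j) : K) := by
      rw [hm, Nat.cast_prod, Finset.prod_erase_mul _ _ (Finset.mem_univ _)]
    rw [e2, mul_assoc]
    refine IsIntegral.mul (IsIntegral.prod _ fun p _ => ?_) (hni (i, j))
    have : ((n p : ℕ) : K) = algebraMap ℤ K (n p : ℤ) := by simp
    rw [this]
    exact isIntegral_algebraMap
  · intro σ
    have e3 : (((m : K) * (F i j / F i₀ j₀) : K) : Qb) =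
        (m : Qb) * ((F i j / F i₀ j₀ : K) : Qb) := by
      push_cast
      rfl
    rw [e3, map_mul, norm_mul, map_natCast, Complex.norm_natCast, pow_succ]
    push_cast
    have h1 := (hom_le K (F i j / F i₀ j₀) σ).trans (hht (i, j))
    exact mul_le_mul (by exact_mod_cast hmX) h1 (norm_nonneg _) (by positivity)

/-- scaling of the point -/
theorem norm2 {κ : ℕ} (hκ : 1 ≤ κ) {z : Fin 2 → K} (hz : z ≠ 0) (hH : mulHeight z ≤ κ) :
    ∃ s : K, s ≠ 0 ∧ ∀ i, Ib (κ * κ) ((s * z i : K) : Qb) := by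
  have e0 : ![z 0, z 1] = z := by
    funext i
    fin_cases i <;> rfl
  by_cases h1 : z 1 = 0
  · have h0 : z 0 ≠ 0 := by
      intro h
      apply hz
      funext i
      fin_cases i
      · exact h
      · exact h1
    refine ⟨(z 0)⁻¹, inv_ne_zero h0, fun i => ?_⟩
    fin_cases i
    · show Ib _ (((z 0)⁻¹ * z 0 : K) : Qb)
      rw [inv_mul_cancel₀ h0]
      have h2 := (Ib.nat 1).mono (Nat.mul_le_mul hκ hκ)
      rwa [Nat.cast_one] at h2
    · show Ib _ (((z 0)⁻¹ * z 1 : K) : Qb)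
      rw [h1, mul_zero]
      have h2 := (Ib.nat 0).mono (Nat.zero_le (κ * κ))
      rwa [Nat.cast_zero] at h2
  · have hy : mulHeight₁ (z 0 / z 1) ≤ κ := by
      rw [mulHeight₁_div_eq_mulHeight, e0]
      exact hH
    obtain ⟨n, hn0, hn, hni, hnb⟩ := ht_ib K hy
    refine ⟨(n : K) / z 1, div_ne_zero (by exact_mod_cast hn0) h1, fun i => ?_⟩
    fin_cases i
    · show Ib _ (((n : K) / z 1 * z 0 : K) : Qb)
      have e1 : (n : K) / z 1 * z 0 = (n : K) * (z 0 / z 1) := by ring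
      rw [e1]
      have e2 : (((n : K) * (z 0 / z 1) : K) : Qb) = (n : Qb) * ((z 0 / z 1 : K) : Qb) := by
        push_cast
        rfl
      rw [e2]
      exact hnb
    · show Ib _ (((n : K) / z 1 * z 1 : K) : Qb)
      rw [div_mul_cancel₀ _ h1]
      have h2 := (Ib.nat n).mono (hn.trans (Nat.le_mul_of_pos_left κ hκ))
      push_cast
      exact h2

end scale

/-- the iterates stay in the field -/
theorem iter_mem {d : ℕ} (S : IntermediateField ℚ Qb) {c : Fin 2 → Fin (d + 1) → Qb}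
    {z : Fin 2 → Qb} (hc : ∀ i j, c i j ∈ S) (hz : ∀ i, z i ∈ S) (k : ℕ) (i : Fin 2) :
    (ac c)^[k] z i ∈ S := by
  induction k generalizing i with
  | zero => exact hz i
  | succ k ih =>
    rw [Function.iterate_succ_apply']
    exact sum_mem fun j _ => mul_mem (mul_mem (hc i j) (pow_mem (ih 0) _)) (pow_mem (ih 1) _)

/-- **The integral data.** -/
theorem data (d D : ℕ) (hd : 2 ≤ d) : ∃ Y : ℕ → ℕ, PB Y ∧ (∀ X, 1 ≤ X → 1 ≤ Y X) ∧
    ∀ (X : ℕ), 1 ≤ X → ∀ (L : ℕ)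
    (K : IntermediateField ℚ Qb) [NumberField K], Module.finrank ℚ K ≤ D →
    ∀ F : Fin 2 → Fin (d + 1) → K,
    (∀ v : Fin 2 → Qb, ac (fun i j => (F i j : Qb)) v = 0 → v = 0) →
    mulHeight (fun p : Fin 2 × Fin (d + 1) => F p.1 p.2) ≤ X →
    ∀ P : Finset (Fin 2 → K),
    (∀ z ∈ P, z ≠ 0 ∧ ∃ m n, m < n ∧ wg ((ac F)^[m] z) ((ac F)^[n] z) = 0) →
    (∀ z ∈ P, ∀ z' ∈ P, z ≠ z' → wg z z' ≠ 0) →
    (L + 1) * ((L + 1) * (2 * d ^ L)) + 1 < P.card →
    ∃ (e : ℕ) (θ : Qb) (μ : Fin (e + 1) → ℤ) (cc : Fin 2 → Fin (d + 1) → Fin (e + 1) → ℤ)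
      (zz : Fin 2 → Fin (e + 1) → ℤ) (s : K) (z : Fin 2 → K), e < D ∧ s ≠ 0 ∧
      (∀ l, |μ l| ≤ (Y X : ℤ)) ∧ (∀ i j l, |cc i j l| ≤ (Y X : ℤ)) ∧
      (∀ i l, |zz i l| ≤ (Y X : ℤ)) ∧
      θ ^ (e + 1) + ∑ l, ((μ l : ℤ) : Qb) * θ ^ (l : ℕ) = 0 ∧
      (∀ a : Fin (e + 1) → ℤ, ∑ l, ((a l : ℤ) : Qb) * θ ^ (l : ℕ) = 0 → a = 0) ∧
      (∀ i j, ∑ l, ((cc i j l : ℤ) : Qb) * θ ^ (l : ℕ) = ((s * F i j : K) : Qb)) ∧
      (∀ i, ∑ l, ((zz i l : ℤ) : Qb) * θ ^ (l : ℕ) = (z i : Qb)) ∧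
      rsZ (fun i j => s * F i j) ≠ 0 ∧
      (∀ i j, i < j → j ≤ L → wg ((ac fun i j => s * F i j)^[i] z)
        ((ac fun i j => s * F i j)^[j] z) ≠ 0) ∧
      ∀ k, Co (Y X) (e := e) θ (fun i => (((ac fun i j => s * F i j)^[k] z i : K) : Qb)) := by
  classical
  obtain ⟨C1, A1, hC1, Hst⟩ := ht_step d (by omega)
  choose Cc Ac hCc Hcc using coords
  choose Cm Am hCm Hcm using min_coeffs
  obtain ⟨M, hM⟩ : ∃ M, M = Nd d := ⟨_, rfl⟩
  let B1 : ℕ → ℕ := fun X => X ^ (2 * (d + 1) + 1)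
  let κf : ℕ → ℕ := fun X => (C1 * (B1 X) ^ A1) ^ D
  let B2 : ℕ → ℕ := fun X => B1 X * (κf X * κf X)
  let Bθ : ℕ → ℕ := fun X => M * ((D * M) ^ M + 1) * B2 X
  let W : ℕ → ℕ := fun X => ∑ e ∈ Finset.range D, (Cc e * (Bθ X) ^ (Ac e) + Cm e * (Bθ X) ^ (Am e))
  have pB1 : PB B1 := PB.id.pow _
  have pκ : PB κf := ((PB.const C1).mul (pB1.pow A1)).pow D
  have pB2 : PB B2 := pB1.mul (pκ.mul pκ)
  have pBθ : PB Bθ := (PB.const (M * ((D * M) ^ M + 1))).mul pB2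
  have pW : PB W := PB.sum _ fun e _ => ((PB.const (Cc e)).mul (pBθ.pow _)).add
    ((PB.const (Cm e)).mul (pBθ.pow _))
  refine ⟨fun X => (W X + 1) * B2 X, (pW.add (PB.const 1)).mul pB2, ?_, ?_⟩
  · intro X hX
    have a1 : 1 ≤ B1 X := Nat.one_le_pow _ _ hX
    have a2 : 1 ≤ κf X := Nat.one_le_pow _ _ (Nat.mul_pos hC1 (Nat.pow_pos a1))
    have a3 : 1 ≤ B2 X := Nat.mul_pos a1 (Nat.mul_pos a2 a2)
    show 1 ≤ (W X + 1) * B2 X
    exact Nat.mul_pos (Nat.succ_pos _) a3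
  intro X hX L K _ hK F hF hFX P hP1 hP2 hPc
  have b1 : 1 ≤ B1 X := Nat.one_le_pow _ _ hX
  have bκ : 1 ≤ κf X := Nat.one_le_pow _ _ (Nat.mul_pos hC1 (Nat.pow_pos b1))
  have bκκ : 1 ≤ κf X * κf X := Nat.mul_pos bκ bκ
  have b2 : 1 ≤ B2 X := Nat.mul_pos b1 bκκ
  have b12 : B1 X ≤ B2 X := Nat.le_mul_of_pos_right _ bκκ
  have bκ2 : κf X * κf X ≤ B2 X := Nat.le_mul_of_pos_left _ b1
  have bκ1 : κf X ≤ κf X * κf X := Nat.le_mul_of_pos_left _ bκ
  -- scaling of the map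
  have hFne : ∃ i j, F i j ≠ 0 := by
    by_contra hcon
    push Not at hcon
    have h1 := hF (fun _ => 1) (by
      funext i
      simp [ac, hcon])
    exact one_ne_zero (congrFun h1 0)
  obtain ⟨s₁, hs₁, hc₁⟩ := norm1 K hFne hFX
  have hrs : ∀ s : K, s ≠ 0 → rsZ (fun i j => s * F i j) ≠ 0 ∧
      rsZ (rv fun i j => s * F i j) ≠ 0 := by
    intro s hs
    refine rsZ_ne_K (by omega : 1 ≤ d) (algebraMap K Qb) fun v hv => hF v ?_
    have h1 := ac_scale (s : Qb) (fun i j => (F i j : Qb)) v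
    have h2 : (fun i j => algebraMap K Qb (s * F i j)) = fun i j => (s : Qb) * (F i j : Qb) := by
      funext i j
      rw [map_mul]
      rfl
    rw [h2, h1] at hv
    have hs' : (s : Qb) ≠ 0 := by
      intro h
      exact hs (by exact_mod_cast h)
    exact (smul_eq_zero.1 hv).resolve_left hs'
  obtain ⟨c₁, hc₁d⟩ : ∃ c₁ : Fin 2 → Fin (d + 1) → K, c₁ = fun i j => s₁ * F i j := ⟨_, rfl⟩
  have hr1 : rsZ c₁ ≠ 0 := by rw [hc₁d]; exact (hrs s₁ hs₁).1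
  have hr1' : rsZ (rv c₁) ≠ 0 := by rw [hc₁d]; exact (hrs s₁ hs₁).2
  have hc₁b : ∀ i j, Ib (B1 X) ((c₁ i j : K) : Qb) := by
    intro i j
    rw [hc₁d]
    exact hc₁ i j
  have hHb : Hb c₁ (κf X) := by
    refine ⟨by exact_mod_cast bκ, hr1, hr1', fun z hz => ?_⟩
    have h1 := Hst K (B1 X : ℝ) (by exact_mod_cast b1) c₁
      (fun i j => (int_coe K).1 (hc₁b i j).1)
      (fun v i j => ib_place K (hc₁b i j) v) hr1 hr1' z hz (ac_ne (by omega) hr1 hr1' hz)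
    refine h1.trans (mul_le_mul_of_nonneg_right ?_ (by positivity))
    have h2 : (1 : ℝ) ≤ C1 * (B1 X : ℝ) ^ A1 := by
      have : 1 ≤ C1 * (B1 X) ^ A1 := Nat.mul_pos hC1 (Nat.pow_pos b1)
      exact_mod_cast this
    have h3 : (C1 * (B1 X : ℝ) ^ A1) ^ Module.finrank ℚ K ≤ (C1 * (B1 X : ℝ) ^ A1) ^ D :=
      pow_le_pow_right₀ h2 hK
    refine h3.trans (le_of_eq ?_)
    show _ = (((C1 * (B1 X) ^ A1) ^ D : ℕ) : ℝ)
    push_cast
    rfl
  -- the point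
  obtain ⟨z₀, hz₀P, hlong⟩ := long' hd L hHb P hP2 hPc
  obtain ⟨hz₀, m₀, n₀, hmn, hpre⟩ := hP1 z₀ hz₀P
  have hpre' : wg ((ac c₁)^[m₀] z₀) ((ac c₁)^[n₀] z₀) = 0 := by
    rw [hc₁d]
    obtain ⟨u, -, hu⟩ := iter_scale hs₁ F z₀ m₀
    obtain ⟨u', -, hu'⟩ := iter_scale hs₁ F z₀ n₀
    rw [hu, hu', wg_smul, hpre, mul_zero]
  have hht := hHb.pre hd hz₀ hmn hpre'
  obtain ⟨s₂, hs₂, hz₂⟩ := norm2 K bκ hz₀ (hht 0)
  -- the primitive element
  let α : Fin M → Qb := fun q => Sum.elim (fun k : Fin 2 × Fin (d + 1) => ((c₁ k.1 k.2 : K) : Qb))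
    (fun i => ((s₂ * z₀ i : K) : Qb)) ((ee d).symm (Fin.cast hM q))
  have hαc : ∀ i j, α (Fin.cast hM.symm (ee d (Sum.inl (i, j)))) = ((c₁ i j : K) : Qb) := by
    intro i j
    simp [α]
  have hαz : ∀ i, α (Fin.cast hM.symm (ee d (Sum.inr i))) = ((s₂ * z₀ i : K) : Qb) := by
    intro i
    simp [α]
  have hαb : ∀ q, Ib (B2 X) (α q) ∧ α q ∈ K := by
    intro q
    obtain ⟨q', hq'⟩ : ∃ q', Fin.cast hM.symm (ee d q') = q :=
      ⟨(ee d).symm (Fin.cast hM q), by simp⟩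
    rw [← hq']
    cases q' with
    | inl k =>
      rw [show k = (k.1, k.2) from rfl, hαc]
      exact ⟨(hc₁b _ _).mono b12, (c₁ k.1 k.2).2⟩
    | inr i =>
      rw [hαz]
      exact ⟨(hz₂ i).mono bκ2, (s₂ * z₀ i).2⟩
  obtain ⟨θ, hθK, hθb, hθα⟩ := prim_elt M D α (B2 X) (fun q => (hαb q).1) K hK (fun q => (hαb q).2)
  have hθB : Ib (Bθ X) θ := hθb
  have hMpos : 1 ≤ M := by
    rw [hM]
    exact Fintype.card_pos
  have bθ : 1 ≤ Bθ X := Nat.mul_pos (Nat.mul_pos hMpos (Nat.succ_pos _)) b2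
  have hint : IsIntegral ℚ θ := by
    have : IsIntegral ℤ θ := hθb.1
    exact this.tower_top
  obtain ⟨e, he⟩ : ∃ e, (minpoly ℚ θ).natDegree = e + 1 :=
    ⟨(minpoly ℚ θ).natDegree - 1, by have := minpoly.natDegree_pos hint; omega⟩
  have heD : e < D := by
    have h1 : ℚ⟮θ⟯ ≤ K := by
      rw [IntermediateField.adjoin_simple_le_iff]
      exact hθK
    have hfdK : Module.Finite ℚ (Subalgebra.toSubmodule K.toSubalgebra) :=
      (inferInstance : FiniteDimensional ℚ K)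
    have h2 : Module.finrank ℚ ℚ⟮θ⟯ ≤ Module.finrank ℚ K :=
      Submodule.finrank_mono (s := ℚ⟮θ⟯.toSubalgebra.toSubmodule)
        (t := K.toSubalgebra.toSubmodule) h1
    rw [IntermediateField.adjoin.finrank hint, he] at h2
    omega
  obtain ⟨Δ, hΔ0, hΔb, hΔ⟩ := Hcc e θ (Bθ X) bθ hθB he
  obtain ⟨μ, hμ1, hμ2⟩ := Hcm e θ (Bθ X) bθ hθB he
  have hWc : Cc e * (Bθ X) ^ (Ac e) ≤ W X := by
    have := Finset.single_le_sum
      (f := fun e => Cc e * (Bθ X) ^ (Ac e) + Cm e * (Bθ X) ^ (Am e))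
      (fun _ _ => Nat.zero_le _) (Finset.mem_range.2 heD)
    exact (Nat.le_add_right _ _).trans this
  have hWm : Cm e * (Bθ X) ^ (Am e) ≤ W X := by
    have := Finset.single_le_sum
      (f := fun e => Cc e * (Bθ X) ^ (Ac e) + Cm e * (Bθ X) ^ (Am e))
      (fun _ _ => Nat.zero_le _) (Finset.mem_range.2 heD)
    exact (Nat.le_add_left _ _).trans this
  have hWY : ∀ B, B ≤ B2 X → Cc e * (Bθ X) ^ (Ac e) * B ≤ (W X + 1) * B2 X := fun B hB =>
    Nat.mul_le_mul (hWc.trans (Nat.le_succ _)) hB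
  have hΔ0' : (Δ : K) ≠ 0 := by exact_mod_cast hΔ0
  -- the coordinates
  have hcm : ∀ i j, ((c₁ i j : K) : Qb) ∈ ℚ⟮θ⟯ := by
    intro i j
    rw [← hαc]
    exact hθα _
  have hzm : ∀ i, ((s₂ * z₀ i : K) : Qb) ∈ ℚ⟮θ⟯ := by
    intro i
    rw [← hαz]
    exact hθα _
  choose cc hcc1 hcc2 using fun i j => hΔ ((c₁ i j : K) : Qb) (B1 X) (hcm i j) (hc₁b i j)
  choose zz hzz1 hzz2 using fun i => hΔ ((s₂ * z₀ i : K) : Qb) (κf X * κf X) (hzm i) (hz₂ i)
  obtain ⟨s, hs⟩ : ∃ s : K, s = (Δ : K) * s₁ := ⟨_, rfl⟩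
  have hs0 : s ≠ 0 := by rw [hs]; exact mul_ne_zero hΔ0' hs₁
  have hcs : (fun i j => s * F i j) = fun i j => (Δ : K) * c₁ i j := by
    funext i j
    rw [hs, hc₁d]
    ring
  obtain ⟨z, hz⟩ : ∃ z : Fin 2 → K, z = ((Δ : K) * s₂) • z₀ := ⟨_, rfl⟩
  -- the iterates
  have hit : ∀ k, ∃ u : K, u ≠ 0 ∧ (ac fun i j => s * F i j)^[k] z = u • (ac c₁)^[k] z₀ := by
    intro k
    obtain ⟨u, hu0, hu⟩ := iter_scale hΔ0' c₁ z₀ k
    refine ⟨((Δ : K) * s₂) ^ (d ^ k) * u,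
      mul_ne_zero (pow_ne_zero _ (mul_ne_zero hΔ0' hs₂)) hu0, ?_⟩
    rw [hz, ac_iter_smul, hcs, hu, smul_smul]
  refine ⟨e, θ, μ, cc, zz, s, z, heD, hs0, fun l => ?_, fun i j l => ?_, fun i l => ?_, hμ1,
    fun a ha => lin_pow_int he a ha, fun i j => ?_, fun i => ?_, (hrs s hs0).1, ?_, ?_⟩
  · refine (hμ2 l).trans ?_
    have : Cm e * (Bθ X) ^ (Am e) ≤ (W X + 1) * B2 X :=
      calc Cm e * (Bθ X) ^ (Am e) ≤ (W X + 1) * 1 := by rw [mul_one]; exact hWm.trans (Nat.le_succ _)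
        _ ≤ _ := Nat.mul_le_mul_left _ b2
    exact_mod_cast this
  · exact (hcc2 i j l).trans (by exact_mod_cast hWY _ b12)
  · exact (hzz2 i l).trans (by exact_mod_cast hWY _ bκ2)
  · rw [← hcc1]
    have h1 : s * F i j = (Δ : K) * c₁ i j := congrFun (congrFun hcs i) j
    rw [h1]
    push_cast
    rfl
  · rw [← hzz1, hz]
    show (Δ : Qb) * ((s₂ * z₀ i : K) : Qb) = (((Δ : K) * s₂ * z₀ i : K) : Qb)
    push_cast
    ring
  · intro i j hij hj
    obtain ⟨u, hu0, hu⟩ := hit i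
    obtain ⟨u', hu0', hu'⟩ := hit j
    rw [hu, hu', wg_smul]
    exact mul_ne_zero (mul_ne_zero hu0 hu0') (hlong i j hij hj)
  · intro k hw1
    obtain ⟨w, hw⟩ : ∃ w, w = (ac fun i j => s * F i j)^[k] z := ⟨_, rfl⟩
    rw [← hw] at hw1 ⊢
    have hw1' : w 1 ≠ 0 := by
      intro h
      apply hw1
      show ((w 1 : K) : Qb) = 0
      rw [h]
      rfl
    obtain ⟨u, hu0, hu⟩ := hit k
    have hwh : mulHeight w ≤ κf X := by
      rw [hw, hu, mulHeight_smul_eq_mulHeight _ hu0]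
      exact hht k
    have e0 : ![w 0, w 1] = w := by
      funext i
      fin_cases i <;> rfl
    have hy : mulHeight₁ (w 0 / w 1) ≤ κf X := by
      rw [mulHeight₁_div_eq_mulHeight, e0]
      exact hwh
    obtain ⟨n, hn0, hn, -, hnb⟩ := ht_ib K hy
    -- the quotient is in the field generated by `θ`
    have hwm : ∀ i, ((w i : K) : Qb) ∈ ℚ⟮θ⟯ := by
      intro i
      have h1 := ac_iter_map (algebraMap K Qb) (fun i j => s * F i j) z k
      have h2 : ((w i : K) : Qb) = (ac fun i j => algebraMap K Qb (s * F i j))^[k]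
          (fun i => algebraMap K Qb (z i)) i := by
        rw [hw]
        exact congrFun h1 i
      rw [h2]
      refine iter_mem ℚ⟮θ⟯ (fun i j => ?_) (fun i => ?_) k i
      · have h3 : s * F i j = (Δ : K) * c₁ i j := congrFun (congrFun hcs i) j
        rw [h3, map_mul, map_intCast]
        exact mul_mem (_root_.intCast_mem _ _) (hcm i j)
      · have h3 : z i = (Δ : K) * (s₂ * z₀ i) := by
          rw [hz, Pi.smul_apply, smul_eq_mul]
          ring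
        rw [h3, map_mul, map_intCast]
        exact mul_mem (_root_.intCast_mem _ _) (hzm i)
    have hym : (n : Qb) * ((w 0 / w 1 : K) : Qb) ∈ ℚ⟮θ⟯ := by
      refine mul_mem (_root_.natCast_mem _ _) ?_
      have h3 : ((w 0 / w 1 : K) : Qb) = (w 0 : Qb) / (w 1 : Qb) := by
        push_cast
        rfl
      rw [h3]
      exact div_mem (hwm 0) (hwm 1)
    obtain ⟨a, ha1, ha2⟩ := hΔ _ _ hym hnb
    refine ⟨Δ * n, a, mul_ne_zero hΔ0 (by exact_mod_cast hn0), ?_, fun l => ?_, ?_⟩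
    · rw [abs_mul, Nat.abs_cast]
      have h3 : |Δ| * (n : ℤ) ≤ ((Cc e * (Bθ X) ^ (Ac e) * κf X : ℕ) : ℤ) := by
        push_cast
        refine mul_le_mul ?_ (by exact_mod_cast hn) (by positivity) (by positivity)
        exact_mod_cast hΔb
      exact h3.trans (by exact_mod_cast hWY _ (bκ1.trans bκ2))
    · exact (ha2 l).trans (by exact_mod_cast hWY _ bκ2)
    · rw [← ha1]
      have h3 : ((w 0 / w 1 : K) : Qb) = (w 0 : Qb) / (w 1 : Qb) := by
        push_cast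
        rfl
      rw [h3]
      have h4 : ((w 1 : K) : Qb) ≠ 0 := hw1
      push_cast
      field_simp

end Pool.Agent.R323
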