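import Pool.Agent.R323.NF.C

/-!
# The height of the image of a point under a rational map
-/

set_option autoImplicit false

namespace Pool.Agent.R323

open Polynomial

/-- substitution in an integral polynomial -/
noncomputable def sv {σ : Type*} {K : Type*} [CommRing K] (s : σ → K) : MvPolynomial σ ℤ →+* K :=
  MvPolynomial.eval₂Hom (Int.castRingHom K) s

theorem sv_X {σ : Type*} {K : Type*} [CommRing K] (s : σ → K) (i : σ) :
    sv s (MvPolynomial.X i) = s i := by
  unfold sv
  rw [MvPolynomial.coe_eval₂Hom, MvPolynomial.eval₂_X]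

theorem sv_C {σ : Type*} {K : Type*} [CommRing K] (s : σ → K) (a : ℤ) :
    sv s (MvPolynomial.C a) = (a : K) := by
  unfold sv
  rw [MvPolynomial.coe_eval₂Hom, MvPolynomial.eval₂_C, eq_intCast]

/-- the values of a pair of forms with generic coefficients -/
theorem univ_bez (d : ℕ) (hd : 1 ≤ d) : ∃ p q : (MvPolynomial (Fin 2 × Fin (d + 1)) ℤ)[X],
    ∀ (K : Type) [Field K] (c : Fin 2 → Fin (d + 1) → K) (z : Fin 2 → K), z 1 ≠ 0 →
      ac c z 0 * he (p.map (sv fun k => c k.1 k.2)) (d - 1) z +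
        ac c z 1 * he (q.map (sv fun k => c k.1 k.2)) (d - 1) z = rsZ c * z 1 ^ (2 * d - 1) := by
  classical
  set u : Fin 2 → Fin (d + 1) → MvPolynomial (Fin 2 × Fin (d + 1)) ℤ :=
    fun i j => MvPolynomial.X (i, j) with hu
  obtain ⟨p, q, hp, hq, hpq⟩ := Polynomial.exists_mul_add_mul_eq_C_resultant
    (pc (u 0)) (pc (u 1)) (m := d) (n := d) (pc_natDegree _) (pc_natDegree _) (Or.inl (by omega))
  refine ⟨p, q, fun K _ c z hz1 => ?_⟩
  set φ : MvPolynomial (Fin 2 × Fin (d + 1)) ℤ →+* K := sv fun k => c k.1 k.2 with hφ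
  have hφu : ∀ i j, φ (u i j) = c i j := by
    intro i j
    rw [hφ, hu, sv_X]
  have hres : φ (rsZ u) = rsZ c := by
    rw [rsZ_map]
    congr 1
    funext i j
    exact hφu i j
  have hdeg : ∀ (r : (MvPolynomial (Fin 2 × Fin (d + 1)) ℤ)[X]), r.degree < (d : ℕ) →
      (r.map φ).natDegree ≤ d - 1 := by
    intro r hr
    have h1 : (r.map φ).natDegree ≤ r.natDegree := Polynomial.natDegree_map_le
    by_cases hr0 : r = 0
    · rw [hr0]; simp
    · have h2 := (Polynomial.natDegree_lt_iff_degree_lt hr0).2 hr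
      omega
  have h1 := congrArg (Polynomial.map φ) hpq
  rw [Polynomial.map_add, Polynomial.map_mul, Polynomial.map_mul, Polynomial.map_C, pc_map,
    pc_map] at h1
  have h2 : φ (resultant (pc (u 0)) (pc (u 1)) d d) = rsZ c := hres
  rw [h2] at h1
  have h3 : ∀ i, (fun j => φ (u i j)) = c i := fun i => funext fun j => hφu i j
  rw [h3, h3] at h1
  have h5 := congrArg (Polynomial.eval (z 0 / z 1)) h1
  rw [Polynomial.eval_add, Polynomial.eval_mul, Polynomial.eval_mul, Polynomial.eval_C] at h5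
  have k1 := he_eval (P := pc (c 0)) (m := d) (pc_natDegree _) z hz1
  have k2 := he_eval (P := pc (c 1)) (m := d) (pc_natDegree _) z hz1
  have k3 := he_eval (P := p.map φ) (m := d - 1) (hdeg p hp) z hz1
  have k4 := he_eval (P := q.map φ) (m := d - 1) (hdeg q hq) z hz1
  rw [he_pc] at k1 k2
  have e1 : z 1 ^ (2 * d - 1) = z 1 ^ d * z 1 ^ (d - 1) := by
    rw [← pow_add]
    congr 1
    omega
  rw [← k1, ← k2, ← k3, ← k4, e1, ← h5]
  ring

section loc

variable {K : Type} [Field K]

/-- the maximum of the values of the coordinates -/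
noncomputable def mv (v : AbsoluteValue K ℝ) (z : Fin 2 → K) : ℝ := max (v (z 0)) (v (z 1))

theorem mv_le (v : AbsoluteValue K ℝ) (z : Fin 2 → K) (i : Fin 2) : v (z i) ≤ mv v z := by
  fin_cases i
  · exact le_max_left _ _
  · exact le_max_right _ _

theorem mv_pos (v : AbsoluteValue K ℝ) {z : Fin 2 → K} (hz : z ≠ 0) : 0 < mv v z := by
  obtain ⟨i, hi⟩ := Function.ne_iff.1 hz
  exact lt_of_lt_of_le (v.pos hi) (mv_le v z i)

theorem mv_nonneg (v : AbsoluteValue K ℝ) (z : Fin 2 → K) : 0 ≤ mv v z :=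
  (v.nonneg _).trans (le_max_left _ _)

/-- the triangle inequality for sums -/
def Su (v : AbsoluteValue K ℝ) (τ : ℝ) : Prop :=
  ∀ (n : ℕ) (a : ℕ → K) (B : ℝ), (∀ j < n + 1, v (a j) ≤ B) →
    v (∑ j ∈ Finset.range (n + 1), a j) ≤ τ ^ n * B

theorem su_two (v : AbsoluteValue K ℝ) : Su v 2 := by
  intro n
  induction n with
  | zero =>
    intro a B h
    simpa using h 0 (by omega)
  | succ n ih =>
    intro a B h
    rw [Finset.sum_range_succ]
    refine (v.add_le _ _).trans ?_
    have h1 := ih a B fun j hj => h j (by omega)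
    have h2 := h (n + 1) (by omega)
    have hB : 0 ≤ B := (v.nonneg _).trans h2
    have h3 : (1 : ℝ) ≤ 2 ^ n := one_le_pow₀ (by norm_num)
    rw [pow_succ]
    nlinarith

theorem su_one {v : AbsoluteValue K ℝ} (hna : IsNonarchimedean v) : Su v 1 := by
  intro n a B h
  rw [one_pow, one_mul]
  refine na_sum_le hna _ _ ((v.nonneg _).trans (h 0 (by omega))) fun j hj => h j ?_
  rwa [Finset.mem_range] at hj

theorem he_bd {v : AbsoluteValue K ℝ} {τ : ℝ} (hs : Su v τ) {P : K[X]} {m : ℕ} {z : Fin 2 → K}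
    {B : ℝ} (hP : ∀ j, v (P.coeff j) ≤ B) :
    v (he P m z) ≤ τ ^ m * (B * mv v z ^ m) := by
  unfold he
  refine hs m _ _ fun j hj => ?_
  rw [map_mul, map_mul, map_pow, map_pow]
  have hB : 0 ≤ B := (v.nonneg _).trans (hP 0)
  have e1 : mv v z ^ m = mv v z ^ j * mv v z ^ (m - j) := by
    rw [← pow_add]
    congr 1
    omega
  rw [e1, ← mul_assoc]
  refine mul_le_mul (mul_le_mul (hP j) (pow_le_pow_left₀ (v.nonneg _) (mv_le v z 0) _)
    (by positivity) hB) (pow_le_pow_left₀ (v.nonneg _) (mv_le v z 1) _) (by positivity) ?_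
  exact mul_nonneg hB (pow_nonneg (mv_nonneg _ _) _)

theorem two_bd {v : AbsoluteValue K ℝ} {τ : ℝ} (hs : Su v τ) {x y : K} {B : ℝ} (hx : v x ≤ B)
    (hy : v y ≤ B) : v (x + y) ≤ τ * B := by
  have := hs 1 (fun j => if j = 0 then x else y) B (by
    intro j hj
    by_cases h : j = 0
    · simpa [h] using hx
    · simpa [h] using hy)
  simpa [Finset.sum_range_succ] using this

end loc

/-- **The local inequality.** -/
theorem loc_ineq (d : ℕ) (hd : 1 ≤ d) : ∃ (I : Type) (_ : Fintype I)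
    (Q : I → MvPolynomial (Fin 2 × Fin (d + 1)) ℤ),
    ∀ (K : Type) [Field K] (v : AbsoluteValue K ℝ) (τ κ : ℝ), 1 ≤ τ → 1 ≤ κ → Su v τ →
      ∀ c : Fin 2 → Fin (d + 1) → K, (∀ i, v (sv (fun k => c k.1 k.2) (Q i)) ≤ κ) →
      (∀ i, v (sv (fun k => rv c k.1 k.2) (Q i)) ≤ κ) → ∀ z : Fin 2 → K, z ≠ 0 →
        v (rsZ c * rsZ (rv c)) * mv v z ^ d ≤ (τ ^ d * κ ^ 2) * mv v (ac c z) := by
  classical
  obtain ⟨p, q, hpq⟩ := univ_bez d hd
  refine ⟨Option (Bool × Fin (max (p.natDegree + 1) (q.natDegree + 1))), inferInstance,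
    fun k => k.elim (rsZ fun i j => MvPolynomial.X (i, j))
      (fun k => if k.1 then p.coeff k.2 else q.coeff k.2), ?_⟩
  intro K _ v τ κ hτ hκ hs c hc hc' z hz
  have hkey : ∀ (c : Fin 2 → Fin (d + 1) → K),
      (∀ i, v (sv (fun k => c k.1 k.2) ((fun k : Option (Bool × Fin (max (p.natDegree + 1)
        (q.natDegree + 1))) => k.elim (rsZ fun i j => MvPolynomial.X (i, j))
      (fun k => if k.1 then p.coeff k.2 else q.coeff k.2)) i)) ≤ κ) →
      v (rsZ c) ≤ κ ∧ ∀ z : Fin 2 → K, z ≠ 0 → v (z 0) ≤ v (z 1) →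
        v (rsZ c) * mv v z ^ d ≤ (τ ^ d * κ) * mv v (ac c z) := by
    intro c hc
    have hres : sv (fun k => c k.1 k.2) (rsZ fun i j => MvPolynomial.X (i, j)) = rsZ c := by
      rw [rsZ_map]
      congr 1
      funext i j
      rw [sv_X]
    have hpc : ∀ j, v ((p.map (sv fun k => c k.1 k.2)).coeff j) ≤ κ := by
      intro j
      rw [Polynomial.coeff_map]
      by_cases hj : j < p.natDegree + 1
      · exact hc (some (true, ⟨j, lt_of_lt_of_le hj (le_max_left _ _)⟩))
      · rw [Polynomial.coeff_eq_zero_of_natDegree_lt (by omega), map_zero, map_zero]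
        linarith
    have hqc : ∀ j, v ((q.map (sv fun k => c k.1 k.2)).coeff j) ≤ κ := by
      intro j
      rw [Polynomial.coeff_map]
      by_cases hj : j < q.natDegree + 1
      · exact hc (some (false, ⟨j, lt_of_lt_of_le hj (le_max_right _ _)⟩))
      · rw [Polynomial.coeff_eq_zero_of_natDegree_lt (by omega), map_zero, map_zero]
        linarith
    refine ⟨?_, fun z hz hle => ?_⟩
    · have := hc none
      simp only [Option.elim] at this
      rwa [hres] at this
    · have hm : mv v z = v (z 1) := max_eq_right hle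
      have hm0 := mv_pos v hz
      have hz1 : z 1 ≠ 0 := by
        intro h0
        rw [hm, h0, map_zero] at hm0
        exact lt_irrefl _ hm0
      have h1 := hpq K c z hz1
      have h2 : v (rsZ c * z 1 ^ (2 * d - 1)) ≤
          τ * (mv v (ac c z) * (τ ^ (d - 1) * (κ * mv v z ^ (d - 1)))) := by
        rw [← h1]
        refine two_bd hs ?_ ?_
        · rw [map_mul]
          exact mul_le_mul (mv_le v _ 0) (he_bd hs hpc) (v.nonneg _) (mv_nonneg _ _)
        · rw [map_mul]
          exact mul_le_mul (mv_le v _ 1) (he_bd hs hqc) (v.nonneg _) (mv_nonneg _ _)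
      rw [map_mul, map_pow, ← hm] at h2
      have e1 : mv v z ^ (2 * d - 1) = mv v z ^ d * mv v z ^ (d - 1) := by
        rw [← pow_add]
        congr 1
        omega
      have e2 : τ ^ d = τ * τ ^ (d - 1) := by
        rw [← pow_succ']
        congr 1
        omega
      rw [e1] at h2
      have h3 : (v (rsZ c) * mv v z ^ d) * mv v z ^ (d - 1) ≤
          ((τ ^ d * κ) * mv v (ac c z)) * mv v z ^ (d - 1) := by
        rw [e2]
        linarith
      exact le_of_mul_le_mul_right h3 (pow_pos hm0 _)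
  obtain ⟨k1, k2⟩ := hkey c hc
  obtain ⟨k1', k2'⟩ := hkey (rv c) hc'
  rcases le_total (v (z 0)) (v (z 1)) with hle | hle
  · have h1 := k2 z hz hle
    rw [map_mul]
    calc v (rsZ c) * v (rsZ (rv c)) * mv v z ^ d = (v (rsZ c) * mv v z ^ d) * v (rsZ (rv c)) := by
          ring
      _ ≤ ((τ ^ d * κ) * mv v (ac c z)) * κ := by
          refine mul_le_mul h1 k1' (v.nonneg _) ?_
          have := mv_nonneg v (ac c z)
          positivity
      _ = _ := by ring
  · obtain ⟨zs, hzs⟩ : ∃ zs : Fin 2 → K, zs = ![z 1, z 0] := ⟨_, rfl⟩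
    have hzs0 : zs 0 = z 1 := by rw [hzs]; rfl
    have hzs1 : zs 1 = z 0 := by rw [hzs]; rfl
    have hacs : ac (rv c) zs = ac c z := by rw [hzs]; exact ac_rv c z
    have hmvs : mv v zs = mv v z := by
      unfold mv
      rw [hzs0, hzs1, max_comm]
    have h1 := k2' zs (by
      intro h0
      apply hz
      funext i
      fin_cases i
      · exact hzs1.symm.trans (congrFun h0 1)
      · exact hzs0.symm.trans (congrFun h0 0)) (by rw [hzs0, hzs1]; exact hle)
    rw [hmvs, hacs] at h1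
    rw [map_mul]
    calc v (rsZ c) * v (rsZ (rv c)) * mv v z ^ d = (v (rsZ (rv c)) * mv v z ^ d) * v (rsZ c) := by
          ring
      _ ≤ ((τ ^ d * κ) * mv v (ac c z)) * κ := by
          refine mul_le_mul h1 k1 (v.nonneg _) ?_
          have := mv_nonneg v (ac c z)
          positivity
      _ = _ := by ring

/-- bounds for the values of integral polynomials -/
theorem ev_v {σ : Type*} (P : MvPolynomial σ ℤ) : ∃ C A : ℕ, ∀ (K : Type) [Field K]
    (v : AbsoluteValue K ℝ) (X : ℝ), 1 ≤ X → ∀ s : σ → K, (∀ i, v (s i) ≤ X) →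
      v (sv s P) ≤ C * X ^ A := by
  induction P using MvPolynomial.induction_on with
  | C a =>
    refine ⟨a.natAbs, 0, fun K _ v X _ s _ => ?_⟩
    rw [sv_C, pow_zero, mul_one]
    have h1 : v (a : K) = v ((a.natAbs : ℕ) : K) := by
      rcases Int.natAbs_eq a with h | h
      · conv_lhs => rw [h]
        simp
      · conv_lhs => rw [h]
        simp
    rw [h1]
    exact v.apply_nat_le_self _
  | add p q hp hq =>
    obtain ⟨C1, A1, h1⟩ := hp
    obtain ⟨C2, A2, h2⟩ := hq
    refine ⟨C1 + C2, max A1 A2, fun K _ v X hX s hs => ?_⟩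
    rw [map_add]
    refine (v.add_le _ _).trans ?_
    have e1 : X ^ A1 ≤ X ^ max A1 A2 := pow_le_pow_right₀ hX (le_max_left _ _)
    have e2 : X ^ A2 ≤ X ^ max A1 A2 := pow_le_pow_right₀ hX (le_max_right _ _)
    have e3 := h1 K v X hX s hs
    have e4 := h2 K v X hX s hs
    push_cast
    nlinarith [(by positivity : (0 : ℝ) ≤ C1), (by positivity : (0 : ℝ) ≤ C2)]
  | mul_X p i hp =>
    obtain ⟨C1, A1, h1⟩ := hp
    refine ⟨C1, A1 + 1, fun K _ v X hX s hs => ?_⟩
    rw [map_mul, sv_X, map_mul, pow_succ, ← mul_assoc]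
    exact mul_le_mul (h1 K v X hX s hs) (hs i) (v.nonneg _) (by positivity)

theorem ev_v_fin {σ I : Type*} [Fintype I] (Q : I → MvPolynomial σ ℤ) : ∃ C A : ℕ, 1 ≤ C ∧
    ∀ (K : Type) [Field K]
    (v : AbsoluteValue K ℝ) (X : ℝ), 1 ≤ X → ∀ s : σ → K, (∀ i, v (s i) ≤ X) →
      ∀ k, v (sv s (Q k)) ≤ C * X ^ A := by
  classical
  choose C A h using fun k => ev_v (Q k)
  refine ⟨(∑ k, C k) + 1, ∑ k, A k, by omega, fun K _ v X hX s hs k =>
    (h k K v X hX s hs).trans ?_⟩
  have e1 : C k ≤ (∑ k, C k) + 1 :=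
    (Finset.single_le_sum (fun _ _ => Nat.zero_le _) (Finset.mem_univ k)).trans (by omega)
  have e2 : A k ≤ ∑ k, A k := Finset.single_le_sum (fun _ _ => Nat.zero_le _) (Finset.mem_univ k)
  refine mul_le_mul (by exact_mod_cast e1) (pow_le_pow_right₀ hX e2) (by positivity)
    (by positivity)

theorem ev_na {σ : Type*} (P : MvPolynomial σ ℤ) {K : Type} [Field K] {v : AbsoluteValue K ℝ}
    (hna : IsNonarchimedean v) {s : σ → K} (hs : ∀ i, v (s i) ≤ 1) : v (sv s P) ≤ 1 := by
  induction P using MvPolynomial.induction_on with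
  | C a =>
    rw [sv_C]
    exact IsNonarchimedean.apply_intCast_le_one hna
  | add p q hp hq =>
    rw [map_add]
    exact (hna _ _).trans (max_le hp hq)
  | mul_X p i hp =>
    rw [map_mul, sv_X, map_mul]
    exact mul_le_one₀ hp (v.nonneg _) (hs i)

/-- integral elements -/
theorem int_le_one {K : Type} [Field K] {v : AbsoluteValue K ℝ} (hna : IsNonarchimedean v) {x : K}
    (hx : IsIntegral ℤ x) : v x ≤ 1 := by
  obtain ⟨g, hg, h0⟩ := hx
  by_contra hcon
  push Not at hcon
  have h1 : x ^ g.natDegree = -∑ i ∈ Finset.range g.natDegree,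
      ((g.coeff i : ℤ) : K) * x ^ i := by
    rw [Polynomial.eval₂_eq_sum_range, Finset.sum_range_succ, hg.coeff_natDegree] at h0
    simp only [algebraMap_int_eq, eq_intCast, Int.cast_one, one_mul] at h0
    linear_combination h0
  rcases Nat.eq_zero_or_pos g.natDegree with h2 | h2
  · rw [h2] at h1
    simp at h1
  · have h3 : v (x ^ g.natDegree) ≤ (v x) ^ (g.natDegree - 1) := by
      rw [h1, map_neg_eq_map]
      refine na_sum_le hna _ _ (by positivity) fun i hi => ?_
      rw [Finset.mem_range] at hi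
      rw [map_mul, map_pow]
      have h4 : v ((g.coeff i : ℤ) : K) ≤ 1 := IsNonarchimedean.apply_intCast_le_one hna
      calc v ((g.coeff i : ℤ) : K) * (v x) ^ i ≤ 1 * (v x) ^ (g.natDegree - 1) :=
            mul_le_mul h4 (pow_le_pow_right₀ hcon.le (by omega)) (by positivity) zero_le_one
        _ = _ := one_mul _
    rw [map_pow] at h3
    have h5 : (v x) ^ (g.natDegree - 1) < (v x) ^ g.natDegree :=
      pow_lt_pow_right₀ hcon (by omega)
    linarith

open Height AdmissibleAbsValues Function in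
/-- **The height of the image.** -/
theorem ht_step (d : ℕ) (hd : 1 ≤ d) : ∃ C A : ℕ, 1 ≤ C ∧ ∀ (K : Type) [Field K] [NumberField K]
    (X : ℝ), 1 ≤ X → ∀ c : Fin 2 → Fin (d + 1) → K, (∀ i j, IsIntegral ℤ (c i j)) →
    (∀ (v : NumberField.InfinitePlace K) i j, v (c i j) ≤ X) → rsZ c ≠ 0 → rsZ (rv c) ≠ 0 →
    ∀ z : Fin 2 → K, z ≠ 0 → ac c z ≠ 0 →
      mulHeight z ^ d ≤ (C * X ^ A) ^ (Module.finrank ℚ K) * mulHeight (ac c z) := by
  obtain ⟨I, hI, Q, hQ⟩ := loc_ineq d hd
  obtain ⟨C, A, hC, hCA⟩ := ev_v_fin Q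
  refine ⟨2 ^ d * C ^ 2, 2 * A, Nat.succ_le_of_lt (by positivity), ?_⟩
  intro K _ _ X hX c hci hcX hr hr' z hz hw
  obtain ⟨r, hrr⟩ : ∃ r, r = rsZ c * rsZ (rv c) := ⟨_, rfl⟩
  have hr0 : r ≠ 0 := by rw [hrr]; exact mul_ne_zero hr hr'
  have hC1 : (1 : ℝ) ≤ C := by exact_mod_cast hC
  have hsup : ∀ (v : AbsoluteValue K ℝ) (z : Fin 2 → K), ⨆ i, v (z i) = mv v z := by
    intro v z
    unfold mv
    refine le_antisymm (ciSup_le fun i => mv_le v z i) (max_le ?_ ?_)
    · exact Finite.le_ciSup (fun i => v (z i)) 0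
    · exact Finite.le_ciSup (fun i => v (z i)) 1
  have hprod := product_formula (K := K) hr0
  have harch : ((archAbsVal (K := K)).map fun v => v r * mv v z ^ d).prod ≤
      ((archAbsVal (K := K)).map fun v => ((2 ^ d * C ^ 2 : ℕ) * X ^ (2 * A) : ℝ) *
        mv v (ac c z)).prod := by
    refine Multiset.prod_map_le_prod_map₀ _ _ (fun v _ => ?_) fun v hv => ?_
    · exact mul_nonneg (v.nonneg _) (pow_nonneg (mv_nonneg _ _) _)
    · have hv' : NumberField.IsInfinitePlace v := by
        exact NumberField.mem_multisetInfinitePlace.1 hv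
      have hvX : ∀ i j, v (c i j) ≤ X := fun i j => hcX ⟨v, hv'⟩ i j
      have h1 := hQ K v 2 (C * X ^ A) (by norm_num) (by
        have : (1 : ℝ) ≤ X ^ A := one_le_pow₀ hX
        nlinarith) (su_two v) c
        (fun i => hCA K v X hX _ (fun k => hvX _ _) i) (fun i => hCA K v X hX _ (fun k => hvX _ _) i)
        z hz
      rw [hrr]
      refine h1.trans (le_of_eq ?_)
      push_cast
      ring
  have hnon : ∏ᶠ v : (nonarchAbsVal : Set (AbsoluteValue K ℝ)), v.val r * mv v.val z ^ d ≤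
      ∏ᶠ v : (nonarchAbsVal : Set (AbsoluteValue K ℝ)), mv v.val (ac c z) := by
    have f1 := hasFiniteMulSupport (K := K) hr0
    have f2 : (fun v : (nonarchAbsVal : Set (AbsoluteValue K ℝ)) ↦
        ⨆ i, v.val (z i)).HasFiniteMulSupport := by
      fun_prop (disch := assumption)
    have f3 : (fun v : (nonarchAbsVal : Set (AbsoluteValue K ℝ)) ↦
        ⨆ i, v.val (ac c z i)).HasFiniteMulSupport := by
      fun_prop (disch := assumption)
    simp only [hsup] at f2 f3
    refine finprod_le_finprod (by fun_prop) (fun v => ?_) f3 fun v => ?_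
    · exact mul_nonneg (v.val.nonneg _) (pow_nonneg (mv_nonneg _ _) _)
    · have hna := isNonarchimedean (K := K) v.val v.2
      have h1 := hQ K v.val 1 1 le_rfl le_rfl (su_one hna) c
        (fun i => ev_na (Q i) hna fun k => int_le_one hna (hci _ _))
        (fun i => ev_na (Q i) hna fun k => int_le_one hna (hci _ _)) z hz
      rw [hrr]
      refine h1.trans (le_of_eq ?_)
      ring
  rw [mulHeight_eq hz, mulHeight_eq hw]
  simp only [hsup]
  have f1 := hasFiniteMulSupport (K := K) hr0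
  have f2 : (fun v : (nonarchAbsVal : Set (AbsoluteValue K ℝ)) ↦
      ⨆ i, v.val (z i)).HasFiniteMulSupport := by
    fun_prop (disch := assumption)
  simp only [hsup] at f2
  have e1 : ((archAbsVal (K := K)).map fun v => v r * mv v z ^ d).prod =
      ((archAbsVal (K := K)).map fun v => v r).prod *
        ((archAbsVal (K := K)).map fun v => mv v z).prod ^ d := by
    rw [Multiset.prod_map_mul, Multiset.prod_map_pow]
  have e2 : ∏ᶠ v : (nonarchAbsVal : Set (AbsoluteValue K ℝ)), v.val r * mv v.val z ^ d =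
      (∏ᶠ v : (nonarchAbsVal : Set (AbsoluteValue K ℝ)), v.val r) *
        (∏ᶠ v : (nonarchAbsVal : Set (AbsoluteValue K ℝ)), mv v.val z) ^ d := by
    rw [finprod_mul_distrib f1 (by fun_prop), finprod_pow f2]
  have e3 : ((archAbsVal (K := K)).map fun v => ((2 ^ d * C ^ 2 : ℕ) * X ^ (2 * A) : ℝ) *
        mv v (ac c z)).prod = ((2 ^ d * C ^ 2 : ℕ) * X ^ (2 * A) : ℝ) ^ (Module.finrank ℚ K) *
        ((archAbsVal (K := K)).map fun v => mv v (ac c z)).prod := by
    rw [Multiset.prod_map_mul, Multiset.map_const', Multiset.prod_replicate]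
    congr 2
    exact NumberField.totalWeight_eq_finrank K
  have n1 : 0 ≤ ((archAbsVal (K := K)).map fun v => v r * mv v z ^ d).prod :=
    Multiset.prod_map_nonneg fun v _ => mul_nonneg (v.nonneg _) (pow_nonneg (mv_nonneg _ _) _)
  have n2 : 0 ≤ ∏ᶠ v : (nonarchAbsVal : Set (AbsoluteValue K ℝ)), v.val r * mv v.val z ^ d :=
    finprod_nonneg fun v => mul_nonneg (v.val.nonneg _) (pow_nonneg (mv_nonneg _ _) _)
  have n3 : 0 ≤ ((archAbsVal (K := K)).map fun v => ((2 ^ d * C ^ 2 : ℕ) * X ^ (2 * A) : ℝ) *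
        mv v (ac c z)).prod := n1.trans harch
  calc (((archAbsVal (K := K)).map fun v => mv v z).prod *
        ∏ᶠ v : (nonarchAbsVal : Set (AbsoluteValue K ℝ)), mv v.val z) ^ d =
        (((archAbsVal (K := K)).map fun v => v r).prod *
          ∏ᶠ v : (nonarchAbsVal : Set (AbsoluteValue K ℝ)), v.val r) *
        (((archAbsVal (K := K)).map fun v => mv v z).prod *
        ∏ᶠ v : (nonarchAbsVal : Set (AbsoluteValue K ℝ)), mv v.val z) ^ d := by
        rw [hprod, one_mul]
    _ = ((archAbsVal (K := K)).map fun v => v r * mv v z ^ d).prod *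
        ∏ᶠ v : (nonarchAbsVal : Set (AbsoluteValue K ℝ)), v.val r * mv v.val z ^ d := by
        rw [e1, e2]
        ring
    _ ≤ ((archAbsVal (K := K)).map fun v => ((2 ^ d * C ^ 2 : ℕ) * X ^ (2 * A) : ℝ) *
        mv v (ac c z)).prod *
        ∏ᶠ v : (nonarchAbsVal : Set (AbsoluteValue K ℝ)), mv v.val (ac c z) :=
        mul_le_mul harch hnon n2 n3
    _ = _ := by
        rw [e3]
        ring

end Pool.Agent.R323
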