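import Pool.Agent.R323.Few

/-!
# Polynomials in the parameters and an algebraic number: the prime ideal
-/

set_option autoImplicit false

namespace Pool.Agent.R323

open Filter MvPolynomial Pool.Agent.Y902.GN

/-- the algebraic numbers -/
abbrev Qb : Type := AlgebraicClosure ℚ

section red

variable {O : Type*} [CommRing O] {N e : ℕ}

/-- a polynomial in the last variable with given coefficients -/
noncomputable def lp (r : Fin (e + 1) → MvPolynomial (Fin N) O) :
    MvPolynomial (Option (Fin N)) O :=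
  ∑ l, rename some (r l) * X none ^ (l : ℕ)

/-- the generic monic polynomial -/
noncomputable def mpl (O : Type*) [CommRing O] {N e : ℕ} (μ : Fin (e + 1) → Fin N) :
    MvPolynomial (Option (Fin N)) O :=
  X none ^ (e + 1) + lp (fun l => X (μ l))

theorem lp_add (r r' : Fin (e + 1) → MvPolynomial (Fin N) O) : lp (fun l => r l + r' l) =
    lp r + lp r' := by
  unfold lp
  rw [← Finset.sum_add_distrib]
  refine Finset.sum_congr rfl fun l _ => ?_
  rw [map_add]
  ring

theorem lp_mul (r : Fin (e + 1) → MvPolynomial (Fin N) O) (s : MvPolynomial (Fin N) O) :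
    lp (fun l => s * r l) = rename some s * lp r := by
  unfold lp
  rw [Finset.mul_sum]
  refine Finset.sum_congr rfl fun l _ => ?_
  rw [map_mul]
  ring

/-- reduction modulo the monic polynomial -/
theorem red (μ : Fin (e + 1) → Fin N) (P : MvPolynomial (Option (Fin N)) O) :
    ∃ (r : Fin (e + 1) → MvPolynomial (Fin N) O) (Q : MvPolynomial (Option (Fin N)) O),
      P = lp r + mpl O μ * Q := by
  induction P using MvPolynomial.induction_on with
  | C a =>
    refine ⟨Fin.cases (C a) (fun _ => 0), 0, ?_⟩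
    unfold lp
    rw [Fin.sum_univ_succ]
    simp
  | add P Q hP hQ =>
    obtain ⟨r, A, h1⟩ := hP
    obtain ⟨s, B, h2⟩ := hQ
    refine ⟨fun l => r l + s l, A + B, ?_⟩
    rw [lp_add, h1, h2]
    ring
  | mul_X P o hP =>
    obtain ⟨r, A, h1⟩ := hP
    cases o with
    | some j =>
      refine ⟨fun l => X j * r l, A * X (some j), ?_⟩
      rw [lp_mul, rename_X, h1]
      ring
    | none =>
      have h2 : lp r * X none = lp (Fin.cases 0 (fun l : Fin e => r l.castSucc)) +
          rename some (r (Fin.last e)) * X none ^ (e + 1) := by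
        unfold lp
        rw [Finset.sum_mul, Fin.sum_univ_castSucc, Fin.sum_univ_succ]
        simp only [Fin.val_castSucc, Fin.val_last, Fin.cases_zero, Fin.cases_succ, map_zero,
          zero_mul, zero_add, Fin.val_succ]
        congr 1
        · refine Finset.sum_congr rfl fun l _ => ?_
          ring
        · ring
      refine ⟨fun l => (Fin.cases 0 (fun l : Fin e => r l.castSucc) : Fin (e + 1) →
        MvPolynomial (Fin N) O) l + (-r (Fin.last e)) * X (μ l),
        A * X none + rename some (r (Fin.last e)), ?_⟩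
      rw [lp_add, lp_mul, h1, add_mul, h2, map_neg]
      unfold mpl
      ring

end red

section div

variable {R Q : Type*} [CommRing R] [CommRing Q] [IsDomain Q]

/-- integral elements divide nonzero elements of the base -/
theorem int_dvd (f : R →+* Q) {x : Q} (hx : x ≠ 0) (h : f.IsIntegralElem x) :
    ∃ (r : R) (s : Q), f r ≠ 0 ∧ x * s = f r := by
  obtain ⟨g, hg, h0⟩ := h
  have key : ∀ n : ℕ, ∀ g : Polynomial R, g.natDegree = n → f g.leadingCoeff ≠ 0 →
      g.eval₂ f x = 0 → ∃ (r : R) (s : Q), f r ≠ 0 ∧ x * s = f r := by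
    intro n
    induction n with
    | zero =>
      intro g hn hl hg0
      exfalso
      apply hl
      rw [Polynomial.eq_C_of_natDegree_eq_zero hn, Polynomial.eval₂_C] at hg0
      rw [Polynomial.leadingCoeff, hn]
      exact hg0
    | succ n ih =>
      intro g hn hl hg0
      have h1 : g.divX * Polynomial.X + Polynomial.C (g.coeff 0) = g := Polynomial.divX_mul_X_add g
      have h2 : g.divX.eval₂ f x * x + f (g.coeff 0) = 0 := by
        have h3 := hg0
        rw [← h1, Polynomial.eval₂_add, Polynomial.eval₂_mul, Polynomial.eval₂_X,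
          Polynomial.eval₂_C] at h3
        exact h3
      by_cases hc : f (g.coeff 0) = 0
      · rw [hc, add_zero] at h2
        have h3 := (mul_eq_zero.1 h2).resolve_right hx
        refine ih g.divX ?_ ?_ h3
        · rw [Polynomial.natDegree_divX_eq_natDegree_tsub_one, hn]
          rfl
        · have : g.divX.leadingCoeff = g.leadingCoeff := by
            rw [Polynomial.leadingCoeff, Polynomial.natDegree_divX_eq_natDegree_tsub_one,
              Polynomial.coeff_divX, Polynomial.leadingCoeff, hn]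
            rfl
          rw [this]
          exact hl
      · refine ⟨-g.coeff 0, g.divX.eval₂ f x, ?_, ?_⟩
        · rw [map_neg]
          exact neg_ne_zero.2 hc
        · rw [map_neg]
          linear_combination h2
  refine key _ g rfl ?_ h0
  rw [hg.leadingCoeff, map_one]
  exact one_ne_zero

end div

section coord

variable {O : Type*} [CommRing O] {N e : ℕ}

/-- coordinates with respect to the powers of the last variable -/
theorem exists_coord (μ : Fin (e + 1) → Fin N) (J : Ideal (MvPolynomial (Option (Fin N)) O))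
    (hp : J.IsPrime) (hm : mpl O μ ∈ J) (A B : MvPolynomial (Option (Fin N)) O) (hB : B ∉ J) :
    ∃ (V : MvPolynomial (Fin N) O) (U : Fin (e + 1) → MvPolynomial (Fin N) O),
      rename some V ∉ J ∧ rename some V * A - B * lp U ∈ J := by
  let Qt := MvPolynomial (Option (Fin N)) O ⧸ J
  let π : MvPolynomial (Option (Fin N)) O →+* Qt := Ideal.Quotient.mk J
  have hπ : ∀ P, π P = 0 ↔ P ∈ J := fun P => Ideal.Quotient.eq_zero_iff_mem
  have hdom : IsDomain Qt := (Ideal.Quotient.isDomain_iff_prime J).2 hp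
  let f : MvPolynomial (Fin N) O →+* Qt := π.comp (rename some).toRingHom
  have hf : ∀ P, f P = π (rename some P) := fun P => rfl
  have hint : ∀ P, f.IsIntegralElem (π P) := by
    intro P
    induction P using MvPolynomial.induction_on with
    | C a =>
      have h1 : π (C a) = f (C a) := by rw [hf, rename_C]
      rw [h1]
      exact f.isIntegralElem_map
    | add P Q hP hQ =>
      rw [map_add]
      exact hP.add f hQ
    | mul_X P o hP =>
      rw [map_mul]
      refine hP.mul f ?_
      cases o with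
      | some j =>
        have h1 : π (X (some j)) = f (X j) := by rw [hf, rename_X]
        rw [h1]
        exact f.isIntegralElem_map
      | none =>
        refine ⟨Polynomial.X ^ (e + 1) + ∑ l : Fin (e + 1), Polynomial.C (X (μ l)) *
          Polynomial.X ^ (l : ℕ), ?_, ?_⟩
        · refine Polynomial.monic_X_pow_add ?_
          refine lt_of_le_of_lt (Polynomial.degree_sum_le _ _) ?_
          rw [Finset.sup_lt_iff (by exact WithBot.bot_lt_coe _)]
          intro l _
          refine lt_of_le_of_lt (Polynomial.degree_C_mul_X_pow_le _ _) ?_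
          exact_mod_cast l.2
        · rw [Polynomial.eval₂_add, Polynomial.eval₂_X_pow, Polynomial.eval₂_finsetSum]
          have h1 := (hπ _).2 hm
          unfold mpl lp at h1
          rw [map_add, map_pow, map_sum] at h1
          rw [← h1]
          congr 1
          refine Finset.sum_congr rfl fun l _ => ?_
          rw [Polynomial.eval₂_mul, Polynomial.eval₂_C, Polynomial.eval₂_X_pow, map_mul, map_pow, hf]
  have hB' : π B ≠ 0 := fun h => hB ((hπ B).1 h)
  obtain ⟨V, s, h1, h2⟩ := int_dvd f hB' (hint B)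
  obtain ⟨S, rfl⟩ := Ideal.Quotient.mk_surjective s
  obtain ⟨U, Q, hU⟩ := red μ (S * A)
  refine ⟨V, U, ?_, ?_⟩
  · intro h
    exact h1 ((hπ _).2 h)
  · rw [← hπ]
    have h3 : π (lp U) = π (S * A) := by
      rw [hU, map_add, map_mul, (hπ _).2 hm, zero_mul, add_zero]
    rw [map_sub, map_mul, map_mul, h3, ← hf, ← h2, map_mul]
    change π B * π S * π A - π B * (π S * π A) = 0
    ring

end coord

section ideal

variable {Y : ℕ → ℕ} {N e : ℕ}

/-- the point -/
noncomputable def pq {N : ℕ} (t : Fin N → ℤ) (θ : Qb) : Option (Fin N) → Qb :=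
  fun o => o.elim θ (fun j => (t j : Qb))

theorem aeval_ren (t : Fin N → ℤ) (θ : Qb) (P : MvPolynomial (Fin N) ℤ) :
    aeval (pq t θ) (rename some P) = ((eval t P : ℤ) : Qb) := by
  rw [aeval_rename]
  induction P using MvPolynomial.induction_on with
  | C a => simp
  | add p q hp hq => rw [map_add, map_add, hp, hq, Int.cast_add]
  | mul_X p i hp => rw [map_mul, map_mul, hp, aeval_X, eval_X, Int.cast_mul]; rfl

theorem aeval_none (t : Fin N → ℤ) (θ : Qb) : aeval (pq t θ) (X none : MvPolynomial _ ℤ) = θ := by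
  rw [aeval_X]
  rfl

theorem aeval_lp (t : Fin N → ℤ) (θ : Qb) (r : Fin (e + 1) → MvPolynomial (Fin N) ℤ) :
    aeval (pq t θ) (lp r) = ∑ l, ((eval t (r l) : ℤ) : Qb) * θ ^ (l : ℕ) := by
  unfold lp
  rw [map_sum]
  refine Finset.sum_congr rfl fun l _ => ?_
  rw [map_mul, map_pow, aeval_ren, aeval_none]

theorem aeval_mpl (t : Fin N → ℤ) (θ : Qb) (μ : Fin (e + 1) → Fin N) :
    aeval (pq t θ) (mpl ℤ μ) = θ ^ (e + 1) + ∑ l, ((t (μ l) : ℤ) : Qb) * θ ^ (l : ℕ) := by
  unfold mpl
  rw [map_add, map_pow, aeval_none, aeval_lp]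
  simp only [eval_X]

theorem Re_lp {r : Fin (e + 1) → MvPolynomial (Fin N) (OO Y)}
    {r' : Fin (e + 1) → ℕ → MvPolynomial (Fin N) ℤ} (h : ∀ l, Re (r l) (r' l)) :
    Re (lp r) (fun ν => lp (fun l => r' l ν)) := by
  unfold lp
  exact Re.sum _ fun l _ => ((h l).rename some).mul (Re_pow (Re.X none) _)

theorem Re_mpl (μ : Fin (e + 1) → Fin N) : Re (mpl (OO Y) μ) (fun _ => mpl ℤ μ) := by
  unfold mpl
  exact (Re_pow (Re.X none) _).add (Re_lp (r' := fun l _ => X (μ l)) fun l => Re.X _)

/-- polynomials in the parameters and the algebraic number which vanish on an internal set -/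
noncomputable def JT (Y : ℕ → ℕ) {N : ℕ} (Om : ℕ → Finset (Fin N → ℤ))
    (th : ℕ → (Fin N → ℤ) → Qb) : Ideal (MvPolynomial (Option (Fin N)) (OO Y)) where
  carrier := {P | ∀ᶠ ν in (Uf : Filter ℕ), ∀ t ∈ Om ν, aeval (pq t (th ν t)) (sq P ν) = 0}
  add_mem' := by
    intro P Q hP hQ
    simp only [Set.mem_ofPred_eq] at *
    filter_upwards [hP, hQ, (Re.sq (P + Q)).eq ((Re.sq P).add (Re.sq Q))] with ν a b c t ht
    rw [c, map_add, a t ht, b t ht, add_zero]
  zero_mem' := by
    simp only [Set.mem_ofPred_eq]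
    filter_upwards [(Re.sq (0 : MvPolynomial (Option (Fin N)) (OO Y))).eq Re.zero] with ν c t _
    rw [c, map_zero]
  smul_mem' := by
    intro P Q hQ
    simp only [Set.mem_ofPred_eq, smul_eq_mul] at *
    filter_upwards [hQ, (Re.sq (P * Q)).eq ((Re.sq P).mul (Re.sq Q))] with ν b c t ht
    rw [c, map_mul, b t ht, mul_zero]

variable {Om : ℕ → Finset (Fin N → ℤ)} {th : ℕ → (Fin N → ℤ) → Qb}

theorem mem_JT {P : MvPolynomial (Option (Fin N)) (OO Y)}
    {p : ℕ → MvPolynomial (Option (Fin N)) ℤ} (hp : Re P p) :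
    P ∈ JT Y Om th ↔ ∀ᶠ ν in (Uf : Filter ℕ), ∀ t ∈ Om ν, aeval (pq t (th ν t)) (p ν) = 0 := by
  have h : ∀ᶠ ν in (Uf : Filter ℕ), sq P ν = p ν := (Re.sq P).eq hp
  constructor
  · intro h1
    have h1' : ∀ᶠ ν in (Uf : Filter ℕ), ∀ t ∈ Om ν, aeval (pq t (th ν t)) (sq P ν) = 0 := h1
    filter_upwards [h1', h] with ν a b t ht
    rw [← b]; exact a t ht
  · intro h1
    show ∀ᶠ ν in (Uf : Filter ℕ), ∀ t ∈ Om ν, aeval (pq t (th ν t)) (sq P ν) = 0
    filter_upwards [h1, h] with ν a b t ht
    rw [b]; exact a t ht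

/-- the algebraic number is a root of the monic polynomial with the given coefficients and its
powers are linearly independent -/
structure TH (Om : ℕ → Finset (Fin N → ℤ)) (th : ℕ → (Fin N → ℤ) → Qb) (μ : Fin (e + 1) → Fin N) :
    Prop where
  root : ∀ᶠ ν in (Uf : Filter ℕ), ∀ t ∈ Om ν,
    (th ν t) ^ (e + 1) + ∑ l, ((t (μ l) : ℤ) : Qb) * (th ν t) ^ (l : ℕ) = 0
  lin : ∀ᶠ ν in (Uf : Filter ℕ), ∀ t ∈ Om ν, ∀ a : Fin (e + 1) → ℤ,
    ∑ l, ((a l : ℤ) : Qb) * (th ν t) ^ (l : ℕ) = 0 → a = 0

theorem TH.mono {μ : Fin (e + 1) → Fin N} (h : TH Om th μ) {Om' : ℕ → Finset (Fin N → ℤ)}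
    (hs : ∀ᶠ ν in (Uf : Filter ℕ), Om' ν ⊆ Om ν) : TH Om' th μ := by
  constructor
  · filter_upwards [h.root, hs] with ν a b t ht
    exact a t (b ht)
  · filter_upwards [h.lin, hs] with ν a b t ht
    exact a t (b ht)

theorem ren_JT {P : MvPolynomial (Fin N) (OO Y)} :
    rename some P ∈ JT Y Om th ↔ P ∈ JI Y Om := by
  rw [mem_JT ((Re.sq P).rename some), mem_JI (Re.sq P)]
  simp only [aeval_ren, Int.cast_eq_zero]

theorem TH.mpl_mem {μ : Fin (e + 1) → Fin N} (h : TH Om th μ) : mpl (OO Y) μ ∈ JT Y Om th := by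
  rw [mem_JT (Re_mpl μ)]
  filter_upwards [h.root] with ν a t ht
  rw [aeval_mpl]
  exact a t ht

theorem TH.lp_mem {μ : Fin (e + 1) → Fin N} (h : TH Om th μ)
    (r : Fin (e + 1) → MvPolynomial (Fin N) (OO Y)) :
    lp r ∈ JT Y Om th ↔ ∀ l, r l ∈ JI Y Om := by
  rw [mem_JT (Re_lp fun l => Re.sq (r l))]
  simp only [aeval_lp]
  constructor
  · intro h1 l
    rw [mem_JI (Re.sq (r l))]
    filter_upwards [h1, h.lin] with ν a b t ht
    exact congrFun (b t ht _ (a t ht)) l
  · intro h1
    have h2 : ∀ l, ∀ᶠ ν in (Uf : Filter ℕ), ∀ t ∈ Om ν, eval t (sq (r l) ν) = 0 :=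
      fun l => (mem_JI (Re.sq (r l))).1 (h1 l)
    filter_upwards [(Filter.eventually_all).2 h2] with ν a t ht
    refine Finset.sum_eq_zero fun l _ => ?_
    rw [a l t ht, Int.cast_zero, zero_mul]

/-- large internal subsets have the same ideal -/
theorem TH.gen {μ : Fin (e + 1) → Fin N} (h : TH Om th μ) (hG : Gen Y Om)
    {Om' : ℕ → Finset (Fin N → ℤ)} (hs : ∀ᶠ ν in (Uf : Filter ℕ), Om' ν ⊆ Om ν)
    (hb : Big Y Om') : JT Y Om' th ≤ JT Y Om th := by
  intro P hP
  obtain ⟨r, Q, rfl⟩ := red μ P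
  have h1 : mpl (OO Y) μ * Q ∈ JT Y Om' th := Ideal.mul_mem_right _ _ (h.mono hs).mpl_mem
  have h2 : lp r ∈ JT Y Om' th := by
    have := sub_mem hP h1
    rwa [add_sub_cancel_right] at this
  rw [(h.mono hs).lp_mem] at h2
  refine add_mem ?_ (Ideal.mul_mem_right _ _ h.mpl_mem)
  rw [h.lp_mem]
  exact fun l => hG.2 Om' hs hb (h2 l)

theorem TH.notBig {μ : Fin (e + 1) → Fin N} (h : TH Om th μ) (hG : Gen Y Om)
    {P : MvPolynomial (Option (Fin N)) (OO Y)}
    {p : ℕ → MvPolynomial (Option (Fin N)) ℤ} (hp : Re P p) (hP : P ∉ JT Y Om th)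
    {Om' : ℕ → Finset (Fin N → ℤ)} (hOm' : ∀ᶠ ν in (Uf : Filter ℕ), Om' ν ⊆ Om ν)
    (h0 : ∀ᶠ ν in (Uf : Filter ℕ), ∀ t ∈ Om' ν, aeval (pq t (th ν t)) (p ν) = 0) :
    ¬ Big Y Om' := by
  intro hb
  exact hP (h.gen hG hOm' hb ((mem_JT hp).2 h0))

theorem TH.isPrime {μ : Fin (e + 1) → Fin N} (h : TH Om th μ)
    (hY : ∀ m : ℕ, ∀ᶠ ν in (Uf : Filter ℕ), m ≤ Y ν) (hG : Gen Y Om) :
    (JT Y Om th).IsPrime := by
  classical
  rw [Ideal.isPrime_iff]
  refine ⟨?_, ?_⟩
  · intro htop
    have h1 : rename some (1 : MvPolynomial (Fin N) (OO Y)) ∈ JT Y Om th := by rw [htop]; trivial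
    rw [ren_JT] at h1
    have h2 := C_notMem (Y := Y) hG.1 (one_ne_zero (α := OO Y))
    rw [C_1] at h2
    exact h2 h1
  · intro P Q hPQ
    by_contra hcon
    push Not at hcon
    have h1 := (mem_JT ((Re.sq P).mul (Re.sq Q))).1 hPQ
    rcases hG.1.or hY (B := fun ν => (Om ν).filter fun t => aeval (pq t (th ν t)) (sq P ν) = 0)
      (C := fun ν => (Om ν).filter fun t => aeval (pq t (th ν t)) (sq Q ν) = 0) (by
        filter_upwards [h1] with ν a t ht
        have := a t ht
        rw [map_mul] at this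
        rw [Finset.mem_union, Finset.mem_filter, Finset.mem_filter]
        rcases mul_eq_zero.1 this with h2 | h2
        · exact Or.inl ⟨ht, h2⟩
        · exact Or.inr ⟨ht, h2⟩) with h2 | h2
    · exact h.notBig hG (Re.sq P) hcon.1
        (Filter.Eventually.of_forall fun ν => Finset.filter_subset _ _)
        (Filter.Eventually.of_forall fun ν t ht => (Finset.mem_filter.1 ht).2) h2
    · exact h.notBig hG (Re.sq Q) hcon.2
        (Filter.Eventually.of_forall fun ν => Finset.filter_subset _ _)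
        (Filter.Eventually.of_forall fun ν t ht => (Finset.mem_filter.1 ht).2) h2

end ideal

end Pool.Agent.R323
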