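import Pool.Agent.R323.NF.H

/-!
# Preperiodic points over number fields
-/

set_option autoImplicit false

namespace Pool.Agent.R323

open Polynomial Height

section field

variable {K : Type} [Field K] {d : ℕ}

theorem rv_rv (c : Fin 2 → Fin (d + 1) → K) : rv (rv c) = c := by
  funext i j
  simp [rv]

/-- nonvanishing -/
theorem ac_ne (hd : 1 ≤ d) {c : Fin 2 → Fin (d + 1) → K} (hr : rsZ c ≠ 0) (hr' : rsZ (rv c) ≠ 0)
    {z : Fin 2 → K} (hz : z ≠ 0) : ac c z ≠ 0 := by
  obtain ⟨p, q, hpq⟩ := univ_bez d hd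
  intro h0
  by_cases hz1 : z 1 = 0
  · obtain ⟨zs, hzs⟩ : ∃ zs : Fin 2 → K, zs = ![z 1, z 0] := ⟨_, rfl⟩
    have hzs1 : zs 1 = z 0 := by rw [hzs]; rfl
    have hacs : ac (rv c) zs = ac c z := by rw [hzs]; exact ac_rv c z
    have hz0 : z 0 ≠ 0 := by
      intro h
      apply hz
      funext i
      fin_cases i
      · exact h
      · exact hz1
    have h1 := hpq K (rv c) zs (by rw [hzs1]; exact hz0)
    rw [hacs, h0, hzs1] at h1
    simp only [Pi.zero_apply, zero_mul, add_zero] at h1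
    exact mul_ne_zero hr' (pow_ne_zero _ hz0) h1.symm
  · have h1 := hpq K c z hz1
    rw [h0] at h1
    simp only [Pi.zero_apply, zero_mul, add_zero] at h1
    exact mul_ne_zero hr (pow_ne_zero _ hz1) h1.symm

theorem iter_ne (hd : 1 ≤ d) {c : Fin 2 → Fin (d + 1) → K} (hr : rsZ c ≠ 0)
    (hr' : rsZ (rv c) ≠ 0) {z : Fin 2 → K} (hz : z ≠ 0) (n : ℕ) : (ac c)^[n] z ≠ 0 := by
  induction n with
  | zero => exact hz
  | succ n ih =>
    rw [Function.iterate_succ_apply']
    exact ac_ne hd hr hr' ih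

/-- parallel iterates -/
theorem iter_par (c : Fin 2 → Fin (d + 1) → K) {x y : Fin 2 → K} {s : K} (hs : s ≠ 0)
    (h : y = s • x) (k : ℕ) : ∃ s' : K, s' ≠ 0 ∧ (ac c)^[k] y = s' • (ac c)^[k] x := by
  refine ⟨s ^ (d ^ k), pow_ne_zero _ hs, ?_⟩
  rw [h, ac_iter_smul]

/-- scaling of the map -/
theorem ac_scale (s : K) (c : Fin 2 → Fin (d + 1) → K) (v : Fin 2 → K) :
    ac (fun i j => s * c i j) v = s • ac c v := by
  funext i
  simp only [ac, Pi.smul_apply, smul_eq_mul, Finset.mul_sum]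
  refine Finset.sum_congr rfl fun j _ => ?_
  ring

theorem iter_scale {s : K} (hs : s ≠ 0) (c : Fin 2 → Fin (d + 1) → K) (v : Fin 2 → K) (n : ℕ) :
    ∃ s' : K, s' ≠ 0 ∧ (ac fun i j => s * c i j)^[n] v = s' • (ac c)^[n] v := by
  induction n with
  | zero => exact ⟨1, one_ne_zero, by rw [one_smul]; rfl⟩
  | succ n ih =>
    obtain ⟨s', hs', h⟩ := ih
    refine ⟨s * s' ^ d, mul_ne_zero hs (pow_ne_zero _ hs'), ?_⟩
    rw [Function.iterate_succ_apply', h, ac_scale, ac_smul, Function.iterate_succ_apply', smul_smul]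

/-- resultants and common zeros -/
theorem rsZ_ne_K (hd : 1 ≤ d) {c : Fin 2 → Fin (d + 1) → K} {L : Type} [Field L] [IsAlgClosed L]
    (g : K →+* L) (h : ∀ v : Fin 2 → L, ac (fun i j => g (c i j)) v = 0 → v = 0) :
    rsZ c ≠ 0 ∧ rsZ (rv c) ≠ 0 := by
  have key : ∀ c : Fin 2 → Fin (d + 1) → K,
      (∀ v : Fin 2 → L, ac (fun i j => g (c i j)) v = 0 → v = 0) → rsZ c ≠ 0 := by
    intro c h
    have h1 : Pool.Agent.H951R3.PB.rs (fm (fun i j => g (c i j))) d ≠ 0 := by
      refine (Pool.Agent.TH450.PC.rs_ne_zero_iff hd fun i => fm_hom _ i).2 fun v hv => ?_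
      rw [ev_fm] at hv
      exact h v hv
    rw [rs_fm] at h1
    have h2 := rsZ_map g c
    intro h3
    rw [h3, map_zero] at h2
    exact h1 h2.symm
  refine ⟨key c h, key (rv c) fun v hv => ?_⟩
  have h1 := h ![v 1, v 0] (by
    rw [← hv]
    have := ac_rv (fun i j => g (c i j)) ![v 1, v 0]
    rw [← this]
    congr 1
    funext i
    fin_cases i <;> rfl)
  funext i
  fin_cases i
  · exact congrFun h1 1
  · exact congrFun h1 0

end field

section ht

variable {d : ℕ} {K : Type} [Field K] [NumberField K]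

/-- a bound for the loss of height -/
def Hb (c : Fin 2 → Fin (d + 1) → K) (κ : ℝ) : Prop :=
  1 ≤ κ ∧ rsZ c ≠ 0 ∧ rsZ (rv c) ≠ 0 ∧ ∀ z : Fin 2 → K, z ≠ 0 →
    mulHeight z ^ d ≤ κ * mulHeight (ac c z)

/-- points of large height have infinite orbits -/
theorem Hb.grow (hd : 2 ≤ d) {c : Fin 2 → Fin (d + 1) → K} {κ : ℝ} (h : Hb c κ) {z : Fin 2 → K}
    (hz : z ≠ 0) (hκ : κ < mulHeight z) (j : ℕ) : κ < mulHeight ((ac c)^[j] z) ∧
      mulHeight z ≤ mulHeight ((ac c)^[j] z) ∧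
      mulHeight ((ac c)^[j] z) < mulHeight ((ac c)^[j + 1] z) := by
  obtain ⟨h1, h2, h3, h4⟩ := h
  have hstep : ∀ w : Fin 2 → K, w ≠ 0 → κ < mulHeight w → mulHeight w < mulHeight (ac c w) := by
    intro w hw hκw
    have h5 := h4 w hw
    by_contra hcon
    push Not at hcon
    have h6 : (1 : ℝ) ≤ mulHeight w := one_le_mulHeight w
    have h7 : mulHeight w ^ 2 ≤ mulHeight w ^ d := pow_le_pow_right₀ h6 hd
    have h8 : κ * mulHeight (ac c w) ≤ κ * mulHeight w := mul_le_mul_of_nonneg_left hcon (by linarith)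
    nlinarith
  induction j with
  | zero =>
    refine ⟨hκ, le_rfl, ?_⟩
    exact hstep z hz hκ
  | succ j ih =>
    obtain ⟨k1, k2, k3⟩ := ih
    refine ⟨k1.trans k3, k2.trans k3.le, ?_⟩
    rw [Function.iterate_succ_apply' (ac c) (j + 1)]
    exact hstep _ (iter_ne (by omega) h2 h3 hz _) (k1.trans k3)

theorem Hb.lt (hd : 2 ≤ d) {c : Fin 2 → Fin (d + 1) → K} {κ : ℝ} (h : Hb c κ) {z : Fin 2 → K}
    (hz : z ≠ 0) (hκ : κ < mulHeight z) {m n : ℕ} (hmn : m < n) :
    mulHeight ((ac c)^[m] z) < mulHeight ((ac c)^[n] z) := by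
  obtain ⟨j, rfl⟩ := Nat.exists_eq_add_of_lt hmn
  induction j with
  | zero => exact (h.grow hd hz hκ m).2.2
  | succ j ih => exact (ih (by omega)).trans (h.grow hd hz hκ (m + j + 1)).2.2

/-- the heights in the orbit of a preperiodic point -/
theorem Hb.pre (hd : 2 ≤ d) {c : Fin 2 → Fin (d + 1) → K} {κ : ℝ} (h : Hb c κ) {z : Fin 2 → K}
    (hz : z ≠ 0) {m n : ℕ} (hmn : m < n) (h0 : wg ((ac c)^[m] z) ((ac c)^[n] z) = 0) (k : ℕ) :
    mulHeight ((ac c)^[k] z) ≤ κ := by
  by_contra hcon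
  push Not at hcon
  have hne := fun j => iter_ne (by omega : 1 ≤ d) h.2.1 h.2.2.1 hz j
  obtain ⟨s, hs⟩ := par_field (hne m) h0
  have hs0 : s ≠ 0 := by
    rintro rfl
    rw [zero_smul] at hs
    exact hne n hs
  obtain ⟨s', hs', he⟩ := iter_par c hs0 hs k
  have h1 := h.lt hd (hne k) hcon hmn
  have e1 : ∀ i j, (ac c)^[i] ((ac c)^[j] z) = (ac c)^[j] ((ac c)^[i] z) := by
    intro i j
    rw [← Function.iterate_add_apply, ← Function.iterate_add_apply, add_comm]
  rw [e1 m k, e1 n k, he, mulHeight_smul_eq_mulHeight _ hs'] at h1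
  exact lt_irrefl _ h1

/-- the number of points with short orbits -/
theorem short_card' (hd : 2 ≤ d) {c : Fin 2 → Fin (d + 1) → K} {κ : ℝ} (h : Hb c κ) {i j : ℕ}
    (hij : i < j) (P : Finset (Fin 2 → K))
    (hP : ∀ z ∈ P, ∀ z' ∈ P, z ≠ z' → wg z z' ≠ 0) (h1 : ∀ z ∈ P, z 1 ≠ 0)
    (h0 : ∀ z ∈ P, wg ((ac c)^[i] z) ((ac c)^[j] z) = 0) : P.card ≤ d ^ i + d ^ j := by
  classical
  set Pn : ℕ → Fin 2 → K[X] := fun n => (ac (fun i j => C (c i j)))^[n] ![X, 1] with hPn
  have hv : ∀ i, ((![X, 1] : Fin 2 → K[X]) i).natDegree ≤ 1 := by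
    intro i
    fin_cases i <;> simp
  have hev : ∀ (t : K) (n : ℕ), (fun i => (Pn n i).eval t) = (ac c)^[n] ![t, 1] := by
    intro t n
    have h2 := ac_iter_map (Polynomial.evalRingHom t) (fun i j => C (c i j))
      (![X, 1] : Fin 2 → K[X]) n
    simp only [Polynomial.coe_evalRingHom, Polynomial.eval_C] at h2
    have e : (fun i => Polynomial.eval t ((![X, 1] : Fin 2 → K[X]) i)) = ![t, 1] := by
      funext i
      fin_cases i <;> simp
    rw [e] at h2
    exact h2
  have hz : ∀ (z : Fin 2 → K) (n : ℕ), z 1 ≠ 0 → (ac c)^[n] z =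
      (z 1) ^ (d ^ n) • (ac c)^[n] ![z 0 / z 1, 1] := by
    intro z n hz1
    rw [← ac_iter_smul]
    congr 1
    funext i
    fin_cases i
    · simp [mul_div_cancel₀, hz1]
    · simp
  set Φ : K[X] := wg (Pn i) (Pn j) with hΦ
  have hΦdeg : Φ.natDegree ≤ d ^ i + d ^ j :=
    wg_deg (fun k => ac_iter_deg c _ hv i k) (fun k => ac_iter_deg c _ hv j k)
  have hΦt : ∀ t : K, Φ.eval t = wg ((ac c)^[i] ![t, 1]) ((ac c)^[j] ![t, 1]) := by
    intro t
    rw [← hev, ← hev]
    exact wg_map (Polynomial.evalRingHom t) (Pn i) (Pn j)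
  have hΦz : ∀ z : Fin 2 → K, z 1 ≠ 0 → wg ((ac c)^[i] z) ((ac c)^[j] z) =
      (z 1) ^ (d ^ i) * (z 1) ^ (d ^ j) * Φ.eval (z 0 / z 1) := by
    intro z hz1
    rw [hz z i hz1, hz z j hz1, wg_smul, hΦt]
  have hΦ0 : Φ ≠ 0 := by
    intro hcon
    have hfin := NumberField.finite_setOfPred_mulHeight₁_le (K := K) κ
    have huniv : {x : K | mulHeight₁ x ≤ κ} = Set.univ := by
      ext t
      simp only [Set.mem_ofPred_eq, Set.mem_univ, iff_true]
      rw [mulHeight₁_eq_mulHeight]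
      have ht : (![t, 1] : Fin 2 → K) ≠ 0 := by
        intro h
        have := congrFun h 1
        simp at this
      refine h.pre hd ht hij ?_ 0
      rw [← hΦt, hcon, Polynomial.eval_zero]
    rw [huniv] at hfin
    exact Set.infinite_univ hfin
  have hinj : Set.InjOn (fun z : Fin 2 → K => z 0 / z 1) (P : Set (Fin 2 → K)) := by
    intro z hz z' hz' he
    by_contra hne
    apply hP z hz z' hz' hne
    simp only at he
    rw [div_eq_div_iff (h1 z hz) (h1 z' hz')] at he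
    unfold wg
    linear_combination he
  calc P.card = (P.image fun z : Fin 2 → K => z 0 / z 1).card :=
        (Finset.card_image_of_injOn hinj).symm
    _ ≤ Φ.roots.toFinset.card := by
        refine Finset.card_le_card fun t ht => ?_
        obtain ⟨z, hz, rfl⟩ := Finset.mem_image.1 ht
        rw [Multiset.mem_toFinset, Polynomial.mem_roots hΦ0, Polynomial.IsRoot.def]
        have h2 := hΦz z (h1 z hz)
        rw [h0 z hz] at h2
        exact (mul_eq_zero.1 h2.symm).resolve_left (mul_ne_zero (pow_ne_zero _ (h1 z hz))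
          (pow_ne_zero _ (h1 z hz)))
    _ ≤ Multiset.card Φ.roots := Multiset.toFinset_card_le _
    _ ≤ Φ.natDegree := Polynomial.card_roots' _
    _ ≤ _ := hΦdeg

/-- **Points with long orbits.** -/
theorem long' (hd : 2 ≤ d) (L : ℕ) {c : Fin 2 → Fin (d + 1) → K} {κ : ℝ} (h : Hb c κ)
    (P : Finset (Fin 2 → K)) (hP : ∀ z ∈ P, ∀ z' ∈ P, z ≠ z' → wg z z' ≠ 0)
    (hcard : (L + 1) * ((L + 1) * (2 * d ^ L)) + 1 < P.card) :
    ∃ z ∈ P, ∀ i j, i < j → j ≤ L → wg ((ac c)^[i] z) ((ac c)^[j] z) ≠ 0 := by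
  classical
  by_contra hcon
  push Not at hcon
  have hcov : P ⊆ (P.filter fun z => z 1 = 0) ∪
      ((Finset.range (L + 1)).biUnion fun i => (Finset.range (L + 1)).biUnion fun j =>
        P.filter fun z => z 1 ≠ 0 ∧ i < j ∧ wg ((ac c)^[i] z) ((ac c)^[j] z) = 0) := by
    intro z hz
    by_cases h1 : z 1 = 0
    · exact Finset.mem_union_left _ (Finset.mem_filter.2 ⟨hz, h1⟩)
    · obtain ⟨i, j, hij, hj, h⟩ := hcon z hz
      refine Finset.mem_union_right _ ?_
      rw [Finset.mem_biUnion]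
      refine ⟨i, Finset.mem_range.2 (by omega), ?_⟩
      rw [Finset.mem_biUnion]
      exact ⟨j, Finset.mem_range.2 (by omega), Finset.mem_filter.2 ⟨hz, h1, hij, h⟩⟩
  have h1 : (P.filter fun z => z 1 = 0).card ≤ 1 := by
    rw [Finset.card_le_one]
    intro z hz z' hz'
    rw [Finset.mem_filter] at hz hz'
    by_contra hne
    apply hP z hz.1 z' hz'.1 hne
    unfold wg
    rw [hz.2, hz'.2]
    ring
  have h2 : ((Finset.range (L + 1)).biUnion fun i => (Finset.range (L + 1)).biUnion fun j =>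
        P.filter fun z => z 1 ≠ 0 ∧ i < j ∧ wg ((ac c)^[i] z) ((ac c)^[j] z) = 0).card ≤
      (L + 1) * ((L + 1) * (2 * d ^ L)) := by
    refine (Finset.card_biUnion_le_card_mul _ _ ((L + 1) * (2 * d ^ L)) fun i hi => ?_).trans
      (by rw [Finset.card_range])
    refine (Finset.card_biUnion_le_card_mul _ _ (2 * d ^ L) fun j hj => ?_).trans
      (by rw [Finset.card_range])
    rw [Finset.mem_range] at hi hj
    by_cases hij : i < j
    · refine (short_card' hd h hij _
        (fun z hz z' hz' => hP z (Finset.mem_filter.1 hz).1 z' (Finset.mem_filter.1 hz').1)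
        (fun z hz => (Finset.mem_filter.1 hz).2.1)
        (fun z hz => (Finset.mem_filter.1 hz).2.2.2)).trans ?_
      have e1 : d ^ i ≤ d ^ L := Nat.pow_le_pow_right (by omega) (by omega)
      have e2 : d ^ j ≤ d ^ L := Nat.pow_le_pow_right (by omega) (by omega)
      omega
    · rw [Finset.filter_false_of_mem]
      · simp
      · intro z _ h
        exact hij h.2.1
  have h3 := (Finset.card_le_card hcov).trans (Finset.card_union_le _ _)
  omega

end ht

end Pool.Agent.R323
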