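import Pool.Agent.R323.NF.C

/-!
# Sizes of algebraic integers and coordinates
-/

set_option autoImplicit false

namespace Pool.Agent.R323

open IntermediateField

/-- algebraic integers all of whose conjugates are small -/
def Ib (B : ℕ) (α : Qb) : Prop := IsIntegral ℤ α ∧ ∀ σ : Qb →+* ℂ, ‖σ α‖ ≤ B

theorem Ib.mono {B B' : ℕ} {α : Qb} (h : Ib B α) (hB : B ≤ B') : Ib B' α :=
  ⟨h.1, fun σ => (h.2 σ).trans (by exact_mod_cast hB)⟩

theorem Ib.mul {B B' : ℕ} {α β : Qb} (h : Ib B α) (h' : Ib B' β) : Ib (B * B') (α * β) := by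
  refine ⟨h.1.mul h'.1, fun σ => ?_⟩
  rw [map_mul, norm_mul]
  push_cast
  exact mul_le_mul (h.2 σ) (h'.2 σ) (norm_nonneg _) (by positivity)

theorem Ib.add {B B' : ℕ} {α β : Qb} (h : Ib B α) (h' : Ib B' β) : Ib (B + B') (α + β) := by
  refine ⟨h.1.add h'.1, fun σ => ?_⟩
  rw [map_add]
  push_cast
  exact (norm_add_le _ _).trans (add_le_add (h.2 σ) (h'.2 σ))

theorem Ib.pow {B : ℕ} {α : Qb} (h : Ib B α) (k : ℕ) : Ib (B ^ k) (α ^ k) := by
  refine ⟨h.1.pow k, fun σ => ?_⟩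
  rw [map_pow, norm_pow]
  push_cast
  exact pow_le_pow_left₀ (norm_nonneg _) (h.2 σ) k

theorem Ib.int (z : ℤ) : Ib z.natAbs (z : Qb) := by
  refine ⟨isIntegral_algebraMap (A := Qb) (x := z), fun σ => ?_⟩
  rw [map_intCast, Complex.norm_intCast, Nat.cast_natAbs, Int.cast_abs]

theorem Ib.nat (z : ℕ) : Ib z (z : Qb) := by
  have := Ib.int (z : ℤ)
  simpa using this

theorem Ib.sum {ι : Type*} (s : Finset ι) {B : ι → ℕ} {α : ι → Qb} (h : ∀ i ∈ s, Ib (B i) (α i)) :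
    Ib (∑ i ∈ s, B i) (∑ i ∈ s, α i) := by
  classical
  induction s using Finset.induction_on with
  | empty =>
    have := Ib.nat 0
    simpa using this
  | insert a s ha ih =>
    rw [Finset.sum_insert ha, Finset.sum_insert ha]
    exact (h a (Finset.mem_insert_self _ _)).add (ih fun i hi => h i (Finset.mem_insert_of_mem hi))

section tr

variable (L : IntermediateField ℚ Qb) [FiniteDimensional ℚ L]

theorem ext_hom (σ : L →ₐ[ℚ] ℂ) : ∃ τ : Qb →+* ℂ, ∀ x : L, τ (x : Qb) = σ x := by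
  have : Algebra.IsAlgebraic ℚ Qb := AlgebraicClosure.isAlgebraic ℚ
  have : Algebra.IsAlgebraic L Qb := Algebra.IsAlgebraic.tower_top (K := ℚ) L
  obtain ⟨τ, hτ⟩ := IsAlgClosed.surjective_domRestrict_of_isAlgebraic (K := ℚ) (L := L) (M := ℂ)
    (E := Qb) σ
  refine ⟨τ.toRingHom, fun x => ?_⟩
  rw [← hτ]
  rfl

theorem int_trace {B : ℕ} {x : L} (hx : Ib B (x : Qb)) :
    ∃ z : ℤ, (z : ℚ) = Algebra.trace ℚ L x ∧ |z| ≤ ((Module.finrank ℚ L * B : ℕ) : ℤ) := by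
  have h1 : IsIntegral ℤ x := by
    have h2 : IsIntegral ℤ (algebraMap L Qb x) := hx.1
    exact (isIntegral_algebraMap_iff (algebraMap L Qb).injective).1 h2
  have h2 : IsIntegral ℤ (Algebra.trace ℚ L x) := Algebra.isIntegral_trace h1
  obtain ⟨z, hz⟩ := IsIntegrallyClosed.isIntegral_iff.1 h2
  have hz' : (z : ℚ) = Algebra.trace ℚ L x := by
    rw [← hz]
    simp
  refine ⟨z, hz', ?_⟩
  have h3 := trace_eq_sum_embeddings (K := ℚ) (L := L) ℂ (x := x)
  have h4 : ‖algebraMap ℚ ℂ (Algebra.trace ℚ L x)‖ ≤ Module.finrank ℚ L * B := by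
    rw [h3]
    refine (norm_sum_le _ _).trans ?_
    calc ∑ σ : L →ₐ[ℚ] ℂ, ‖σ x‖ ≤ ∑ _σ : L →ₐ[ℚ] ℂ, (B : ℝ) := by
          refine Finset.sum_le_sum fun σ _ => ?_
          obtain ⟨τ, hτ⟩ := ext_hom L σ
          rw [← hτ]
          exact hx.2 τ
      _ = _ := by
          rw [Finset.sum_const, nsmul_eq_mul, Finset.card_univ, AlgHom.card]
  rw [← hz'] at h4
  have h5 : algebraMap ℚ ℂ (z : ℚ) = ((z : ℤ) : ℂ) := by simp
  rw [h5, Complex.norm_intCast] at h4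
  exact_mod_cast h4

end tr

/-- linear independence of the powers -/
theorem lin_pow {θ : Qb} {n : ℕ} (hn : (minpoly ℚ θ).natDegree = n + 1) (a : Fin (n + 1) → ℚ)
    (h : ∑ l, ((a l : ℚ) : Qb) * θ ^ (l : ℕ) = 0) : a = 0 := by
  classical
  set p : Polynomial ℚ := ∑ l : Fin (n + 1), Polynomial.C (a l) * Polynomial.X ^ (l : ℕ) with hp
  have hp0 : Polynomial.aeval θ p = 0 := by
    rw [hp, map_sum, ← h]
    refine Finset.sum_congr rfl fun l _ => ?_
    rw [map_mul, map_pow, Polynomial.aeval_C, Polynomial.aeval_X]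
    simp
  have hdeg : p.degree < (n + 1 : ℕ) := by
    refine lt_of_le_of_lt (Polynomial.degree_sum_le _ _) ?_
    rw [Finset.sup_lt_iff (by exact WithBot.bot_lt_coe _)]
    intro l _
    refine lt_of_le_of_lt (Polynomial.degree_C_mul_X_pow_le _ _) ?_
    exact_mod_cast l.2
  have hz : p = 0 := by
    by_contra hne
    have h1 := Polynomial.natDegree_le_natDegree (minpoly.degree_le_of_ne_zero ℚ θ hne hp0)
    rw [hn] at h1
    have h2 := (Polynomial.natDegree_lt_iff_degree_lt hne).2 hdeg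
    omega
  funext l
  have h1 : p.coeff (l : ℕ) = a l := by
    rw [hp, Polynomial.finsetSum_coeff, Finset.sum_eq_single l]
    · simp
    · intro j _ hj
      rw [Polynomial.coeff_C_mul, Polynomial.coeff_X_pow, if_neg, mul_zero]
      intro h
      exact hj (Fin.ext h.symm)
    · intro h
      exact absurd (Finset.mem_univ _) h
  rw [hz, Polynomial.coeff_zero] at h1
  exact h1.symm

theorem lin_pow_int {θ : Qb} {n : ℕ} (hn : (minpoly ℚ θ).natDegree = n + 1) (a : Fin (n + 1) → ℤ)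
    (h : ∑ l, ((a l : ℤ) : Qb) * θ ^ (l : ℕ) = 0) : a = 0 := by
  have h1 := lin_pow hn (fun l => (a l : ℚ)) (by
    rw [← h]
    refine Finset.sum_congr rfl fun l _ => ?_
    simp)
  funext l
  have h2 := congrFun h1 l
  simp only [Pi.zero_apply] at h2
  exact_mod_cast h2

/-- **Integral coordinates.** -/
theorem coords (n : ℕ) : ∃ C A : ℕ, 1 ≤ C ∧ ∀ (θ : Qb) (B : ℕ), 1 ≤ B → Ib B θ →
    (minpoly ℚ θ).natDegree = n + 1 → ∃ Δ : ℤ, Δ ≠ 0 ∧ |Δ| ≤ ((C * B ^ A : ℕ) : ℤ) ∧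
      ∀ (α : Qb) (B₁ : ℕ), α ∈ ℚ⟮θ⟯ → Ib B₁ α → ∃ a : Fin (n + 1) → ℤ,
        (Δ : Qb) * α = ∑ l, ((a l : ℤ) : Qb) * θ ^ (l : ℕ) ∧
        ∀ l, |a l| ≤ ((C * B ^ A * B₁ : ℕ) : ℤ) := by
  classical
  refine ⟨(n + 1) * ((n + 1).factorial * (n + 1) ^ (n + 1)) * (n + 1), 2 * n * (n + 1) + n,
    Nat.succ_le_of_lt (by positivity), ?_⟩
  intro θ B hB hθ hn
  have hint : IsIntegral ℚ θ := by
    have : IsIntegral ℤ θ := hθ.1
    exact this.tower_top
  have hfd : FiniteDimensional ℚ ℚ⟮θ⟯ := IntermediateField.adjoin.finiteDimensional hint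
  have hfr : Module.finrank ℚ ℚ⟮θ⟯ = n + 1 := by
    rw [IntermediateField.adjoin.finrank hint, hn]
  let pb := IntermediateField.adjoin.powerBasis hint
  have hdim : pb.dim = n + 1 := by
    rw [IntermediateField.adjoin.powerBasis_dim, hn]
  let b : Module.Basis (Fin (n + 1)) ℚ ℚ⟮θ⟯ := pb.basis.reindex (finCongr hdim)
  let g : ℚ⟮θ⟯ := AdjoinSimple.gen ℚ θ
  have hg : (g : Qb) = θ := AdjoinSimple.coe_gen ℚ θ
  have hb : ∀ i, b i = g ^ (i : ℕ) := by
    intro i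
    rw [Module.Basis.reindex_apply, pb.basis_eq_pow, IntermediateField.adjoin.powerBasis_gen]
    rfl
  have hbI : ∀ i : Fin (n + 1), Ib (B ^ n) ((b i : ℚ⟮θ⟯) : Qb) := by
    intro i
    rw [hb]
    have h1 : ((g ^ (i : ℕ) : ℚ⟮θ⟯) : Qb) = θ ^ (i : ℕ) := by
      show (g : Qb) ^ (i : ℕ) = _
      rw [hg]
    rw [h1]
    exact (hθ.pow i).mono (Nat.pow_le_pow_right hB (by have := i.2; omega))
  -- the trace matrix
  have hG : ∀ i j, ∃ z : ℤ, (z : ℚ) = Algebra.trace ℚ ℚ⟮θ⟯ (b i * b j) ∧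
      |z| ≤ (((n + 1) * B ^ (2 * n) : ℕ) : ℤ) := by
    intro i j
    obtain ⟨z, hz1, hz2⟩ := int_trace ℚ⟮θ⟯ (x := b i * b j) ((hbI i).mul (hbI j))
    refine ⟨z, hz1, hz2.trans (le_of_eq ?_)⟩
    rw [hfr]
    congr 2
    rw [← pow_add]
    congr 1
    ring
  choose G hG1 hG2 using hG
  obtain ⟨m, hm⟩ : ∃ m : ℕ, m = (n + 1) * B ^ (2 * n) := ⟨_, rfl⟩
  have hm1 : 1 ≤ m := by
    rw [hm]
    have : 1 ≤ B ^ (2 * n) := Nat.one_le_pow _ _ hB
    nlinarith
  let M : Matrix (Fin (n + 1)) (Fin (n + 1)) ℤ := Matrix.of G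
  have hMm : ∀ i j, |M i j| ≤ (m : ℤ) := by
    intro i j
    rw [hm]
    exact hG2 i j
  have hMQ : M.map (Int.cast : ℤ → ℚ) = Algebra.traceMatrix ℚ b := by
    ext i j
    rw [Matrix.map_apply, Algebra.traceMatrix_apply, Algebra.traceForm_apply]
    exact hG1 i j
  have hdetQ : ((M.det : ℤ) : ℚ) = (Algebra.traceMatrix ℚ b).det := by
    rw [← hMQ]
    exact RingHom.map_det (Int.castRingHom ℚ) M
  have hdet0 : M.det ≠ 0 := by
    intro h0
    have h1 := Algebra.discr_not_zero_of_basis ℚ b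
    rw [Algebra.discr_def, ← hdetQ, h0, Int.cast_zero] at h1
    exact h1 rfl
  have hdetle : ∀ M' : Matrix (Fin (n + 1)) (Fin (n + 1)) ℤ, (∀ i j, |M' i j| ≤ (m : ℤ)) →
      |M'.det| ≤ (((n + 1).factorial * m ^ (n + 1) : ℕ) : ℤ) := by
    intro M' hM'
    have h1 := Matrix.det_le (abv := AbsoluteValue.abs) (A := M') (x := (m : ℤ)) hM'
    rw [Fintype.card_fin, nsmul_eq_mul] at h1
    push_cast
    exact h1
  have hadj : ∀ i j, |M.adjugate i j| ≤ (((n + 1).factorial * m ^ (n + 1) : ℕ) : ℤ) := by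
    intro i j
    rw [Matrix.adjugate_apply]
    refine hdetle _ fun k l => ?_
    rw [Matrix.updateRow_apply]
    split_ifs with h
    · rw [Pi.single_apply]
      split_ifs with h'
      · rw [abs_one]
        exact_mod_cast hm1
      · rw [abs_zero]
        positivity
    · exact hMm k l
  have hW : ∀ B₁ : ℕ, (n + 1) * ((n + 1).factorial * m ^ (n + 1)) * ((n + 1) * (B₁ * B ^ n)) =
      (n + 1) * ((n + 1).factorial * (n + 1) ^ (n + 1)) * (n + 1) * B ^ (2 * n * (n + 1) + n) *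
        B₁ := by
    intro B₁
    rw [hm, mul_pow, ← pow_mul, pow_add]
    ring
  refine ⟨M.det, hdet0, ?_, ?_⟩
  · refine (hdetle M hMm).trans ?_
    have h1 := hW 1
    rw [mul_one, one_mul] at h1
    rw [← h1]
    have h2 : 1 ≤ B ^ n := Nat.one_le_pow _ _ hB
    have h3 : (n + 1).factorial * m ^ (n + 1) ≤
        (n + 1) * ((n + 1).factorial * m ^ (n + 1)) * ((n + 1) * B ^ n) := by
      calc (n + 1).factorial * m ^ (n + 1) = 1 * ((n + 1).factorial * m ^ (n + 1)) * (1 * 1) := by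
            ring
        _ ≤ _ := Nat.mul_le_mul (Nat.mul_le_mul_right _ (by omega)) (Nat.mul_le_mul (by omega) h2)
    exact_mod_cast h3
  · intro α B₁ hα hαB
    let x : ℚ⟮θ⟯ := ⟨α, hα⟩
    have hT : ∀ i, ∃ z : ℤ, (z : ℚ) = Algebra.trace ℚ ℚ⟮θ⟯ (x * b i) ∧
        |z| ≤ (((n + 1) * (B₁ * B ^ n) : ℕ) : ℤ) := by
      intro i
      obtain ⟨z, hz1, hz2⟩ := int_trace ℚ⟮θ⟯ (x := x * b i) (B := B₁ * B ^ n) (hαB.mul (hbI i))
      refine ⟨z, hz1, hz2.trans (le_of_eq ?_)⟩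
      rw [hfr]
    choose T hT1 hT2 using hT
    have h1 := Algebra.traceMatrix_of_basis_mulVec b x
    have h2 : (Algebra.traceMatrix ℚ b).mulVec (b.equivFun x) = fun i => ((T i : ℤ) : ℚ) := by
      rw [h1]
      funext i
      exact (hT1 i).symm
    have h3 : ((M.map (Int.cast : ℤ → ℚ)).adjugate).mulVec (fun i => ((T i : ℤ) : ℚ)) =
        ((M.det : ℤ) : ℚ) • (b.equivFun x : Fin (n + 1) → ℚ) := by
      rw [← h2, hMQ, Matrix.mulVec_mulVec, Matrix.adjugate_mul, ← hdetQ, Matrix.smul_mulVec,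
        Matrix.one_mulVec]
    have h4 : (M.map (Int.cast : ℤ → ℚ)).adjugate = (M.adjugate).map (Int.cast : ℤ → ℚ) := by
      have := RingHom.map_adjugate (Int.castRingHom ℚ) M
      exact this.symm
    have h5 : ∀ l, ((M.adjugate.mulVec T l : ℤ) : ℚ) = ((M.det : ℤ) : ℚ) * b.equivFun x l := by
      intro l
      have h6 := congrFun h3 l
      rw [h4] at h6
      rw [Pi.smul_apply, smul_eq_mul] at h6
      rw [← h6]
      simp only [Matrix.mulVec, dotProduct, Matrix.map_apply]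
      push_cast
      rfl
    refine ⟨fun l => M.adjugate.mulVec T l, ?_, fun l => ?_⟩
    · have h6 : x = ∑ l, b.equivFun x l • b l := (b.sum_equivFun x).symm
      have h7 : α = ∑ l, ((b.equivFun x l : ℚ) : Qb) * θ ^ (l : ℕ) := by
        have h8 : ((x : ℚ⟮θ⟯) : Qb) = ((∑ l, b.equivFun x l • b l : ℚ⟮θ⟯) : Qb) := by rw [← h6]
        have h9 : ((∑ l, b.equivFun x l • b l : ℚ⟮θ⟯) : Qb) =
            ∑ l, ((b.equivFun x l • b l : ℚ⟮θ⟯) : Qb) := by
          exact map_sum (algebraMap ℚ⟮θ⟯ Qb) _ _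
        rw [h9] at h8
        refine h8.trans (Finset.sum_congr rfl fun l _ => ?_)
        rw [hb, Algebra.smul_def]
        have h10 : (((algebraMap ℚ ℚ⟮θ⟯ (b.equivFun x l)) * g ^ (l : ℕ) : ℚ⟮θ⟯) : Qb) =
            ((b.equivFun x l : ℚ) : Qb) * (g : Qb) ^ (l : ℕ) := by
          push_cast
          rfl
        rw [h10, hg]
      rw [h7, Finset.mul_sum]
      refine Finset.sum_congr rfl fun l _ => ?_
      have h8 : ((M.adjugate.mulVec T l : ℤ) : Qb) =
          ((M.det : ℤ) : Qb) * ((b.equivFun x l : ℚ) : Qb) := by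
        have h9 := congrArg (algebraMap ℚ Qb) (h5 l)
        rw [map_mul] at h9
        simpa using h9
      rw [h8]
      ring
    · rw [← hW]
      simp only [Matrix.mulVec, dotProduct]
      refine (Finset.abs_sum_le_sum_abs _ _).trans ?_
      calc ∑ i, |M.adjugate l i * T i| ≤ ∑ _i : Fin (n + 1),
            ((((n + 1).factorial * m ^ (n + 1)) * ((n + 1) * (B₁ * B ^ n)) : ℕ) : ℤ) := by
            refine Finset.sum_le_sum fun i _ => ?_
            rw [abs_mul, Nat.cast_mul]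
            exact mul_le_mul (hadj l i) (hT2 i) (abs_nonneg _) (by positivity)
        _ = _ := by
            rw [Finset.sum_const, Finset.card_univ, Fintype.card_fin, nsmul_eq_mul]
            push_cast
            ring

/-- the coefficients of the minimal polynomial -/
theorem min_coeffs (n : ℕ) : ∃ C A : ℕ, 1 ≤ C ∧ ∀ (θ : Qb) (B : ℕ), 1 ≤ B → Ib B θ →
    (minpoly ℚ θ).natDegree = n + 1 → ∃ μ : Fin (n + 1) → ℤ,
      θ ^ (n + 1) + ∑ l, ((μ l : ℤ) : Qb) * θ ^ (l : ℕ) = 0 ∧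
      ∀ l, |μ l| ≤ ((C * B ^ A : ℕ) : ℤ) := by
  obtain ⟨C, A, hC, H⟩ := coords n
  refine ⟨C, A + (n + 1), hC, fun θ B hB hθ hn => ?_⟩
  obtain ⟨Δ, hΔ, -, hΔ2⟩ := H θ B hB hθ hn
  obtain ⟨a, ha1, ha2⟩ := hΔ2 (θ ^ (n + 1)) (B ^ (n + 1)) (by
    exact pow_mem (mem_adjoin_simple_self ℚ θ) _) (hθ.pow _)
  -- the minimal polynomial over `ℤ`
  have hmz := minpoly.isIntegrallyClosed_eq_field_fractions' ℚ hθ.1
  have hmon := minpoly.monic hθ.1
  have hdegz : (minpoly ℤ θ).natDegree = n + 1 := by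
    rw [← hn, hmz, hmon.natDegree_map]
  have hrt := minpoly.aeval ℤ θ
  rw [Polynomial.aeval_eq_sum_range, Finset.sum_range_succ, hmon.coeff_natDegree, one_smul,
    hdegz] at hrt
  have h1 : θ ^ (n + 1) + ∑ l : Fin (n + 1), (((minpoly ℤ θ).coeff l : ℤ) : Qb) * θ ^ (l : ℕ) =
      0 := by
    rw [← Fin.sum_univ_eq_sum_range (fun i => (minpoly ℤ θ).coeff i • θ ^ i)] at hrt
    rw [add_comm, ← hrt]
    congr 1
    refine Finset.sum_congr rfl fun l _ => ?_
    rw [zsmul_eq_mul]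
  refine ⟨fun l => (minpoly ℤ θ).coeff l, h1, fun l => ?_⟩
  have h2 : ∑ l : Fin (n + 1), ((a l + Δ * (minpoly ℤ θ).coeff l : ℤ) : Qb) * θ ^ (l : ℕ) = 0 := by
    have e1 : ∑ l : Fin (n + 1), ((a l + Δ * (minpoly ℤ θ).coeff l : ℤ) : Qb) * θ ^ (l : ℕ) =
        ∑ l : Fin (n + 1), ((a l : ℤ) : Qb) * θ ^ (l : ℕ) + (Δ : Qb) *
        ∑ l : Fin (n + 1), (((minpoly ℤ θ).coeff l : ℤ) : Qb) * θ ^ (l : ℕ) := by
      rw [Finset.mul_sum, ← Finset.sum_add_distrib]
      refine Finset.sum_congr rfl fun l _ => ?_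
      push_cast
      ring
    rw [e1, ← ha1]
    linear_combination (Δ : Qb) * h1
  have h3 := congrFun (lin_pow_int hn _ h2) l
  simp only [Pi.zero_apply] at h3
  have h4 : a l = -(Δ * (minpoly ℤ θ).coeff l) := by linarith
  have h5 := ha2 l
  rw [h4, abs_neg, abs_mul] at h5
  have h6 : 1 ≤ |Δ| := Int.one_le_abs hΔ
  have h7 : |(minpoly ℤ θ).coeff l| ≤ |Δ| * |(minpoly ℤ θ).coeff l| :=
    le_mul_of_one_le_left (abs_nonneg _) h6
  refine h7.trans (h5.trans (le_of_eq ?_))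
  congr 1
  rw [pow_add]
  ring

end Pool.Agent.R323
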