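import Pool.Agent.R323.NF.S
import Pool.Agent.R323.NF.P

/-!
# Primitive elements of small size
-/

set_option autoImplicit false

namespace Pool.Agent.R323

open IntermediateField Height

/-- **A small primitive element.** -/
theorem prim_elt (M D : ℕ) (α : Fin M → Qb) (B : ℕ) (hα : ∀ i, Ib B (α i))
    (L : IntermediateField ℚ Qb) [FiniteDimensional ℚ L] (hD : Module.finrank ℚ L ≤ D)
    (hL : ∀ i, α i ∈ L) :
    ∃ θ ∈ L, Ib (M * ((D * M) ^ M + 1) * B) θ ∧ ∀ i, α i ∈ ℚ⟮θ⟯ := by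
  classical
  obtain ⟨E, hE⟩ : ∃ E : IntermediateField ℚ Qb, E = IntermediateField.adjoin ℚ (Set.range α) :=
    ⟨_, rfl⟩
  have hEL : E ≤ L := by
    rw [hE, IntermediateField.adjoin_le_iff]
    rintro _ ⟨i, rfl⟩
    exact hL i
  have hfd : FiniteDimensional ℚ E := Submodule.finiteDimensional_of_le
    (S₁ := E.toSubalgebra.toSubmodule) (S₂ := L.toSubalgebra.toSubmodule) hEL
  have hfr : Module.finrank ℚ E ≤ D :=
    (Submodule.finrank_mono (s := E.toSubalgebra.toSubmodule)
      (t := L.toSubalgebra.toSubmodule) hEL).trans hD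
  have hmem : ∀ i, α i ∈ E := by
    intro i
    rw [hE]
    exact IntermediateField.subset_adjoin _ _ ⟨i, rfl⟩
  let x : Fin M → E := fun i => ⟨α i, hmem i⟩
  let φ : E →ₐ[ℚ] Qb := E.val
  let P : (E →ₐ[ℚ] Qb) → Polynomial Qb := fun ψ =>
    ∑ i : Fin M, Polynomial.C (φ (x i) - ψ (x i)) * Polynomial.X ^ (i : ℕ)
  have hP0 : ∀ ψ, ψ ≠ φ → P ψ ≠ 0 := by
    intro ψ hψ h0
    apply hψ
    have h1 : ∀ i, φ (x i) = ψ (x i) := by
      intro i
      have h2 : (P ψ).coeff (i : ℕ) = φ (x i) - ψ (x i) := by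
        show (∑ i : Fin M, Polynomial.C (φ (x i) - ψ (x i)) * Polynomial.X ^ (i : ℕ)).coeff _ = _
        rw [Polynomial.finsetSum_coeff, Finset.sum_eq_single i]
        · rw [Polynomial.coeff_C_mul, Polynomial.coeff_X_pow, if_pos rfl, mul_one]
        · intro j _ hj
          rw [Polynomial.coeff_C_mul, Polynomial.coeff_X_pow, if_neg, mul_zero]
          intro h
          exact hj (Fin.ext h.symm)
        · intro h
          exact absurd (Finset.mem_univ _) h
      rw [h0, Polynomial.coeff_zero] at h2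
      exact (sub_eq_zero.1 h2.symm)
    refine IntermediateField.algHom_ext_of_eq_adjoin ℚ hE ?_
    rintro _ ⟨i, rfl⟩
    exact (h1 i).symm
  have hPdeg : ∀ ψ, (P ψ).natDegree ≤ M := by
    intro ψ
    refine Polynomial.natDegree_sum_le_of_forall_le _ _ fun i _ => ?_
    exact (Polynomial.natDegree_C_mul_X_pow_le _ _).trans i.2.le
  have hcard : Fintype.card (E →ₐ[ℚ] Qb) ≤ D := by
    rw [AlgHom.card]
    exact hfr
  let Pi₀ : Polynomial Qb := ∏ ψ ∈ Finset.univ.erase φ, P ψ
  have hPi₀0 : Pi₀ ≠ 0 := Finset.prod_ne_zero_iff.2 fun ψ hψ => hP0 ψ (Finset.ne_of_mem_erase hψ)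
  have hPi₀deg : Pi₀.natDegree ≤ D * M := by
    refine (Polynomial.natDegree_prod_le _ _).trans ?_
    calc ∑ ψ ∈ Finset.univ.erase φ, (P ψ).natDegree ≤ ∑ _ψ ∈ Finset.univ.erase φ, M :=
          Finset.sum_le_sum fun ψ _ => hPdeg ψ
      _ = (Finset.univ.erase φ).card * M := by rw [Finset.sum_const, smul_eq_mul]
      _ ≤ D * M := Nat.mul_le_mul_right _ ((Finset.card_le_card (Finset.erase_subset _ _)).trans
          (by rw [Finset.card_univ]; exact hcard))
  obtain ⟨c, hc, hcPi₀⟩ : ∃ c : ℕ, c ≤ D * M ∧ Pi₀.eval (c : Qb) ≠ 0 := by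
    by_contra hcon
    push Not at hcon
    apply hPi₀0
    refine Polynomial.eq_zero_of_natDegree_lt_card_of_eval_eq_zero' Pi₀
      ((Finset.range (D * M + 1)).image (Nat.cast : ℕ → Qb)) ?_ ?_
    · intro y hy
      obtain ⟨c, hc, rfl⟩ := Finset.mem_image.1 hy
      rw [Finset.mem_range] at hc
      exact hcon c (by omega)
    · rw [Finset.card_image_of_injective _ Nat.cast_injective, Finset.card_range]
      omega
  let θ' : E := ∑ i : Fin M, (c : E) ^ (i : ℕ) * x i
  have hθ' : (θ' : Qb) = ∑ i : Fin M, (c : Qb) ^ (i : ℕ) * α i := by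
    have : ((∑ i : Fin M, (c : E) ^ (i : ℕ) * x i : E) : Qb) =
        ∑ i : Fin M, (((c : E) ^ (i : ℕ) * x i : E) : Qb) := map_sum (algebraMap E Qb) _ _
    refine this.trans (Finset.sum_congr rfl fun i _ => ?_)
    push_cast
    rfl
  have hdiff : ∀ ψ : E →ₐ[ℚ] Qb, φ θ' - ψ θ' = (P ψ).eval (c : Qb) := by
    intro ψ
    show φ (∑ i : Fin M, (c : E) ^ (i : ℕ) * x i) - ψ (∑ i : Fin M, (c : E) ^ (i : ℕ) * x i) =
      (∑ i : Fin M, Polynomial.C (φ (x i) - ψ (x i)) * Polynomial.X ^ (i : ℕ)).eval _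
    rw [map_sum, map_sum, Polynomial.eval_finsetSum, ← Finset.sum_sub_distrib]
    refine Finset.sum_congr rfl fun i _ => ?_
    rw [map_mul, map_mul, map_pow, map_pow, map_natCast, map_natCast, Polynomial.eval_mul,
      Polynomial.eval_C, Polynomial.eval_pow, Polynomial.eval_X]
    ring
  have htop : ℚ⟮θ'⟯ = ⊤ := by
    refine (Field.primitive_element_iff_algHom_eq_of_eval ℚ Qb
      (fun y => IsAlgClosed.splits _) θ' φ).2 ?_
    intro ψ hψ
    by_contra hne
    have h1 := hdiff ψ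
    rw [hψ, sub_self] at h1
    have h2 : Pi₀.eval (c : Qb) = 0 := by
      show (∏ ψ ∈ Finset.univ.erase φ, P ψ).eval _ = 0
      rw [Polynomial.eval_prod]
      exact Finset.prod_eq_zero (Finset.mem_erase.2 ⟨fun h => hne h.symm, Finset.mem_univ ψ⟩)
        h1.symm
    exact hcPi₀ h2
  refine ⟨(θ' : Qb), hEL θ'.2, ?_, fun i => ?_⟩
  · rw [hθ']
    have h1 : Ib (∑ i : Fin M, c ^ (i : ℕ) * B) (∑ i : Fin M, (c : Qb) ^ (i : ℕ) * α i) :=
      Ib.sum _ fun i _ => ((Ib.nat c).pow _).mul (hα i)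
    refine h1.mono ?_
    calc ∑ i : Fin M, c ^ (i : ℕ) * B ≤ ∑ _i : Fin M, ((D * M) ^ M + 1) * B := by
          refine Finset.sum_le_sum fun i _ => Nat.mul_le_mul_right _ ?_
          rcases Nat.eq_zero_or_pos (D * M) with h0 | h0
          · have : c = 0 := by omega
            rw [this]
            have := Nat.pow_le_pow_left (zero_le_one : (0 : ℕ) ≤ 1) (i : ℕ)
            rw [one_pow] at this
            omega
          · calc c ^ (i : ℕ) ≤ (D * M) ^ (i : ℕ) := Nat.pow_le_pow_left hc _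
              _ ≤ (D * M) ^ M := Nat.pow_le_pow_right h0 i.2.le
              _ ≤ _ := Nat.le_succ _
      _ = _ := by
          rw [Finset.sum_const, Finset.card_univ, Fintype.card_fin, smul_eq_mul]
          ring
  · have h1 : x i ∈ ℚ⟮θ'⟯ := by rw [htop]; trivial
    have h2 : IntermediateField.lift ℚ⟮θ'⟯ = ℚ⟮(θ' : Qb)⟯ := IntermediateField.lift_adjoin_simple _ _ _
    rw [← h2]
    exact (IntermediateField.mem_lift (x i)).2 h1

section places

variable (K : IntermediateField ℚ Qb) [NumberField K]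

theorem place_le (x : K) (v : NumberField.InfinitePlace K) : v x ≤ mulHeight₁ x := by
  rw [NumberField.mulHeight₁_eq]
  have h1 : ∀ w : NumberField.InfinitePlace K, (1 : ℝ) ≤ max (w x) 1 ^ w.mult :=
    fun w => one_le_pow₀ (le_max_right _ _)
  have h2 : max (v x) 1 ^ v.mult ≤ ∏ w : NumberField.InfinitePlace K, max (w x) 1 ^ w.mult := by
    have := Finset.prod_le_prod_of_subset_of_one_le (s := {v})
      (t := (Finset.univ : Finset (NumberField.InfinitePlace K)))
      (f := fun w => max (w x) 1 ^ w.mult) (Finset.subset_univ _)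
      (fun i _ => by positivity) (fun i _ _ => h1 i)
    rwa [Finset.prod_singleton] at this
  have h3 : (1 : ℝ) ≤ ∏ᶠ w : NumberField.FinitePlace K, max (w x) 1 :=
    one_le_finprod fun _ => le_max_right _ _
  have h4 : v x ≤ max (v x) 1 ^ v.mult := by
    refine (le_max_left (v x) 1).trans ?_
    exact le_self_pow₀ (le_max_right _ _) v.mult_ne_zero
  have h5 : 0 ≤ ∏ w : NumberField.InfinitePlace K, max (w x) 1 ^ w.mult :=
    Finset.prod_nonneg fun w _ => by positivity
  calc v x ≤ (∏ w : NumberField.InfinitePlace K, max (w x) 1 ^ w.mult) * 1 := by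
        rw [mul_one]
        exact h4.trans h2
    _ ≤ _ := mul_le_mul_of_nonneg_left h3 h5

theorem hom_le (x : K) (σ : Qb →+* ℂ) : ‖σ (x : Qb)‖ ≤ mulHeight₁ x := by
  have h1 := place_le K x (NumberField.InfinitePlace.mk (σ.comp (algebraMap K Qb)))
  rwa [NumberField.InfinitePlace.apply] at h1

theorem ib_place {B : ℕ} {x : K} (hx : Ib B (x : Qb)) (v : NumberField.InfinitePlace K) :
    v x ≤ B := by
  rw [← NumberField.InfinitePlace.mk_embedding v, NumberField.InfinitePlace.apply]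
  obtain ⟨τ, hτ⟩ := ext_hom K (v.embedding.toRatAlgHom)
  have h1 := hτ x
  have h2 : v.embedding.toRatAlgHom x = v.embedding x := rfl
  rw [← h2, ← h1]
  exact hx.2 τ

/-- a small multiple which is integral -/
theorem ht_ib {x : K} {H : ℕ} (hx : mulHeight₁ x ≤ H) : ∃ n : ℕ, n ≠ 0 ∧ n ≤ H ∧
    IsIntegral ℤ ((n : K) * x) ∧ Ib (H * H) ((n : Qb) * (x : Qb)) := by
  obtain ⟨n, hn0, hn, hni⟩ := NumberField.exists_nat_le_mulHeight₁ x
  have hnH : n ≤ H := by exact_mod_cast hn.trans hx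
  refine ⟨n, hn0, hnH, hni, ?_, fun σ => ?_⟩
  · have h1 : IsIntegral ℤ (algebraMap K Qb ((n : K) * x)) := hni.algebraMap
    rwa [map_mul, map_natCast] at h1
  · rw [map_mul, norm_mul, map_natCast, Complex.norm_natCast]
    push_cast
    have h1 := (hom_le K x σ).trans hx
    exact mul_le_mul (by exact_mod_cast hnH) h1 (norm_nonneg _) (by positivity)

end places

/-- polynomially bounded -/
def PB (f : ℕ → ℕ) : Prop := ∃ C A : ℕ, 1 ≤ C ∧ ∀ X : ℕ, 1 ≤ X → f X ≤ C * X ^ A

theorem PB.const (c : ℕ) : PB fun _ => c := ⟨c + 1, 0, by omega, fun X _ => by simp⟩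

theorem PB.id : PB fun X => X := ⟨1, 1, le_rfl, fun X _ => by simp⟩

theorem PB.mul {f g : ℕ → ℕ} (hf : PB f) (hg : PB g) : PB fun X => f X * g X := by
  obtain ⟨C, A, hC, h⟩ := hf
  obtain ⟨C', A', hC', h'⟩ := hg
  refine ⟨C * C', A + A', Nat.succ_le_of_lt (Nat.mul_pos hC hC'), fun X hX => ?_⟩
  refine (Nat.mul_le_mul (h X hX) (h' X hX)).trans (le_of_eq ?_)
  rw [pow_add]
  ring

theorem PB.pow {f : ℕ → ℕ} (hf : PB f) (n : ℕ) : PB fun X => f X ^ n := by
  induction n with
  | zero => simpa using PB.const 1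
  | succ n ih =>
    simp only [pow_succ]
    exact ih.mul hf

theorem PB.add {f g : ℕ → ℕ} (hf : PB f) (hg : PB g) : PB fun X => f X + g X := by
  obtain ⟨C, A, hC, h⟩ := hf
  obtain ⟨C', A', hC', h'⟩ := hg
  refine ⟨C + C', A + A', by omega, fun X hX => ?_⟩
  have e1 : X ^ A ≤ X ^ (A + A') := Nat.pow_le_pow_right hX (by omega)
  have e2 : X ^ A' ≤ X ^ (A + A') := Nat.pow_le_pow_right hX (by omega)
  calc f X + g X ≤ C * X ^ (A + A') + C' * X ^ (A + A') :=
        Nat.add_le_add ((h X hX).trans (Nat.mul_le_mul_left _ e1))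
          ((h' X hX).trans (Nat.mul_le_mul_left _ e2))
    _ = _ := by ring

theorem PB.sum {ι : Type*} (s : Finset ι) {f : ι → ℕ → ℕ} (hf : ∀ i ∈ s, PB (f i)) :
    PB fun X => ∑ i ∈ s, f i X := by
  classical
  induction s using Finset.induction_on with
  | empty => simpa using PB.const 0
  | insert a s ha ih =>
    simp only [Finset.sum_insert ha]
    exact (hf a (Finset.mem_insert_self _ _)).add (ih fun i hi => hf i (Finset.mem_insert_of_mem hi))

end Pool.Agent.R323
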