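import Pool.Agent.R323.NF.M

/-!
# From projective points to vectors
-/

set_option autoImplicit false

namespace Pool.Agent.R323

open Height

/-- preperiodic points of the projective line over a field -/
theorem many_of' {d : ℕ} {K : Type} [Field K] (F : Fin 2 → Fin (d + 1) → K) (N : ℕ)
    (h : (N : ℕ∞) < ({p : Projectivization K (Fin 2 → K) | ∃ m n : ℕ, m < n ∧ ∃ s : K, s ≠ 0 ∧
      (ac F)^[n] p.rep = s • (ac F)^[m] p.rep} : Set (Projectivization K (Fin 2 → K))).encard) :
    ∃ P : Finset (Fin 2 → K), N < P.card ∧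
      (∀ z ∈ P, z ≠ 0 ∧ ∃ m n, m < n ∧ wg ((ac F)^[m] z) ((ac F)^[n] z) = 0) ∧
      (∀ z ∈ P, ∀ z' ∈ P, z ≠ z' → wg z z' ≠ 0) := by
  classical
  obtain ⟨t, hts, htc⟩ := Set.exists_subset_encard_eq (Order.add_one_le_of_lt h)
  have hfin : t.Finite := by
    apply Set.finite_of_encard_eq_coe (k := N + 1)
    rw [htc]
    norm_cast
  have hcard : hfin.toFinset.card = N + 1 := by
    have h1 := hfin.encard_eq_coe_toFinset_card
    rw [htc] at h1
    exact_mod_cast h1.symm
  have hinj : ∀ p q : Projectivization K (Fin 2 → K), wg p.rep q.rep = 0 → p = q := by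
    intro p q h2
    obtain ⟨r, hr⟩ := par_field p.rep_nonzero h2
    rw [← p.mk_rep, ← q.mk_rep, Projectivization.mk_eq_mk_iff']
    have hr0 : r ≠ 0 := by
      rintro rfl
      rw [zero_smul] at hr
      exact q.rep_nonzero hr
    refine ⟨r⁻¹, ?_⟩
    rw [hr, smul_smul, inv_mul_cancel₀ hr0, one_smul]
  refine ⟨hfin.toFinset.image fun p => p.rep, ?_, ?_, ?_⟩
  · rw [Finset.card_image_of_injective _ (fun p q hpq => hinj p q (by
      have h2 : p.rep = q.rep := hpq
      rw [h2, wg_self])), hcard]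
    omega
  · intro w hw
    obtain ⟨p, hp, rfl⟩ := Finset.mem_image.1 hw
    refine ⟨p.rep_nonzero, ?_⟩
    obtain ⟨m, n, hmn, r, hr, hrr⟩ := hts (hfin.mem_toFinset.1 hp)
    refine ⟨m, n, hmn, ?_⟩
    have h1 := wg_smul 1 r ((ac F)^[m] p.rep) ((ac F)^[m] p.rep)
    rw [one_smul, wg_self, mul_zero] at h1
    rw [hrr]
    exact h1
  · intro w hw w' hw' hne h0
    obtain ⟨p, hp, rfl⟩ := Finset.mem_image.1 hw
    obtain ⟨q, hq, rfl⟩ := Finset.mem_image.1 hw'
    apply hne
    rw [hinj p q h0]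

end Pool.Agent.R323
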